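import Pool.Agent.Run7.h184.TC.Main

/-!
# The L-functions are holomorphic in the half plane of convergence
-/

set_option autoImplicit false

namespace Pool.Agent.Run7.h184.TC

open NumberField IsDedekindDomain Filter Topology
open scoped Classical
open Pool.Agent.R433.MD Pool.Agent.R333.BR
open Pool.Agent.H921R2.TatePole (nm two_le_nm nm_summable)

section
variable {K : Type} [Field K] [NumberField K] {E : Type} [Field E] {d : ℕ}
  {bad : Set (HeightOneSpectrum (𝓞 K))} {A : HeightOneSpectrum (𝓞 K) → Matrix (Fin d) (Fin d) E}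
  {b : ℝ} (hA : Bd bad A b)

/-- the inverse of the factor at `w` -/
noncomputable def pw (bad : Set (HeightOneSpectrum (𝓞 K)))
    (A : HeightOneSpectrum (𝓞 K) → Matrix (Fin d) (Fin d) E) (F : Ext K) (τ : E →+* ℂ)
    (w : HeightOneSpectrum (𝓞 F.F)) (s : ℂ) : ℂ :=
  loc (K := K) (fun v n => pol bad A τ v n s) w

include hA in
theorem hol (F : Ext K) (τ : E →+* ℂ) :
    DifferentiableOn ℂ (fun s => ∏' w, pw bad A F τ w s) {s : ℂ | b < s.re} := by
  have hopen : ∀ c : ℝ, IsOpen {s : ℂ | c < s.re} := fun c =>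
    isOpen_lt continuous_const Complex.continuous_re
  intro s hs
  have hs' : b < s.re := hs
  obtain ⟨c, hbc, hcs⟩ := exists_between hs'
  have hu : Summable fun w : HeightOneSpectrum (𝓞 F.F) => (2 : ℝ) ^ d *
      (nm w : ℝ) ^ (-(c - b + 1)) := (nm_summable (by linarith : 1 < c - b + 1)).mul_left _
  have hbd : ∀ (w : HeightOneSpectrum (𝓞 F.F)) (z : ℂ), c < z.re →
      ‖pw bad A F τ w z - 1‖ ≤ 2 ^ d * (nm w : ℝ) ^ (-(c - b + 1)) := by
    intro w z hz
    have h4 : nm w = nm (und (K := K) w) ^ fdeg (⟨w, rfl⟩ : Fib F.F (und (K := K) w)) :=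
      nm_fib (K := K) ⟨w, rfl⟩
    have h2 := two_le_nm w
    have h1w : (1 : ℝ) < nm w := by exact_mod_cast (by omega : 1 < nm w)
    have h5 : (nm w : ℝ) ^ (-(z.re - b + 1)) ≤ (nm w : ℝ) ^ (-(c - b + 1)) :=
      Real.rpow_le_rpow_of_exponent_le h1w.le (by linarith)
    have h6 : (nm w : ℝ) ^ (-(z.re - b + 1)) ≤ 1 :=
      Real.rpow_le_one_of_one_le_of_nonpos h1w.le (by linarith)
    have h7 : 0 ≤ (nm w : ℝ) ^ (-(z.re - b + 1)) := by positivity
    have h8 := prod_near_one (rts bad A τ (und (K := K) w)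
      (fdeg (⟨w, rfl⟩ : Fib F.F (und (K := K) w))) z) h7 h6 (fun y hy => by
        rw [h4]
        exact rts_norm hA τ _ _ z y hy)
    change ‖pol bad A τ (und (K := K) w) (fdeg (⟨w, rfl⟩ : Fib F.F (und (K := K) w))) z - 1‖ ≤ _
    rw [pol_eq]
    refine h8.trans ?_
    have h9 : (2 : ℝ) ^ (rts bad A τ (und (K := K) w)
      (fdeg (⟨w, rfl⟩ : Fib F.F (und (K := K) w))) z).card ≤ 2 ^ d :=
      pow_le_pow_right₀ (by norm_num) (rts_card _ _ _ _ _ _)
    have h10 : (0 : ℝ) < 2 ^ d := by positivity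
    nlinarith
  have hdiff : ∀ w : HeightOneSpectrum (𝓞 F.F), Differentiable ℂ fun z => pw bad A F τ w z :=
    fun w => differentiable_pol bad A τ _ _
  have h1 := Summable.hasProdLocallyUniformlyOn_one_add (f := fun w z => pw bad A F τ w z - 1)
    (hopen c) hu (Eventually.of_forall fun w z hz => hbd w z hz)
    (fun w => ((hdiff w).continuous.sub continuous_const).continuousOn)
  have h2 : DifferentiableOn ℂ (fun z => ∏' w, (1 + (pw bad A F τ w z - 1))) {z : ℂ | c < z.re} := by
    refine (hasProdLocallyUniformlyOn_iff_tendstoLocallyUniformlyOn.1 h1).differentiableOn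
      (Eventually.of_forall fun S => ?_) (hopen c)
    exact DifferentiableOn.fun_finsetProd fun w _ =>
      ((differentiable_const _).add ((hdiff w).sub (differentiable_const _))).differentiableOn
  simp only [add_sub_cancel] at h2
  exact ((h2 s hcs).differentiableAt ((hopen c).mem_nhds hcs)).differentiableWithinAt

theorem hasProd_pw (F : Ext K) (τ : E →+* ℂ) (s : HP b) :
    HasProd (fun w => pw bad A F τ w s) ((LF hA F τ s : ℂˣ) : ℂ)⁻¹ := by
  have h1 := (LF_hasProd hA F τ s).inv₀ (Units.ne_zero _)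
  refine h1.congr_fun fun w => ?_
  change pw bad A F τ w s = (loc (K := K) (fun v n => (pol bad A τ v n s)⁻¹) w)⁻¹
  rw [loc, inv_inv]
  rfl

/-- **The values in the half plane of convergence.** -/
theorem ld_half (F : Ext K) (τ : E →+* ℂ) (m : HP b) :
    Ld {s : ℂ | b < s.re} m (LF hA F τ) (LF hA F τ m) 0 := by
  have hopen : IsOpen {s : ℂ | b < s.re} := isOpen_lt continuous_const Complex.continuous_re
  have hval : ∀ s : HP b, ∏' w, pw bad A F τ w s = ((LF hA F τ s)⁻¹ : ℂˣ) := fun s => by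
    rw [(hasProd_pw hA F τ s).tprod_eq, Units.val_inv_eq_inv_val]
  have han : ∀ s : HP b, AnalyticAt ℂ (fun s => ∏' w, pw bad A F τ w s) s := fun s =>
    (hol hA F τ).analyticAt (hopen.mem_nhds s.2)
  have h1 : Ld {s : ℂ | b < s.re} m (LF hA F τ)⁻¹ (LF hA F τ m)⁻¹ 0 := by
    refine ⟨fun s => ∏' w, pw bad A F τ w s, fun s hs => (han ⟨s, hs⟩).meromorphicAt,
      fun s => hval s, ?_, ?_⟩
    · rw [(han m).meromorphicOrderAt_eq, (han m).analyticOrderAt_eq_zero.2
        (by rw [hval m]; exact Units.ne_zero _)]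
      rfl
    · rw [(han m).meromorphicTrailingCoeffAt_of_ne_zero (by rw [hval m]; exact Units.ne_zero _),
        hval m]
  have h2 := h1.inv
  rw [inv_inv, inv_inv, neg_zero] at h2
  exact h2

end

end Pool.Agent.Run7.h184.TC
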