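import Pool.Agent.Run7.h184.TC.Desc

/-!
# The system of spaces attached to a representation of the absolute Galois group
-/

set_option autoImplicit false

namespace Pool.Agent.Run7.h184.TC

open NumberField
open scoped Classical
open Pool.Agent.R433.MD Pool.Agent.R333.BR

/-- The elements of `W` which are rational over `F`: those fixed by all elements of the absolute Galois
group of `K` which fix the image of `F` under the (chosen) embedding of `F` in the algebraic closure. -/
def rational {K : Type} [Field K] {W : Type} [AddCommGroup W] [Module ℚ W]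
    (ρ : Representation ℚ Gal(AlgebraicClosure K/K) W)
    (F : Type) [Field F] [Algebra K F] [Algebra.IsAlgebraic K F] : Submodule ℚ W where
  carrier := {x | ∀ σ : Gal(AlgebraicClosure K/K),
    (∀ a : F, σ ((IsAlgClosed.lift : F →ₐ[K] AlgebraicClosure K) a) =
      (IsAlgClosed.lift : F →ₐ[K] AlgebraicClosure K) a) → ρ σ x = x}
  add_mem' {x y} hx hy := fun σ hσ => by rw [map_add, hx σ hσ, hy σ hσ]
  zero_mem' := fun σ _ => map_zero _
  smul_mem' c x hx := fun σ hσ => by rw [map_smul, hx σ hσ]

section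
variable {K : Type} [Field K]

/-- two embeddings are conjugate -/
theorem exists_conj {F : Type} [Field F] [Algebra K F] (i j : F →ₐ[K] AlgebraicClosure K) :
    ∃ g : Gal(AlgebraicClosure K/K), ∀ a, g (i a) = j a := by
  let χ : i.fieldRange ≃ₐ[K] j.fieldRange :=
    (AlgEquiv.ofInjectiveField i).symm.trans (AlgEquiv.ofInjectiveField j)
  refine ⟨χ.liftNormal (AlgebraicClosure K), fun a => ?_⟩
  have h1 := χ.liftNormal_commutes (AlgebraicClosure K) (AlgEquiv.ofInjectiveField i a)
  have h2 : algebraMap i.fieldRange (AlgebraicClosure K) (AlgEquiv.ofInjectiveField i a) = i a := rfl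
  have h3 : χ (AlgEquiv.ofInjectiveField i a) = AlgEquiv.ofInjectiveField j a := by
    change AlgEquiv.ofInjectiveField j ((AlgEquiv.ofInjectiveField i).symm
      (AlgEquiv.ofInjectiveField i a)) = _
    rw [AlgEquiv.symm_apply_apply]
  rw [h2, h3] at h1
  exact h1

end

section
variable {K : Type} [Field K] [NumberField K]

/-- the chosen embedding -/
noncomputable def emb (F : Ext K) : F.F →ₐ[K] AlgebraicClosure K := IsAlgClosed.lift

/-- the chosen element -/
noncomputable def gg {F F' : Ext K} (f : F.F →ₐ[K] F'.F) : Gal(AlgebraicClosure K/K) :=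
  (exists_conj (emb F) ((emb F').comp f)).choose

theorem gg_spec {F F' : Ext K} (f : F.F →ₐ[K] F'.F) (a : F.F) :
    gg f (emb F a) = emb F' (f a) := (exists_conj (emb F) ((emb F').comp f)).choose_spec a

variable {W : Type} [AddCommGroup W] [Module ℚ W]
  (ρ : Representation ℚ Gal(AlgebraicClosure K/K) W)

theorem mem_rational (F : Ext K) (x : W) : x ∈ rational ρ F.F ↔
    ∀ σ : Gal(AlgebraicClosure K/K), (∀ a : F.F, σ (emb F a) = emb F a) → ρ σ x = x := Iff.rfl

/-- independence of the choice -/
theorem act_eq {F F' : Ext K} (f : F.F →ₐ[K] F'.F) (g : Gal(AlgebraicClosure K/K))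
    (hg : ∀ a, g (emb F a) = emb F' (f a)) (x : W) (hx : x ∈ rational ρ F.F) :
    ρ (gg f) x = ρ g x := by
  have h1 := hx (g⁻¹ * gg f) fun a => by
    have h2 : (g⁻¹ * gg f) (emb F a) = g⁻¹ (gg f (emb F a)) := rfl
    have h3 : (g⁻¹ * gg f) (emb F a) = emb F a := by
      rw [h2, gg_spec, ← hg]
      exact AlgEquiv.symm_apply_apply g _
    exact h3
  have h2 : ρ g (ρ (g⁻¹ * gg f) x) = ρ (gg f) x := by
    rw [← Module.End.mul_apply, ← map_mul, mul_inv_cancel_left]
  rw [← h2, h1]

theorem act_mem {F F' : Ext K} (f : F.F →ₐ[K] F'.F) (x : W) (hx : x ∈ rational ρ F.F) :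
    ρ (gg f) x ∈ rational ρ F'.F := by
  intro σ hσ
  have h1 := hx ((gg f)⁻¹ * σ * gg f) fun a => by
    have h2 : ((gg f)⁻¹ * σ * gg f) (emb F a) = (gg f)⁻¹ (σ (gg f (emb F a))) := rfl
    have h3 : ((gg f)⁻¹ * σ * gg f) (emb F a) = emb F a := by
      have h4 : σ (emb F' (f a)) = emb F' (f a) := hσ (f a)
      rw [h2, gg_spec, h4, ← gg_spec]
      exact AlgEquiv.symm_apply_apply (gg f) _
    exact h3
  have h2 : ρ σ (ρ (gg f) x) = ρ (gg f) (ρ ((gg f)⁻¹ * σ * gg f) x) := by
    rw [← Module.End.mul_apply, ← Module.End.mul_apply, ← map_mul, ← map_mul]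
    congr 2
    group
  rw [h2, h1]

/-- the map of the system -/
noncomputable def galMap {F F' : Ext K} (f : F.F →ₐ[K] F'.F) :
    rational ρ F.F →ₗ[ℚ] rational ρ F'.F :=
  ((ρ (gg f)).domRestrict (rational ρ F.F)).codRestrict (rational ρ F'.F)
    fun x => act_mem ρ f x x.2

theorem galMap_eq {F F' : Ext K} (f : F.F →ₐ[K] F'.F) (g : Gal(AlgebraicClosure K/K))
    (hg : ∀ a, g (emb F a) = emb F' (f a)) (x : rational ρ F.F) :
    (galMap ρ f x : W) = ρ g x := act_eq ρ f g hg x x.2

/-- The system of spaces. -/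
noncomputable def ofRep [FiniteDimensional ℚ W] : GaloisModules K where
  obj F := rational ρ F.F
  map f := galMap ρ f
  map_id F := by
    refine LinearMap.ext fun x => Subtype.ext ?_
    rw [galMap_eq ρ _ 1 (fun a => rfl), map_one]
    rfl
  map_comp {F F' F''} f g := by
    refine LinearMap.ext fun x => Subtype.ext ?_
    rw [galMap_eq ρ (g.comp f) (gg g * gg f) (fun a => ?_)]
    · rw [map_mul]
      rfl
    · have h2 : (gg g * gg f) (emb F a) = gg g (gg f (emb F a)) := rfl
      rw [h2, gg_spec, gg_spec]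
      rfl
  injective f := by
    intro x y h
    have h1 : ρ (gg f) (x : W) = ρ (gg f) (y : W) := congrArg Subtype.val h
    refine Subtype.ext ?_
    have h2 := congrArg (ρ (gg f)⁻¹) h1
    rwa [← Module.End.mul_apply, ← Module.End.mul_apply, ← map_mul, inv_mul_cancel, map_one] at h2
  descent {F N} f hN x hx := by
    refine ⟨⟨ρ (gg f)⁻¹ x, ?_⟩, ?_⟩
    · intro τ hτ
      have hτ' : ∀ a : F.F, τ (emb F a) = emb F a := hτ
      let τ' : Gal(AlgebraicClosure K/K) := gg f * τ * (gg f)⁻¹
      haveI : Normal K N.F := hN.to_normal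
      letI : Algebra N.F (AlgebraicClosure K) := (emb N).toRingHom.toAlgebra
      haveI : IsScalarTower K N.F (AlgebraicClosure K) := IsScalarTower.of_algHom (emb N)
      let σ : N.F →ₐ[K] N.F :=
        (τ' : AlgebraicClosure K →ₐ[K] AlgebraicClosure K).restrictNormal N.F
      have hσ : ∀ a : N.F, τ' (emb N a) = emb N (σ a) := fun a =>
        (AlgHom.restrictNormal_commutes
          (τ' : AlgebraicClosure K →ₐ[K] AlgebraicClosure K) N.F a).symm
      have h1 : σ.comp f = f := by
        refine AlgHom.ext fun a => (emb N).toRingHom.injective ?_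
        change emb N (σ (f a)) = emb N (f a)
        have h2 : τ' (gg f (emb F a)) = gg f (τ ((gg f)⁻¹ (gg f (emb F a)))) := rfl
        have h3 : (gg f)⁻¹ (gg f (emb F a)) = emb F a := AlgEquiv.symm_apply_apply (gg f) _
        rw [← hσ, ← gg_spec, h2, h3, hτ']
      have h4 : ρ τ' (x : W) = x := by
        rw [← galMap_eq ρ σ τ' hσ x, hx σ h1]
      have h5 : τ = (gg f)⁻¹ * τ' * gg f := by
        change τ = (gg f)⁻¹ * (gg f * τ * (gg f)⁻¹) * gg f
        group
      calc ρ τ (ρ (gg f)⁻¹ (x : W)) = ρ (τ * (gg f)⁻¹) (x : W) := by rw [map_mul]; rfl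
        _ = ρ ((gg f)⁻¹ * τ') (x : W) := by
            congr 2
            change τ * (gg f)⁻¹ = (gg f)⁻¹ * (gg f * τ * (gg f)⁻¹)
            group
        _ = ρ (gg f)⁻¹ (x : W) := by
            rw [map_mul, Module.End.mul_apply, h4]
    · refine Subtype.ext ?_
      change ρ (gg f) (ρ (gg f)⁻¹ (x : W)) = x
      rw [← Module.End.mul_apply, ← map_mul, mul_inv_cancel, map_one]
      rfl
  finite F := inferInstance

end

end Pool.Agent.Run7.h184.TC
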