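import Pool.Agent.Run7.h184.TC.Abs

/-!
# The universal relations
-/

set_option autoImplicit false

namespace Pool.Agent.Run7.h184.TC

open NumberField
open scoped Classical
open Pool.Agent.R433.MD

/-- **The universal relations.** -/
theorem abs_univ {K : Type} [Field K] [NumberField K] {ι : Type} [Fintype ι] (Z : ι → Ext K)
    (a : ι → ℤ) (h : ∀ v : K →+* ℝ, ∑ i, a i * (rr (Z i).F v : ℤ) = 0) :
    ∃ (m r : ℕ) (Y : Fin r → Ext K) (n : Fin r → ℤ), m ≠ 0 ∧ (∀ j, CycType K (Y j).F) ∧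
      ∀ (V : Type) [AddCommGroup V] [Module ℚ V] (Ψ : Ext K → V), Formal Ψ →
        (m : ℤ) • ∑ i, a i • Ψ (Z i) - ∑ j, n j • Ψ (Y j) = 0 := by
  obtain ⟨N, _, _, _, _, f, m, q, Y, g, n, hm0, hY, hrel⟩ := relation Z a h
  refine ⟨m, q, Y, n, hm0, hY, fun V _ _ Ψ hΨ => ?_⟩
  let X : ι ⊕ Fin q → Ext K := Sum.elim Z Y
  let fX : ∀ i, (X i).F →ₐ[K] N := fun i =>
    match i with
    | Sum.inl i => f i
    | Sum.inr j => g j
  let e : ι ⊕ Fin q → ℤ := Sum.elim (fun i => m * a i) (fun j => - n j)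
  have hfx : ∀ σ : Gal(N/K), ∑ i, e i * fx (fX i).fieldRange.fixingSubgroup σ = 0 := by
    intro σ
    rw [Fintype.sum_sum_type]
    have h2 := hrel σ
    change ∑ i, (m * a i) * fx (f i).fieldRange.fixingSubgroup σ +
      ∑ j, (- n j) * fx (g j).fieldRange.fixingSubgroup σ = _
    rw [Finset.mul_sum] at h2
    simp only [mul_assoc, neg_mul, Finset.sum_neg_distrib]
    rw [h2, add_neg_cancel]
  have h1 := hΨ N (ι ⊕ Fin q) X fX e hfx
  rw [Fintype.sum_sum_type] at h1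
  have h2 : ∑ i, ((m : ℤ) * a i) • Ψ (Z i) + ∑ j, (- n j) • Ψ (Y j) = 0 := h1
  rw [← h2, Finset.smul_sum]
  simp only [mul_smul, neg_smul, Finset.sum_neg_distrib, sub_eq_add_neg]

end Pool.Agent.Run7.h184.TC
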