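import Pool.Agent.Run7.h184.TC.Abs
import Pool.Agent.R333.BR.Rank

/-!
# Elements of a commutative group modulo a subgroup, up to powers
-/

set_option autoImplicit false

namespace Pool.Agent.Run7.h184.TC

open NumberField TensorProduct
open Pool.Agent.R433.MD Pool.Agent.R333.BR

section
variable {G : Type} [CommGroup G] (H : Subgroup G)

noncomputable instance instCommGroupQuo : CommGroup (G ⧸ H) := QuotientGroup.Quotient.commGroup _

noncomputable instance instAddCommGroupQuo : AddCommGroup (Additive (G ⧸ H)) :=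
  Additive.addCommGroup

/-- `G / H` up to torsion -/
abbrev VQ : Type := ℚ ⊗[ℤ] Additive (G ⧸ H)

/-- the class of an element -/
noncomputable def cl (x : G) : VQ H :=
  (1 : ℚ) ⊗ₜ[ℤ] Additive.ofMul (QuotientGroup.mk x)

theorem cl_mul (x y : G) : cl H (x * y) = cl H x + cl H y := by
  unfold cl
  rw [← TensorProduct.tmul_add]
  rfl

theorem cl_one : cl H 1 = 0 := by
  have h := cl_mul H 1 1
  rw [one_mul] at h
  exact left_eq_add.1 h

theorem cl_inv (x : G) : cl H x⁻¹ = - cl H x := by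
  have h := cl_mul H x x⁻¹
  rw [mul_inv_cancel, cl_one] at h
  exact (neg_eq_of_add_eq_zero_right h.symm).symm

theorem cl_pow (x : G) (n : ℕ) : cl H (x ^ n) = n • cl H x := by
  induction n with
  | zero => rw [pow_zero, cl_one, zero_smul]
  | succ n ih => rw [pow_succ, cl_mul, ih, succ_nsmul]

theorem cl_zpow (x : G) (n : ℤ) : cl H (x ^ n) = n • cl H x := by
  rcases n with n | n
  · rw [Int.ofNat_eq_natCast, zpow_natCast, natCast_zsmul, cl_pow]
  · rw [zpow_negSucc, cl_inv, cl_pow, negSucc_zsmul]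

theorem cl_prod {ι : Type} (s : Finset ι) (x : ι → G) :
    cl H (∏ i ∈ s, x i) = ∑ i ∈ s, cl H (x i) := by
  classical
  induction s using Finset.induction_on with
  | empty => rw [Finset.prod_empty, Finset.sum_empty, cl_one]
  | insert a s ha ih => rw [Finset.prod_insert ha, Finset.sum_insert ha, cl_mul, ih]

theorem cl_mem {x : G} (hx : x ∈ H) : cl H x = 0 := by
  have h : (QuotientGroup.mk x : G ⧸ H) = 1 := (QuotientGroup.eq_one_iff _).2 hx
  unfold cl
  rw [h]
  exact TensorProduct.tmul_zero _ _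

theorem cl_eq_zero {x : G} : cl H x = 0 ↔ ∃ k : ℕ, k ≠ 0 ∧ x ^ k ∈ H := by
  constructor
  · intro h
    have hloc := isLoc (Additive (G ⧸ H))
    have h1 := (IsLocalizedModule.eq_zero_iff (nonZeroDivisors ℤ)
      (TensorProduct.mk ℤ ℚ (Additive (G ⧸ H)) 1)).1 h
    obtain ⟨⟨n, hn⟩, h2⟩ := h1
    have hn0 : n ≠ 0 := nonZeroDivisors.ne_zero hn
    have h3 : n • (Additive.ofMul (QuotientGroup.mk x : G ⧸ H)) = 0 := h2
    have h4 : (QuotientGroup.mk x : G ⧸ H) ^ n = 1 := h3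
    rw [← QuotientGroup.mk_zpow, QuotientGroup.eq_one_iff] at h4
    refine ⟨n.natAbs, Int.natAbs_ne_zero.2 hn0, ?_⟩
    rcases Int.natAbs_eq n with h5 | h5
    · rw [← zpow_natCast, ← h5]
      exact h4
    · have h6 := H.inv_mem h4
      rw [← zpow_neg] at h6
      rw [← zpow_natCast]
      convert h6 using 2
      omega
  · rintro ⟨k, hk, h⟩
    have h1 := cl_mem H h
    rw [cl_pow, ← Nat.cast_smul_eq_nsmul ℚ] at h1
    exact (smul_eq_zero.1 h1).resolve_left (Nat.cast_ne_zero.2 hk)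

theorem cl_eq {x y : G} : cl H x = cl H y ↔ ∃ k : ℕ, k ≠ 0 ∧ x ^ k * (y ^ k)⁻¹ ∈ H := by
  rw [← sub_eq_zero, sub_eq_add_neg, ← cl_inv, ← cl_mul, cl_eq_zero]
  simp only [mul_pow, inv_pow]

theorem cl_surj (hdiv : ∀ (x : G) (k : ℕ), k ≠ 0 → ∃ y : G, y ^ k = x) (u : VQ H) :
    ∃ x : G, cl H x = u := by
  have hloc := isLoc (Additive (G ⧸ H))
  obtain ⟨⟨a, ⟨n, hn⟩⟩, h⟩ := IsLocalizedModule.surj (nonZeroDivisors ℤ)
    (TensorProduct.mk ℤ ℚ (Additive (G ⧸ H)) 1) u
  have hn0 : n ≠ 0 := nonZeroDivisors.ne_zero hn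
  have h1 : n • u = (1 : ℚ) ⊗ₜ[ℤ] a := h
  obtain ⟨y, hy⟩ := QuotientGroup.mk_surjective a.toMul
  have h2 : n • u = cl H y := by
    rw [h1]
    unfold cl
    rw [hy]
    rfl
  have hk : n.natAbs ≠ 0 := Int.natAbs_ne_zero.2 hn0
  obtain ⟨x, hx⟩ := hdiv y _ hk
  have h3 : (n.natAbs : ℤ) • cl H x = n • u := by
    rw [h2, ← hx, cl_pow, natCast_zsmul]
  rcases Int.natAbs_eq n with h5 | h5
  · refine ⟨x, ?_⟩
    rw [← h5, ← Int.cast_smul_eq_zsmul ℚ, ← Int.cast_smul_eq_zsmul ℚ] at h3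
    exact smul_right_injective _ (Int.cast_ne_zero.2 hn0 : (n : ℚ) ≠ 0) h3
  · refine ⟨x⁻¹, ?_⟩
    have h6 : (n.natAbs : ℤ) = - n := by omega
    rw [h6, neg_smul, ← smul_neg, ← cl_inv, ← Int.cast_smul_eq_zsmul ℚ,
      ← Int.cast_smul_eq_zsmul ℚ] at h3
    exact smul_right_injective _ (Int.cast_ne_zero.2 hn0 : (n : ℚ) ≠ 0) h3

end

section
variable (E : Type) [Field E]

/-- `(E ⊗ ℂ)ˣ` -/
abbrev AA : Type := (E →+* ℂ) → ℂˣ

/-- `Eˣ → (E ⊗ ℂ)ˣ` -/
def em : Eˣ →* AA E where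
  toFun e τ := Units.map (τ : E →* ℂ) e
  map_one' := by
    funext τ
    exact map_one _
  map_mul' a b := by
    funext τ
    exact map_mul _ _ _

theorem AA_div (y : AA E) (k : ℕ) (hk : k ≠ 0) : ∃ x : AA E, x ^ k = y := by
  have h3 : ∀ τ : E →+* ℂ, ∃ z : ℂˣ, z ^ k = y τ := by
    intro τ
    obtain ⟨z, hz⟩ := IsAlgClosed.exists_pow_nat_eq (y τ : ℂ) (Nat.pos_of_ne_zero hk)
    have hz0 : z ≠ 0 := by
      rintro rfl
      rw [zero_pow hk] at hz
      exact (y τ).ne_zero hz.symm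
    refine ⟨Units.mk0 z hz0, Units.ext ?_⟩
    rw [Units.val_pow_eq_pow_val, Units.val_mk0, hz]
  choose z hz using h3
  exact ⟨z, funext hz⟩

end

/-- the character at `1` -/
theorem fx_one {K N : Type} [Field K] [NumberField K] [Field N] [NumberField N] [Algebra K N]
    [IsGalois K N] {F : Type} [Field F] [Algebra K F] (f : F →ₐ[K] N) :
    fx f.fieldRange.fixingSubgroup 1 = (Module.finrank K F : ℤ) := by
  have h1 : fx f.fieldRange.fixingSubgroup 1 = (f.fieldRange.fixingSubgroup.index : ℤ) := by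
    rw [fx, Subgroup.index]
    congr 1
    exact Nat.card_congr (Equiv.subtypeUnivEquiv fun c => one_smul _ c)
  have h2 : Module.finrank K F = Module.finrank K f.fieldRange :=
    (AlgEquiv.ofInjectiveField f).toLinearEquiv.finrank_eq
  have h3 := Module.finrank_mul_finrank K f.fieldRange N
  have h4 : Nat.card f.fieldRange.fixingSubgroup = Module.finrank f.fieldRange N :=
    IsGalois.card_fixingSubgroup_eq_finrank f.fieldRange
  have h5 : Nat.card Gal(N/K) = Module.finrank K N := IsGalois.card_aut_eq_finrank K N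
  have h6 := f.fieldRange.fixingSubgroup.card_mul_index
  rw [h4, h5, ← h3, mul_comm] at h6
  have h7 : 0 < Module.finrank f.fieldRange N := Module.finrank_pos
  rw [h1, h2]
  exact_mod_cast Nat.eq_of_mul_eq_mul_right h7 h6

end Pool.Agent.Run7.h184.TC
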