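import Pool.Agent.Run7.h184.TC.Add
import Pool.Agent.Run7.h184.TC.Cls

/-!
# Systems of vector spaces with Galois descent
-/

set_option autoImplicit false

namespace Pool.Agent.Run7.h184.TC

open NumberField
open scoped Classical
open Pool.Agent.R433.MD Pool.Agent.R333.BR

/-- A system of finite dimensional vector spaces over `ℚ`, one for each finite extension `F` of `K`,
functorial in `F`, with Galois descent: for `f : F → N` with `N / K` Galois, `obj F` is the space of the
elements of `obj N` fixed by the automorphisms of `N` which fix `f(F)`.  Examples: `A(F) ⊗ ℚ` for an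
abelian variety `A` over `K`, or the classes of cycles on a variety over `K` which are defined over `F`,
with rational coefficients. -/
structure GaloisModules (K : Type) [Field K] [NumberField K] where
  obj : Ext K → Type
  [grp : ∀ F, AddCommGroup (obj F)]
  [mod : ∀ F, Module ℚ (obj F)]
  map : ∀ {F F' : Ext K}, (F.F →ₐ[K] F'.F) → obj F →ₗ[ℚ] obj F'
  map_id : ∀ F : Ext K, map (AlgHom.id K F.F) = LinearMap.id
  map_comp : ∀ {F F' F'' : Ext K} (f : F.F →ₐ[K] F'.F) (g : F'.F →ₐ[K] F''.F),
    map (g.comp f) = (map g).comp (map f)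
  injective : ∀ {F F' : Ext K} (f : F.F →ₐ[K] F'.F), Function.Injective (map f)
  descent : ∀ {F N : Ext K} (f : F.F →ₐ[K] N.F), IsGalois K N.F → ∀ x : obj N,
    (∀ σ : N.F →ₐ[K] N.F, σ.comp f = f → map σ x = x) → ∃ y, map f y = x
  finite : ∀ F, FiniteDimensional ℚ (obj F)

attribute [instance] GaloisModules.grp GaloisModules.mod GaloisModules.finite

variable {K : Type} [Field K] [NumberField K]

/-- the dimension -/
noncomputable def GaloisModules.rank (D : GaloisModules K) (F : Ext K) : ℕ :=
  Module.finrank ℚ (D.obj F)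

/-- the representation -/
noncomputable def GaloisModules.rep (D : GaloisModules K) (N : Ext K) :
    Representation ℚ Gal(N.F/K) (D.obj N) where
  toFun σ := D.map (F := N) (F' := N) (σ : N.F →ₐ[K] N.F)
  map_one' := D.map_id N
  map_mul' σ τ := D.map_comp (F := N) (F' := N) (F'' := N) (τ : N.F →ₐ[K] N.F)
    (σ : N.F →ₐ[K] N.F)

theorem GaloisModules.range_map (D : GaloisModules K) {F N : Ext K} (f : F.F →ₐ[K] N.F)
    (hN : IsGalois K N.F) : LinearMap.range (D.map f) =
      Representation.invariants ((D.rep N).comp f.fieldRange.fixingSubgroup.subtype) := by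
  have hmem : ∀ σ : Gal(N.F/K), σ ∈ f.fieldRange.fixingSubgroup ↔
      (σ : N.F →ₐ[K] N.F).comp f = f := by
    intro σ
    rw [IntermediateField.mem_fixingSubgroup_iff]
    constructor
    · intro h
      exact AlgHom.ext fun y => h (f y) ⟨y, rfl⟩
    · rintro h _ ⟨y, rfl⟩
      exact AlgHom.congr_fun h y
  ext x
  rw [Representation.mem_invariants]
  constructor
  · rintro ⟨y, rfl⟩ ⟨σ, hσ⟩
    have h1 := (hmem σ).1 hσ
    change D.map (F := N) (F' := N) (σ : N.F →ₐ[K] N.F) (D.map f y) = D.map f y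
    have h2 := D.map_comp f (F'' := N) (σ : N.F →ₐ[K] N.F)
    rw [h1] at h2
    exact (LinearMap.congr_fun h2 y).symm
  · intro h
    refine D.descent f hN x fun σ hσ => ?_
    let σ' : Gal(N.F/K) := AlgEquiv.ofBijective σ (Algebra.IsAlgebraic.algHom_bijective σ)
    have h1 : σ' ∈ f.fieldRange.fixingSubgroup := (hmem σ').2 (AlgHom.ext fun y =>
      AlgHom.congr_fun hσ y)
    exact h ⟨σ', h1⟩

/-- the dimensions satisfy the relations -/
theorem GaloisModules.formal_rank (D : GaloisModules K) :
    Formal (K := K) fun F => (D.rank F : ℚ) := by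
  intro N _ _ _ _ ι _ Z f e he
  rcases isEmpty_or_nonempty ι with hem | hne
  · rw [Finset.univ_eq_empty, Finset.sum_empty]
  let N' : Ext K := ⟨N⟩
  have h1 : ∀ i, D.rank (Z i) = Module.finrank ℚ (Representation.invariants
      ((D.rep N').comp (f i).fieldRange.fixingSubgroup.subtype)) := by
    intro i
    rw [← D.range_map (N := N') (f i) ‹_›]
    exact (LinearMap.finrank_range_of_inj (D.injective _)).symm
  have h2 := (rel_inv (fun i => (f i).fieldRange.fixingSubgroup) e 0 (D.rep N')
    (fun g => he g) (fun i => inferInstance)).2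
  rw [zero_mul] at h2
  have h3 : ∑ i, e i * (D.rank (Z i) : ℤ) = 0 := by
    rw [h2]
    exact Finset.sum_congr rfl fun i _ => by rw [h1 i]
  have h4 := congrArg (Int.cast : ℤ → ℚ) h3
  push_cast at h4
  rw [← h4]
  refine Finset.sum_congr rfl fun i _ => ?_
  rw [zsmul_eq_mul]

/-- if `Ψ` vanishes on totally complex fields and on fields with spanning signatures -/
theorem abs_all {V : Type} [AddCommGroup V] [Module ℚ V] {Ψ : Ext K → V} (hΨ : Formal Ψ)
    (h0 : ∀ Z : Ext K, CycType K Z.F → Ψ Z = 0) {t : ℕ} (F : Fin t → Ext K)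
    (hspan : Submodule.span ℚ (Set.range fun (i : Fin t) (v : K →+* ℝ) =>
      (rr (F i).F v : ℚ)) = ⊤) (hF : ∀ i, Ψ (F i) = 0) (G : Ext K) : Ψ G = 0 := by
  obtain ⟨δ, hδ⟩ := abs_defect hΨ h0
  have key : ∀ x : (K →+* ℝ) → ℚ, ∑ v, x v • δ v = 0 := by
    intro x
    have hx : x ∈ Submodule.span ℚ (Set.range fun (i : Fin t) (v : K →+* ℝ) =>
        (rr (F i).F v : ℚ)) := by rw [hspan]; trivial
    induction hx using Submodule.span_induction with
    | mem x hx =>
      obtain ⟨i, rfl⟩ := hx
      rw [← hδ (F i), hF i]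
    | zero => simp
    | add x y _ _ hx hy =>
      simp only [Pi.add_apply, add_smul, Finset.sum_add_distrib]
      rw [hx, hy, add_zero]
    | smul c x _ hx =>
      simp only [Pi.smul_apply, smul_eq_mul, mul_smul]
      rw [← Finset.smul_sum, hx, smul_zero]
  rw [hδ G]
  exact key _

/-- fields with one real embedding -/
theorem uniq_defect {V : Type} [AddCommGroup V] [Module ℚ V] {Ψ : Ext K → V} (hΨ : Formal Ψ)
    (h0 : ∀ Z : Ext K, CycType K Z.F → Ψ Z = 0) (v0 : K →+* ℝ) (hv0 : ∀ v : K →+* ℝ, v = v0)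
    (G F₀ : Ext K) : (rr F₀.F v0 : ℚ) • Ψ G = (rr G.F v0 : ℚ) • Ψ F₀ := by
  obtain ⟨δ, hδ⟩ := abs_defect hΨ h0
  have h1 : ∀ F : Ext K, Ψ F = (rr F.F v0 : ℚ) • δ v0 := by
    intro F
    rw [hδ F, Fintype.sum_eq_single v0 fun v hv => absurd (hv0 v) hv]
  rw [h1 G, h1 F₀, smul_comm]

end Pool.Agent.Run7.h184.TC
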