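import Pool.Agent.Run7.h184.TC.Fin
import Pool.Agent.Run7.h184.TC.Desc

/-!
# Leading terms and an arbitrary formal predicted leading coefficient
-/

set_option autoImplicit false

namespace Pool.Agent.Run7.h184.TC

open NumberField IsDedekindDomain
open scoped Classical
open Pool.Agent.R433.MD Pool.Agent.R333.BR

section
variable {E : Type} [Field E] {b : ℝ} {U : Set ℂ} {m : ℂ} (hm : m ∈ U)

/-- the functions with the leading coefficient `x`, up to `Eˣ` -/
def M1 : Subgroup (LS E b × AA E) where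
  carrier := {p | ∃ (e : Eˣ) (n : (E →+* ℂ) → Multiplicative ℤ), (p.1, em E e * p.2, n) ∈ Gr E b hm}
  mul_mem' := by
    rintro p q ⟨e, n, h⟩ ⟨e', n', h'⟩
    refine ⟨e * e', n * n', ?_⟩
    have h1 := (Gr E b hm).mul_mem h h'
    rw [Prod.mk_mul_mk, Prod.mk_mul_mk, mul_mul_mul_comm] at h1
    rw [map_mul]
    exact h1
  one_mem' := ⟨1, 1, by
    rw [map_one, one_mul]
    exact (Gr E b hm).one_mem⟩
  inv_mem' := by
    rintro p ⟨e, n, h⟩
    refine ⟨e⁻¹, n⁻¹, ?_⟩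
    have h1 := (Gr E b hm).inv_mem h
    rw [Prod.inv_mk, Prod.inv_mk, mul_inv] at h1
    rw [map_inv]
    exact h1

theorem cl_M1 (g : LS E b) (x : AA E) : cl (M1 hm) (g, x) = 0 ↔
    ∃ (k : ℕ) (e : Eˣ) (n : (E →+* ℂ) → Multiplicative ℤ), k ≠ 0 ∧
      (g ^ k, em E e * x ^ k, n) ∈ Gr E b hm := by
  rw [cl_eq_zero]
  constructor
  · rintro ⟨k, hk, e, n, h⟩
    exact ⟨k, e, n, hk, h⟩
  · rintro ⟨k, e, n, hk, h⟩
    exact ⟨k, hk, e, n, h⟩

variable {K : Type} [Field K] [NumberField K] {g : Ext K → LS E b} {R : Ext K → AA E}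

theorem formal_M1 (hg : Formal (K := K) fun F => cl (M0 E b hm) (g F))
    (hR : Formal (K := K) fun F => cl (em E).range (R F)) :
    Formal (K := K) fun F => cl (M1 hm) ((g F, R F) : LS E b × AA E) := by
  intro N _ _ _ _ ι _ Z f e he
  have h1 := hg N ι Z f e he
  have h2 := hR N ι Z f e he
  simp only [← cl_zpow] at h1 h2 ⊢
  rw [← cl_prod] at h1 h2 ⊢
  obtain ⟨k, hk, e1, hk1⟩ := (cl_eq_zero _).1 h1
  obtain ⟨k', hk', e2, hk2⟩ := (cl_eq_zero _).1 h2
  rw [cl_eq_zero]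
  refine ⟨k * k', mul_ne_zero hk hk', e1 ^ k' * (e2 ^ k)⁻¹, 1, ?_⟩
  have h3 := (Gr E b hm).pow_mem hk1 k'
  rw [Prod.pow_mk, Prod.pow_mk, one_pow, ← pow_mul, ← map_pow] at h3
  have h4 : (∏ i, ((g (Z i), R (Z i)) : LS E b × AA E) ^ e i) ^ (k * k') =
      ((∏ i, g (Z i) ^ e i) ^ (k * k'), (∏ i, R (Z i) ^ e i) ^ (k * k')) := by
    rw [Prod.ext_iff, Prod.pow_fst, Prod.pow_snd, Prod.fst_prod, Prod.snd_prod]
    exact ⟨rfl, rfl⟩
  rw [h4]
  have h5 : em E (e1 ^ k' * (e2 ^ k)⁻¹) * (∏ i, R (Z i) ^ e i) ^ (k * k') = em E (e1 ^ k') := by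
    rw [mul_comm k k', pow_mul, ← hk2, ← map_pow, ← map_mul, inv_mul_cancel_right]
  change ((∏ i, g (Z i) ^ e i) ^ (k * k'),
    em E (e1 ^ k' * (e2 ^ k)⁻¹) * (∏ i, R (Z i) ^ e i) ^ (k * k'), 1) ∈ Gr E b hm
  rw [h5]
  exact h3

/-- **The defects.** -/
theorem leading_general (hU : IsPreconnected U) (hH : ∀ s : ℂ, b < s.re → s ∈ U)
    (hΨ : Formal (K := K) fun F => cl (M1 hm) ((g F, R F) : LS E b × AA E))
    (hyp : ∀ Z : Ext K, CycType K Z.F → cl (M1 hm) ((g Z, R Z) : LS E b × AA E) = 0) :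
    ∃ δ : (K →+* ℝ) → AA E, ∀ (F : Ext K) (k : ℕ) (x : AA E)
      (n : (E →+* ℂ) → Multiplicative ℤ), k ≠ 0 → (g F ^ k, x, n) ∈ Gr E b hm →
        cl (em E).range x = cl (em E).range ((R F * ∏ v : K →+* ℝ, δ v ^ rr F.F v) ^ k) := by
  let V : Type := VQ (em E).range
  let Dom : Ext K → V → Prop := fun F z => ∃ (k : ℕ) (x : AA E)
    (n : (E →+* ℂ) → Multiplicative ℤ), k ≠ 0 ∧ (g F ^ k, x, n) ∈ Gr E b hm ∧
      z = (1 / (k : ℚ)) • cl (em E).range x - cl (em E).range (R F)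
  obtain ⟨δ, hδ⟩ := defect_of_rel (V := V) (Dom := Dom) (by
    intro t Z z a hz ha
    choose k x n hk hG hz' using hz
    have h1 := abs_rel hΨ hyp Z a ha
    simp only [← cl_zpow] at h1
    rw [← cl_prod] at h1
    obtain ⟨q, hq, e, n0, he⟩ := (cl_eq_zero _).1 h1
    have h4 : (∏ i, ((g (Z i), R (Z i)) : LS E b × AA E) ^ a i) ^ q =
        ((∏ i, g (Z i) ^ a i) ^ q, (∏ i, R (Z i) ^ a i) ^ q) := by
      rw [Prod.ext_iff, Prod.pow_fst, Prod.pow_snd, Prod.fst_prod, Prod.snd_prod]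
      exact ⟨rfl, rfl⟩
    rw [h4] at he
    have he : ((∏ i, g (Z i) ^ a i) ^ q, em E e * (∏ i, R (Z i) ^ a i) ^ q, n0) ∈ Gr E b hm := he
    let K0 : ℕ := ∏ i, k i
    let κ : Fin t → ℕ := fun i => ∏ j ∈ Finset.univ.erase i, k j
    have hκ : ∀ i, k i * κ i = K0 := fun i =>
      Finset.mul_prod_erase Finset.univ k (Finset.mem_univ i)
    have hK0 : K0 ≠ 0 := Finset.prod_ne_zero_iff.2 fun i _ => hk i
    have h2 : ((∏ i, g (Z i) ^ a i) ^ K0, ∏ i, x i ^ (a i * κ i), ∏ i, n i ^ (a i * κ i)) ∈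
        Gr E b hm := by
      have h3 := Subgroup.prod_mem (Gr E b hm) (t := Finset.univ)
        (f := fun i => ((g (Z i) ^ k i, x i, n i) :
          LS E b × AA E × ((E →+* ℂ) → Multiplicative ℤ)) ^ (a i * κ i)) fun i _ =>
        Subgroup.zpow_mem _ (hG i) _
      have h5 : (∏ i, ((g (Z i) ^ k i, x i, n i) :
          LS E b × AA E × ((E →+* ℂ) → Multiplicative ℤ)) ^ (a i * κ i)) =
          ((∏ i, g (Z i) ^ a i) ^ K0, ∏ i, x i ^ (a i * κ i), ∏ i, n i ^ (a i * κ i)) := by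
        refine Prod.ext ?_ (Prod.ext ?_ ?_)
        · rw [Prod.fst_prod]
          change (∏ i, (g (Z i) ^ k i) ^ (a i * κ i)) = (∏ i, g (Z i) ^ a i) ^ K0
          rw [← Finset.prod_pow]
          refine Finset.prod_congr rfl fun i _ => ?_
          rw [← zpow_natCast, ← zpow_mul, ← zpow_natCast, ← zpow_mul, ← hκ i]
          congr 1
          push_cast
          ring
        · rw [Prod.snd_prod, Prod.fst_prod]
          rfl
        · rw [Prod.snd_prod, Prod.snd_prod]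
          rfl
      rw [h5] at h3
      exact h3
    have h5 := Subgroup.pow_mem _ h2 q
    have h6 := Subgroup.pow_mem _ he K0
    rw [Prod.pow_mk, Prod.pow_mk] at h5 h6
    rw [← pow_mul, mul_comm, pow_mul] at h5
    obtain ⟨h7, -⟩ := Gr_unique E b hU hH hm h5 h6
    have hq' : ((q : ℕ) : ℚ) ≠ 0 := Nat.cast_ne_zero.2 hq
    have hK0' : ((K0 : ℕ) : ℚ) ≠ 0 := Nat.cast_ne_zero.2 hK0
    have hk' : ∀ i, ((k i : ℕ) : ℚ) ≠ 0 := fun i => Nat.cast_ne_zero.2 (hk i)
    have hκ' : ∀ i, (κ i : ℚ) = (K0 : ℚ) / k i := fun i => by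
      rw [← hκ i]
      push_cast
      field_simp [hk' i]
    have h9 : ∑ i, (a i : ℚ) • (((κ i : ℕ) : ℚ) • cl (em E).range (x i)) =
        (K0 : ℚ) • ∑ i, (a i : ℚ) • cl (em E).range (R (Z i)) := by
      have h10 := congrArg (cl (em E).range) h7
      rw [cl_pow, cl_pow, cl_mul, cl_mem (em E).range ⟨e, rfl⟩, zero_add, cl_pow, cl_prod,
        cl_prod] at h10
      simp only [cl_zpow] at h10
      have h11 : (q : ℚ) • (∑ i, (a i : ℚ) • (((κ i : ℕ) : ℚ) • cl (em E).range (x i))) =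
          (q : ℚ) • ((K0 : ℚ) • ∑ i, (a i : ℚ) • cl (em E).range (R (Z i))) := by
        rw [smul_comm (q : ℚ) (K0 : ℚ)]
        rw [Nat.cast_smul_eq_nsmul, Nat.cast_smul_eq_nsmul, Nat.cast_smul_eq_nsmul]
        simp only [Int.cast_smul_eq_zsmul]
        rw [← h10]
        congr 1
        refine Finset.sum_congr rfl fun i _ => ?_
        rw [mul_smul, Nat.cast_smul_eq_nsmul, natCast_zsmul]
      exact smul_right_injective _ hq' h11
    have h17 : ∀ i, a i • z i = (1 / (K0 : ℚ)) • ((a i : ℚ) • (((κ i : ℕ) : ℚ) •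
        cl (em E).range (x i))) - (a i : ℚ) • cl (em E).range (R (Z i)) := fun i => by
      rw [hz' i, ← Int.cast_smul_eq_zsmul ℚ, smul_sub, smul_smul, smul_smul, smul_smul, hκ' i]
      congr 2
      field_simp [hk' i, hK0']
    rw [Finset.sum_congr rfl fun i _ => h17 i, Finset.sum_sub_distrib, ← Finset.smul_sum, h9,
      smul_smul, one_div, inv_mul_cancel₀ hK0', one_smul, sub_self])
  choose u hu using fun v => cl_surj (em E).range (AA_div E) (δ v)
  refine ⟨u, fun F k x n hk hG => ?_⟩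
  have h1 := hδ F _ ⟨k, x, n, hk, hG, rfl⟩
  have hk' : ((k : ℕ) : ℚ) ≠ 0 := Nat.cast_ne_zero.2 hk
  rw [sub_eq_iff_eq_add] at h1
  have h4 : cl (em E).range x = (k : ℚ) • ((∑ v : K →+* ℝ, (rr F.F v : ℚ) • δ v) +
      cl (em E).range (R F)) := by
    rw [← h1, smul_smul, mul_one_div_cancel hk', one_smul]
  rw [h4, cl_pow, cl_mul, cl_prod, Nat.cast_smul_eq_nsmul, add_comm]
  congr 2
  refine Finset.sum_congr rfl fun v _ => ?_
  rw [cl_pow, hu v, Nat.cast_smul_eq_nsmul]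

end

/-- every field is contained in a totally complex one -/
theorem exists_complex {K : Type} [Field K] [NumberField K] (F : Ext K) :
    ∃ N : Ext K, IsGalois K N.F ∧ CycType K N.F ∧ Nonempty (F.F →ₐ[K] N.F) := by
  obtain ⟨L, _, _, _, _, hf0⟩ := exists_gal (fun _ : Unit => F)
  obtain ⟨N, _, _, _, _, _, _, hN⟩ := exists_sqrt K L {-1}
  obtain ⟨y, hy⟩ := hN (-1) (Finset.mem_singleton_self _)
  have h1 : CycType K N := by
    refine ⟨⟨fun ρ => ?_⟩, N, inferInstance, inferInstance, inferInstance, inferInstance,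
      inferInstance, inferInstance, ?_⟩
    · have h2 := congrArg ρ hy
      rw [map_pow, map_neg, map_one, map_neg, map_one] at h2
      nlinarith [sq_nonneg (ρ y)]
    · have : Subsingleton Gal(N/N) := ⟨fun a b => AlgEquiv.ext fun x => by
        have ha : a x = x := a.commutes x
        have hb : b x = x := b.commutes x
        rw [ha, hb]⟩
      exact isCyclic_of_subsingleton
  exact ⟨⟨N⟩, inferInstance, h1, ⟨(IsScalarTower.toAlgHom K L N).comp (hf0 ()).some⟩⟩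

end Pool.Agent.Run7.h184.TC
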