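import Pool.Agent.Run7.h184.TC.Rel

/-!
# Functions of number fields with Artin formalism that vanish on totally complex fields
-/

set_option autoImplicit false

namespace Pool.Agent.Run7.h184.TC

open NumberField
open scoped Classical
open Pool.Agent.R433.MD

section
variable {K : Type} [Field K] [NumberField K] {V : Type} [AddCommGroup V] [Module ℚ V]

/-- `Ψ` satisfies the relations of the permutation characters -/
def Formal (Ψ : Ext K → V) : Prop :=
  ∀ (N : Type) [Field N] [NumberField N] [Algebra K N] [IsGalois K N] (ι : Type) [Fintype ι]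
    (Z : ι → Ext K) (f : ∀ i, (Z i).F →ₐ[K] N) (e : ι → ℤ),
    (∀ g : Gal(N/K), ∑ i, e i * fx (f i).fieldRange.fixingSubgroup g = 0) →
    ∑ i, e i • Ψ (Z i) = 0

/-- **The relations.** -/
theorem abs_rel {Ψ : Ext K → V} (hΨ : Formal Ψ) (h0 : ∀ Z : Ext K, CycType K Z.F → Ψ Z = 0)
    {ι : Type} [Fintype ι] (Z : ι → Ext K) (a : ι → ℤ)
    (h : ∀ v : K →+* ℝ, ∑ i, a i * (rr (Z i).F v : ℤ) = 0) : ∑ i, a i • Ψ (Z i) = 0 := by
  obtain ⟨N, _, _, _, _, f, m, q, Y, g, n, hm0, hY, hrel⟩ := relation Z a h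
  let X : ι ⊕ Fin q → Ext K := Sum.elim Z Y
  let fX : ∀ i, (X i).F →ₐ[K] N := fun i =>
    match i with
    | Sum.inl i => f i
    | Sum.inr j => g j
  let e : ι ⊕ Fin q → ℤ := Sum.elim (fun i => m * a i) (fun j => - n j)
  have hfx : ∀ σ : Gal(N/K), ∑ i, e i * fx (fX i).fieldRange.fixingSubgroup σ = 0 := by
    intro σ
    rw [Fintype.sum_sum_type]
    have h2 := hrel σ
    change ∑ i, (m * a i) * fx (f i).fieldRange.fixingSubgroup σ +
      ∑ j, (- n j) * fx (g j).fieldRange.fixingSubgroup σ = _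
    rw [Finset.mul_sum] at h2
    simp only [mul_assoc, neg_mul, Finset.sum_neg_distrib]
    rw [h2, add_neg_cancel]
  have h1 := hΨ N (ι ⊕ Fin q) X fX e hfx
  rw [Fintype.sum_sum_type] at h1
  have h2 : ∑ i, ((m : ℤ) * a i) • Ψ (Z i) + ∑ j, (- n j) • Ψ (Y j) = 0 := h1
  have h3 : ∑ j, (- n j) • Ψ (Y j) = 0 := Finset.sum_eq_zero fun j _ => by
    rw [h0 _ (hY j), smul_zero]
  rw [h3, add_zero] at h2
  simp only [mul_smul] at h2
  rw [← Finset.smul_sum] at h2
  have h4 : ((m : ℤ) : ℚ) • ∑ i, a i • Ψ (Z i) = 0 := by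
    rw [Int.cast_smul_eq_zsmul]
    exact h2
  exact (smul_eq_zero.1 h4).resolve_left (by exact_mod_cast hm0)

/-- **The values at the real places.** -/
theorem defect_of_rel {Dom : Ext K → V → Prop}
    (hrel : ∀ (n : ℕ) (Z : Fin n → Ext K) (x : Fin n → V) (a : Fin n → ℤ),
      (∀ i, Dom (Z i) (x i)) → (∀ v : K →+* ℝ, ∑ i, a i * (rr (Z i).F v : ℤ) = 0) →
      ∑ i, a i • x i = 0) :
    ∃ δ : (K →+* ℝ) → V, ∀ (F : Ext K) (x : V), Dom F x →
      x = ∑ v : K →+* ℝ, (rr F.F v : ℚ) • δ v := by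
  let W : Type := (K →+* ℝ) → ℚ
  let S : Set (W × V) := {p | ∃ (F : Ext K) (x : V), Dom F x ∧ p = ((fun v => (rr F.F v : ℚ)), x)}
  let P : Submodule ℚ (W × V) := Submodule.span ℚ S
  let π : P →ₗ[ℚ] W := (LinearMap.fst ℚ W V).comp P.subtype
  have hπ : LinearMap.ker π = ⊥ := by
    rw [LinearMap.ker_eq_bot']
    rintro ⟨p, hp⟩ h0'
    have h0' : p.1 = 0 := h0'
    obtain ⟨n, c, g, hg⟩ := (Submodule.mem_span_set').1 hp
    choose F x hx hgi using fun i => (g i).2
    let D : ℕ := ∏ j, (c j).den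
    let a : Fin n → ℤ := fun i => (c i).num * ((∏ j ∈ Finset.univ.erase i, (c j).den : ℕ) : ℤ)
    have hD : (D : ℚ) ≠ 0 := Nat.cast_ne_zero.2 (Finset.prod_ne_zero_iff.2 fun i _ => (c i).den_nz)
    have ha : ∀ i, (a i : ℚ) = (D : ℚ) * c i := by
      intro i
      have h2 : (c i).den * ∏ j ∈ Finset.univ.erase i, (c j).den = D :=
        Finset.mul_prod_erase Finset.univ (fun j => (c j).den) (Finset.mem_univ i)
      have h3 : (c i).num = c i * ((c i).den : ℚ) := (Rat.mul_den_eq_num (c i)).symm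
      change (((c i).num * ((∏ j ∈ Finset.univ.erase i, (c j).den : ℕ) : ℤ) : ℤ) : ℚ) = _
      rw [← h2, Int.cast_mul, h3]
      push_cast
      ring
    have h2 : ∀ v : K →+* ℝ, ∑ i, c i * (rr (F i).F v : ℚ) = 0 := by
      intro v
      have h3 : (∑ i, c i • ((g i : S) : W × V)).1 v = 0 := by rw [hg, h0']; rfl
      rw [← h3, Prod.fst_sum, Finset.sum_apply]
      refine Finset.sum_congr rfl fun i _ => ?_
      rw [hgi i]
      rfl
    have h3 : ∀ v : K →+* ℝ, ∑ i, a i * (rr (F i).F v : ℤ) = 0 := by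
      intro v
      have h4 : ((∑ i, a i * (rr (F i).F v : ℤ) : ℤ) : ℚ) = 0 := by
        push_cast
        simp only [ha, mul_assoc]
        rw [← Finset.mul_sum, h2 v, mul_zero]
      exact_mod_cast h4
    have h4 := hrel n F x a hx h3
    have h5 : ∑ i, (D : ℚ) • (c i • x i) = 0 := by
      rw [← h4]
      refine Finset.sum_congr rfl fun i _ => ?_
      rw [smul_smul, ← ha i, Int.cast_smul_eq_zsmul]
    rw [← Finset.smul_sum] at h5
    have h6 := (smul_eq_zero.1 h5).resolve_left hD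
    have h7 : p.2 = 0 := by
      rw [← hg, Prod.snd_sum, ← h6]
      refine Finset.sum_congr rfl fun i _ => ?_
      rw [hgi i]
      rfl
    exact Subtype.ext (Prod.ext h0' h7)
  obtain ⟨g, hg⟩ := LinearMap.exists_leftInverse_of_injective π hπ
  refine ⟨fun v => (g (Pi.single v 1)).1.2, fun F y hy => ?_⟩
  let x : W := fun v => (rr F.F v : ℚ)
  let q : P := ⟨(x, y), Submodule.subset_span ⟨F, y, hy, rfl⟩⟩
  have h2 : g x = q := by
    have h3 : g (π q) = q := LinearMap.congr_fun hg q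
    exact h3
  have h4 : x = ∑ v, (rr F.F v : ℚ) • (Pi.single v 1 : W) := by
    funext u
    rw [Finset.sum_apply]
    simp [Pi.single_apply, x]
  have h5 : (g x).1.2 = ∑ v, (rr F.F v : ℚ) • (g (Pi.single v 1)).1.2 := by
    rw [h4, map_sum, ← Submodule.coe_subtype, map_sum, Prod.snd_sum]
    refine Finset.sum_congr rfl fun v _ => ?_
    rw [map_smul]
    rfl
  rw [h2] at h5
  exact h5

theorem abs_defect {Ψ : Ext K → V} (hΨ : Formal Ψ) (h0 : ∀ Z : Ext K, CycType K Z.F → Ψ Z = 0) :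
    ∃ δ : (K →+* ℝ) → V, ∀ F : Ext K, Ψ F = ∑ v : K →+* ℝ, (rr F.F v : ℚ) • δ v := by
  obtain ⟨δ, hδ⟩ := defect_of_rel (Dom := fun F x => x = Ψ F) fun n Z x a hx ha => by
    rw [← abs_rel hΨ h0 Z a ha]
    exact Finset.sum_congr rfl fun i _ => by rw [hx i]
  exact ⟨δ, fun F => hδ F _ rfl⟩

end

end Pool.Agent.Run7.h184.TC
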