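import Pool.Agent.Run7.h184.TC.Val

/-!
# Relations between sums over the places
-/

set_option autoImplicit false

namespace Pool.Agent.Run7.h184.TC

open NumberField IsDedekindDomain
open Pool.Agent.R433.MD Pool.Agent.R333.BR Pool.Agent.H341R2.EC

theorem comb_add {ι : Type} [Fintype ι] (T : ι → Type) [∀ i, Fintype (T i)] (d : ∀ i, T i → ℕ)
    (hd : ∀ i t, 0 < d i t) (a b : ι → ℕ)
    (h : ∀ m, 0 < m → ∑ i, a i * ∑ t, (if d i t ∣ m then d i t else 0) =
      ∑ i, b i * ∑ t, (if d i t ∣ m then d i t else 0)) {M : Type} [AddCommGroup M] (g : ℕ → M) :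
    ∑ i, a i • (∑ t, g (d i t)) = ∑ i, b i • (∑ t, g (d i t)) := by
  classical
  open Finset in
  let c : ι → ℕ → ℕ := fun i f => (univ.filter fun t => d i t = f).card
  have h1 : ∀ (e : ι → ℕ) (m : ℕ), 0 < m →
      ∑ i, e i * ∑ t, (if d i t ∣ m then d i t else 0) =
        ∑ f ∈ m.divisors, f * ∑ i, e i * c i f := by
    intro e m hm
    have h2 : ∀ i, ∑ t, (if d i t ∣ m then d i t else 0) = ∑ f ∈ m.divisors, f * c i f := by
      intro i
      have h3 : ∀ t, (if d i t ∣ m then d i t else 0) =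
          ∑ f ∈ m.divisors, if d i t = f then f else 0 := by
        intro t
        rw [Finset.sum_ite_eq]
        simp only [Nat.mem_divisors]
        by_cases h4 : d i t ∣ m
        · rw [if_pos h4, if_pos ⟨h4, hm.ne'⟩]
        · rw [if_neg h4, if_neg (fun h5 => h4 h5.1)]
      simp_rw [h3]
      rw [Finset.sum_comm]
      refine Finset.sum_congr rfl fun f _ => ?_
      rw [← Finset.sum_filter, Finset.sum_const, smul_eq_mul, mul_comm]
    simp_rw [h2, Finset.mul_sum]
    rw [Finset.sum_comm]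
    refine Finset.sum_congr rfl fun f _ => Finset.sum_congr rfl fun i _ => ?_
    ring
  have h5 := eq_of_divisor_sums (A := fun f => ∑ i, a i * c i f) (B := fun f => ∑ i, b i * c i f)
    (fun k hk => by
      have := h k hk
      rwa [h1 a k hk, h1 b k hk] at this)
  let S : Finset ℕ := Finset.univ.biUnion fun i => Finset.univ.image (d i)
  have hS : ∀ i t, d i t ∈ S := fun i t =>
    Finset.mem_biUnion.2 ⟨i, Finset.mem_univ _, Finset.mem_image.2 ⟨t, Finset.mem_univ _, rfl⟩⟩
  have h6 : ∀ e : ι → ℕ, ∑ i, e i • (∑ t, g (d i t)) = ∑ f ∈ S, (∑ i, e i * c i f) • g f := by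
    intro e
    have h7 : ∀ i, ∑ t, g (d i t) = ∑ f ∈ S, c i f • g f := by
      intro i
      rw [← Finset.sum_fiberwise_of_maps_to (s := Finset.univ) (t := S) (g := d i)
        (fun t _ => hS i t)]
      refine Finset.sum_congr rfl fun f _ => ?_
      rw [Finset.sum_congr rfl (g := fun _ => g f) (fun t ht => by rw [(Finset.mem_filter.1 ht).2]),
        Finset.sum_const]
    simp_rw [h7, Finset.smul_sum]
    rw [Finset.sum_comm]
    refine Finset.sum_congr rfl fun f _ => ?_
    rw [Finset.sum_smul]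
    refine Finset.sum_congr rfl fun i _ => ?_
    rw [smul_smul]
  rw [h6 a, h6 b]
  refine Finset.sum_congr rfl fun f hf => ?_
  obtain ⟨i, -, hi⟩ := Finset.mem_biUnion.1 hf
  obtain ⟨t, -, ht⟩ := Finset.mem_image.1 hi
  rw [h5 f (ht ▸ hd i t)]

section
variable {K : Type} [Field K] [NumberField K]

theorem hasSum_fib {M : Type} [NormedAddCommGroup M] {F : Type} [Field F] [NumberField F]
    [Algebra K F] {f : HeightOneSpectrum (𝓞 F) → M} {a : M} (h : HasSum f a) :
    HasSum (fun v : HeightOneSpectrum (𝓞 K) => ∑ w : Fib F v, f w.1) a := by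
  have h1 := (Equiv.sigmaFiberEquiv
    (und (K := K) : HeightOneSpectrum (𝓞 F) → HeightOneSpectrum (𝓞 K))).hasSum_iff.2 h
  refine HasSum.sigma h1 fun v => ?_
  exact hasSum_fintype _

/-- **Relations between sums over the places.** -/
theorem add_rel {N : Type} [Field N] [NumberField N] [Algebra K N]
    [IsGalois K N] {ι : Type} [Fintype ι] (Z : ι → Ext K) (f : ∀ i, (Z i).F →ₐ[K] N) (e : ι → ℤ)
    (h : ∀ g : Gal(N/K), ∑ i, e i * fx (f i).fieldRange.fixingSubgroup g = 0) :
    ∃ S : Finset (HeightOneSpectrum (𝓞 K)), (∀ v ∉ S, ∀ (M : Type) [AddCommGroup M] (g : ℕ → M),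
      ∑ i, e i • (∑ w : Fib (Z i).F v, g (fdeg w)) = 0) ∧
      ∀ (M : Type) [NormedAddCommGroup M] (G : HeightOneSpectrum (𝓞 K) → ℕ → M) (L : ι → M),
        (∀ i, HasSum (fun w : HeightOneSpectrum (𝓞 (Z i).F) => loc G w) (L i)) →
        ∑ i, e i • L i = ∑ v ∈ S, ∑ i, e i • (∑ w : Fib (Z i).F v, G v (fdeg w)) := by
  classical
  obtain ⟨D, hD0, hD⟩ := frob_count K N
  have hbad : {v : HeightOneSpectrum (𝓞 K) | D ∈ v.asIdeal}.Finite := finite_mem hD0
  set S := hbad.toFinset with hS
  let a : ι → ℕ := fun i => (e i).toNat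
  let b : ι → ℕ := fun i => (- e i).toNat
  have hcount : ∀ (k : Type) [Field k] [Finite k] (φ : 𝓞 K →+* k), φ D ≠ 0 →
      ∑ i, a i * nh (Z i).F φ = ∑ i, b i * nh (Z i).F φ := by
    intro k _ _ φ hφ
    obtain ⟨g, hg⟩ := hD k φ hφ
    have h4 : ∀ i : ι, nh (Z i).F φ =
        Nat.card {c : Gal(N/K) ⧸ (f i).fieldRange.fixingSubgroup // g • c = c} := fun i => by
      rw [← hg (f i).fieldRange]
      exact nh_congr (AlgEquiv.ofInjectiveField (f i)) φ
    simp only [h4]
    have h5 := h g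
    have h6 : ((∑ i, (e i).toNat * Nat.card {c : Gal(N/K) ⧸ (f i).fieldRange.fixingSubgroup //
        g • c = c} : ℕ) : ℤ) = ((∑ i, (-e i).toNat *
        Nat.card {c : Gal(N/K) ⧸ (f i).fieldRange.fixingSubgroup // g • c = c} : ℕ) : ℤ) := by
      push_cast
      rw [← sub_eq_zero, ← h5, ← Finset.sum_sub_distrib]
      refine Finset.sum_congr rfl fun i _ => ?_
      have h7 := Int.toNat_sub_toNat_neg (e i)
      rw [fx]
      linear_combination (Nat.card {c : Gal(N/K) ⧸ (f i).fieldRange.fixingSubgroup //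
        g • c = c} : ℤ) * h7
    exact_mod_cast h6
  have hgood : ∀ v ∉ S, ∀ (M : Type) [AddCommGroup M] (g : ℕ → M),
      ∑ i, e i • (∑ w : Fib (Z i).F v, g (fdeg w)) = 0 := by
    intro v hv M _ g
    have hvD : D ∉ v.asIdeal := fun h => hv (hbad.mem_toFinset.2 h)
    have h1 := comb_add (fun i => Fib (Z i).F v) (fun i w => fdeg w) (fun i w => fdeg_pos w) a b
      (by
        intro m hm
        obtain ⟨k, iF, iFin, iA, hk⟩ := exists_ext (𝓞 K ⧸ v.asIdeal) hm
        have h1 := hcount k (base v k) (by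
          rw [base, RingHom.comp_apply]
          intro h
          rw [map_eq_zero_iff _ (algebraMap (𝓞 K ⧸ v.asIdeal) k).injective,
            Ideal.Quotient.eq_zero_iff_mem] at h
          exact hvD h)
        simp only [nh_eq, hk] at h1
        exact h1) g
    have h2 : ∀ i, e i • (∑ w : Fib (Z i).F v, g (fdeg w)) =
        a i • (∑ w : Fib (Z i).F v, g (fdeg w)) - b i • (∑ w : Fib (Z i).F v, g (fdeg w)) := by
      intro i
      rw [← natCast_zsmul, ← natCast_zsmul, ← sub_smul]
      congr 1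
      exact (Int.toNat_sub_toNat_neg (e i)).symm
    rw [Finset.sum_congr rfl fun i _ => h2 i, Finset.sum_sub_distrib, h1, sub_self]
  refine ⟨S, hgood, fun M _ G L hL => ?_⟩
  have h1 : HasSum (fun v : HeightOneSpectrum (𝓞 K) =>
      ∑ i, e i • (∑ w : Fib (Z i).F v, G v (fdeg w))) (∑ i, e i • L i) := by
    refine hasSum_sum fun i _ => ?_
    refine (((hasSum_fib (K := K) (hL i)).congr_fun fun v => ?_)).const_smul (e i)
    refine Finset.sum_congr rfl fun w _ => ?_
    obtain ⟨w, rfl⟩ := w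
    rfl
  exact h1.unique (hasSum_sum_of_ne_finset_zero fun v hv => hgood v hv M (G v))

end

end Pool.Agent.Run7.h184.TC
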