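import Pool.Agent.Run7.h184.TC.Val

/-!
# Convergence of the Euler products
-/

set_option autoImplicit false

namespace Pool.Agent.Run7.h184.TC

open NumberField IsDedekindDomain Polynomial
open Pool.Agent.R433.MD Pool.Agent.R333.BR
open Pool.Agent.H921R2.TatePole (nm two_le_nm nm_summable)

/-- the determinant of a polynomial in a matrix -/
theorem det_aeval {d : ℕ} (A : Matrix (Fin d) (Fin d) ℂ) (g : ℂ[X]) :
    (aeval A g).det = (A.charpoly.roots.map fun α => g.eval α).prod := by
  have hcard : A.charpoly.roots.card = d := by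
    rw [← (IsAlgClosed.splits A.charpoly).natDegree_eq_card_roots,
      Matrix.charpoly_natDegree_eq_dim, Fintype.card_fin]
  have hmul : ∀ g h : ℂ[X], (aeval A g).det = (A.charpoly.roots.map fun α => g.eval α).prod →
      (aeval A h).det = (A.charpoly.roots.map fun α => h.eval α).prod →
      (aeval A (g * h)).det = (A.charpoly.roots.map fun α => (g * h).eval α).prod := by
    intro g h hg hh
    rw [map_mul, Matrix.det_mul, hg, hh, ← Multiset.prod_map_mul]
    simp only [eval_mul]
  have hC : ∀ a : ℂ, (aeval A (C a)).det = (A.charpoly.roots.map fun α => (C a).eval α).prod := by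
    intro a
    rw [aeval_C, Algebra.algebraMap_eq_smul_one, Matrix.det_smul, Matrix.det_one, mul_one]
    simp [hcard]
  have hX : ∀ β : ℂ, (aeval A (X - C β)).det =
      (A.charpoly.roots.map fun α => (X - C β).eval α).prod := by
    intro β
    have h1 : aeval A (X - C β) = - (Matrix.scalar (Fin d) β - A) := by
      rw [map_sub, aeval_X, aeval_C, neg_sub, Algebra.algebraMap_eq_smul_one]
      congr 1
      ext i j
      simp [Matrix.smul_apply, Matrix.one_apply, Matrix.diagonal_apply]
    have h2 : (Matrix.scalar (Fin d) β - A).det = A.charpoly.eval β := (Matrix.eval_charpoly A β).symm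
    have h3 : A.charpoly.eval β = (A.charpoly.roots.map fun α => (β - α)).prod := by
      conv_lhs => rw [(IsAlgClosed.splits A.charpoly).eq_prod_roots_of_monic A.charpoly_monic]
      rw [eval_multiset_prod, Multiset.map_map]
      simp
    have h4 : (-1 : ℂ) ^ d = (A.charpoly.roots.map fun _ => (-1 : ℂ)).prod := by
      rw [Multiset.map_const', Multiset.prod_replicate, hcard]
    rw [h1, Matrix.det_neg, h2, h3, Fintype.card_fin, h4, ← Multiset.prod_map_mul]
    congr 1
    refine Multiset.map_congr rfl fun α _ => ?_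
    simp
  rw [(IsAlgClosed.splits g).eq_prod_roots]
  refine hmul _ _ (hC _) ?_
  induction g.roots using Multiset.induction_on with
  | empty => simp
  | cons β s ih =>
    rw [Multiset.map_cons, Multiset.prod_cons]
    exact hmul _ _ (hX β) ih

theorem det_one_sub {d : ℕ} (A : Matrix (Fin d) (Fin d) ℂ) (x : ℂ) (n : ℕ) :
    (1 - x • A ^ n).det = (A.charpoly.roots.map fun α => 1 - x * α ^ n).prod := by
  have h := det_aeval A (1 - C x * X ^ n)
  have e : aeval A (1 - C x * X ^ n) = 1 - x • A ^ n := by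
    rw [map_sub, map_one, map_mul, aeval_C, map_pow, aeval_X, Algebra.algebraMap_eq_smul_one,
      smul_mul_assoc, one_mul]
  rw [← e, h]
  simp

/-- a product close to one -/
theorem prod_near_one (s : Multiset ℂ) {ε : ℝ} (h0 : 0 ≤ ε) (h1 : ε ≤ 1)
    (h : ∀ y ∈ s, ‖y‖ ≤ ε) : ‖(s.map fun y => 1 - y).prod - 1‖ ≤ (2 ^ s.card - 1) * ε := by
  induction s using Multiset.induction_on with
  | empty => simp
  | cons y s ih =>
    have hy := h y (Multiset.mem_cons_self y s)
    have hs := ih fun z hz => h z (Multiset.mem_cons_of_mem hz)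
    rw [Multiset.map_cons, Multiset.prod_cons, Multiset.card_cons]
    have e : (1 - y) * (s.map fun y => 1 - y).prod - 1 =
        (1 - y) * ((s.map fun y => 1 - y).prod - 1) - y := by ring
    rw [e]
    refine (norm_sub_le _ _).trans ?_
    rw [norm_mul]
    have h3 : ‖1 - y‖ ≤ 2 := by
      refine (norm_sub_le _ _).trans ?_
      rw [norm_one]
      linarith
    have h4 : ‖1 - y‖ * ‖(s.map fun y => 1 - y).prod - 1‖ ≤ 2 * ((2 ^ s.card - 1) * ε) := by
      exact mul_le_mul h3 hs (norm_nonneg _) (by norm_num)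
    rw [pow_succ]
    nlinarith

/-- **Convergence.** -/
theorem conv {F : Type} [Field F] [NumberField F] {d : ℕ} {σ : ℝ} (hσ : 1 < σ)
    (y : HeightOneSpectrum (𝓞 F) → Multiset ℂ) (hc : ∀ w, (y w).card ≤ d)
    (hy : ∀ w, ∀ z ∈ y w, ‖z‖ ≤ (nm w : ℝ) ^ (-σ)) :
    ∃ L : ℂ, L ≠ 0 ∧ HasProd (fun w => ((y w).map fun z => 1 - z).prod⁻¹) L := by
  have hq : ∀ w : HeightOneSpectrum (𝓞 F), (nm w : ℝ) ^ (-σ) < 1 := fun w => by
    have := two_le_nm w
    exact Real.rpow_lt_one_of_one_lt_of_neg (by exact_mod_cast (by omega : 1 < nm w)) (by linarith)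
  have hq0 : ∀ w : HeightOneSpectrum (𝓞 F), 0 ≤ (nm w : ℝ) ^ (-σ) := fun w => by positivity
  let P : HeightOneSpectrum (𝓞 F) → ℂ := fun w => ((y w).map fun z => 1 - z).prod
  have hP0 : ∀ w, P w ≠ 0 := by
    intro w h
    rw [Multiset.prod_eq_zero_iff, Multiset.mem_map] at h
    obtain ⟨z, hz, h1⟩ := h
    have h2 : z = 1 := (sub_eq_zero.1 h1).symm
    have h3 := (hy w z hz).trans_lt (hq w)
    rw [h2, norm_one] at h3
    exact lt_irrefl _ h3
  have hsum : Summable fun w => P w - 1 := by
    refine Summable.of_norm_bounded ((nm_summable hσ).mul_left (2 ^ d : ℝ)) fun w => ?_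
    have h1 := prod_near_one (y w) (hq0 w) (hq w).le (hy w)
    refine h1.trans ?_
    have h2 : (2 : ℝ) ^ (y w).card ≤ 2 ^ d := pow_le_pow_right₀ (by norm_num) (hc w)
    have h3 := hq0 w
    nlinarith
  have h1 := Complex.summable_log_one_add_of_summable hsum
  have h2 := h1.neg.hasSum.cexp
  have h3 : (Complex.exp ∘ fun w => -Complex.log (1 + (P w - 1))) = fun w => (P w)⁻¹ := by
    funext w
    have h4 : (1 : ℂ) + (P w - 1) = P w := by ring
    rw [Function.comp_apply, h4, Complex.exp_neg, Complex.exp_log (hP0 w)]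
  rw [h3] at h2
  exact ⟨_, Complex.exp_ne_zero _, h2⟩

end Pool.Agent.Run7.h184.TC
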