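import Mathlib

/-!
# Number fields in which the complex conjugations are separated from the other elements
-/

set_option autoImplicit false

namespace Pool.Agent.Run7.h184.TC

open NumberField

/-- adjoining square roots -/
theorem exists_sqrt (K L : Type) [Field K] [NumberField K] [Field L] [NumberField L] [Algebra K L]
    (S : Finset L) :
    ∃ (N : Type) (_ : Field N) (_ : NumberField N) (_ : Algebra K N) (_ : Algebra L N)
      (_ : IsScalarTower K L N), IsGalois K N ∧ ∀ s ∈ S, ∃ y : N, y ^ 2 = algebraMap L N s := by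
  classical
  let P : Polynomial L := ∏ s ∈ S, (Polynomial.X ^ 2 - Polynomial.C s)
  let M : Type := Polynomial.SplittingField P
  have : FiniteDimensional L M := inferInstance
  have : CharZero M := charZero_of_injective_algebraMap (algebraMap L M).injective
  let _ : Algebra K M := inferInstance
  have : IsScalarTower K L M := inferInstance
  have : FiniteDimensional K L := Module.Finite.of_restrictScalars_finite ℚ K L
  have : FiniteDimensional K M := Module.Finite.trans L M
  let Ω : Type := AlgebraicClosure M
  let N : IntermediateField K Ω := IntermediateField.normalClosure K M Ω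
  have : FiniteDimensional K N := inferInstance
  have hN : NumberField N := by
    have : FiniteDimensional ℚ N := Module.Finite.trans K N
    exact ⟨⟩
  let _ : Algebra M N := normalClosure.algebra K M Ω
  have : IsScalarTower K M N :=
    normalClosure.instIsScalarTowerSubtypeMemIntermediateFieldNormalClosure K M Ω
  let aLN : Algebra L N := ((algebraMap M N).comp (algebraMap L M)).toAlgebra
  have htow : IsScalarTower K L N := IsScalarTower.of_algebraMap_eq fun x => by
    change algebraMap K N x = algebraMap M N (algebraMap L M (algebraMap K L x))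
    rw [← IsScalarTower.algebraMap_apply K L M, ← IsScalarTower.algebraMap_apply K M N]
  have hnorm : Normal K N := by
    have h1 : Algebra.IsAlgebraic K Ω := Algebra.IsAlgebraic.trans K M Ω
    have h2 : IsAlgClosure K Ω := ⟨inferInstance, h1⟩
    have h3 : Normal K Ω := IsAlgClosure.normal K Ω
    exact normalClosure.normal K M Ω
  refine ⟨N, inferInstance, hN, inferInstance, aLN, htow, ⟨⟩, fun s hs => ?_⟩
  have hsp : ((Polynomial.X ^ 2 - Polynomial.C s).map (algebraMap L M)).Splits := by
    have h1 : (P.map (algebraMap L M)).Splits := Polynomial.SplittingField.splits P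
    refine h1.of_dvd ?_ ?_
    · refine (Polynomial.map_ne_zero_iff (algebraMap L M).injective).2 ?_
      exact Finset.prod_ne_zero_iff.2 fun t _ => Polynomial.X_pow_sub_C_ne_zero two_pos t
    · exact Polynomial.map_dvd _ (Finset.dvd_prod_of_mem _ hs)
  obtain ⟨y, hy⟩ := hsp.exists_eval_eq_zero (by
    rw [Polynomial.degree_map, Polynomial.degree_X_pow_sub_C two_pos]
    norm_num)
  refine ⟨algebraMap M N y, ?_⟩
  have h2 : y ^ 2 = algebraMap L M s := by
    rw [Polynomial.eval_map_algebraMap] at hy
    simpa [sub_eq_zero] using hy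
  change _ = algebraMap M N (algebraMap L M s)
  rw [← map_pow, h2]

/-- a number is separated from its conjugate by a rational number -/
theorem exists_sep {L : Type} [Field L] [NumberField L] (ψ : L →+* ℂ) (x x' : L) :
    ∃ s : L, (∃ q : ℚ, s = x - (q : L) ∨ s = (q : L) - x) ∧
      ∀ f : L →+* L, f x = x' → (ψ x).re ≠ (ψ x').re → 0 < (ψ s).re ∧ (ψ (f s)).re < 0 := by
  rcases lt_trichotomy (ψ x).re (ψ x').re with h | h | h
  · obtain ⟨q, h1, h2⟩ := exists_rat_btwn h
    refine ⟨(q : L) - x, ⟨q, Or.inr rfl⟩, fun f hf _ => ⟨?_, ?_⟩⟩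
    · rw [map_sub, map_ratCast, Complex.sub_re, Complex.ratCast_re]
      linarith
    · rw [map_sub, hf, map_ratCast, map_sub, map_ratCast, Complex.sub_re, Complex.ratCast_re]
      linarith
  · exact ⟨x - ((0 : ℚ) : L), ⟨0, Or.inl rfl⟩, fun f _ h' => absurd h h'⟩
  · obtain ⟨q, h1, h2⟩ := exists_rat_btwn h
    refine ⟨x - (q : L), ⟨q, Or.inl rfl⟩, fun f hf _ => ⟨?_, ?_⟩⟩
    · rw [map_sub, map_ratCast, Complex.sub_re, Complex.ratCast_re]
      linarith
    · rw [map_sub, hf, map_ratCast, map_sub, map_ratCast, Complex.sub_re, Complex.ratCast_re]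
      linarith

/-- the square roots of the numbers positive at a complex conjugation -/
theorem sqrt_fixed {K N : Type} [Field K] [Field N] [Algebra K N] {φ : N →+* ℂ}
    {c : Gal(N/K)} (hc : ComplexEmbedding.IsConj φ c) {s y : N} (hs : c s = s)
    (hpos : 0 < (φ s).re) (hy : y ^ 2 = s) : c y = y := by
  have h1 : (c y - y) * (c y + y) = 0 := by
    have : c y ^ 2 = y ^ 2 := by rw [← map_pow, hy, hs]
    linear_combination this
  rcases mul_eq_zero.1 h1 with h | h
  · exact sub_eq_zero.1 h
  · exfalso
    have h2 : star (φ y) = - φ y := by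
      rw [← hc.eq, eq_neg_of_add_eq_zero_left h, map_neg]
    have h3 : (φ y).re = 0 := by
      have := congrArg Complex.re h2
      simp only [Complex.star_def, Complex.conj_re, Complex.neg_re] at this
      linarith
    rw [← hy, map_pow, sq, Complex.mul_re, h3] at hpos
    nlinarith [mul_self_nonneg (φ y).im]

/-- the square of a number fixed by a complex conjugation is not negative -/
theorem sq_nonneg_of_fixed {K N : Type} [Field K] [Field N] [Algebra K N] {φ : N →+* ℂ}
    {c : Gal(N/K)} (hc : ComplexEmbedding.IsConj φ c) {y : N} (hy : c y = y) :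
    0 ≤ (φ (y ^ 2)).re := by
  have h2 : star (φ y) = φ y := by rw [← hc.eq, hy]
  have h3 : (φ y).im = 0 := by
    have := congrArg Complex.im h2
    simp only [Complex.star_def, Complex.conj_im] at this
    linarith
  rw [map_pow, sq, Complex.mul_re, h3]
  nlinarith [mul_self_nonneg (φ y).re]

theorem alg_smul {K L : Type} [Field K] [Field L] [Algebra K L] (τ : Gal(L/K)) (k : K) (x : L) :
    τ (k • x) = k • τ x := by
  rw [Algebra.smul_def, map_mul, AlgEquiv.commutes, ← Algebra.smul_def]

/-- the fixed field of an involution -/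
theorem mem_zpowers_of_fix {K L : Type} [Field K] [Field L] [Algebra K L] [FiniteDimensional K L]
    [CharZero L] {n : ℕ} (b : Module.Basis (Fin n) K L) {σ τ : Gal(L/K)}
    (h : ∀ i, σ (b i + τ (b i)) = b i + τ (b i)) : σ ∈ Subgroup.zpowers τ := by
  have h1 : σ ∈ (IntermediateField.fixedField (Subgroup.zpowers τ)).fixingSubgroup := by
    rw [IntermediateField.mem_fixingSubgroup_iff]
    intro y hy
    have hτ : τ y = y := by
      have := (IntermediateField.mem_fixedField_iff (H := Subgroup.zpowers τ) y).1 hy τ
        (Subgroup.mem_zpowers τ)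
      exact this
    have h2 : (2 : L) * y = ∑ i, b.repr y i • (b i + τ (b i)) := by
      have h3 : y = ∑ i, b.repr y i • b i := (b.sum_repr y).symm
      have h4 : τ y = ∑ i, b.repr y i • τ (b i) := by
        conv_lhs => rw [h3]
        rw [map_sum]
        exact Finset.sum_congr rfl fun i _ => alg_smul τ _ _
      have h5 : (2 : L) * y = y + τ y := by rw [hτ, two_mul]
      rw [h5, h4]
      conv_lhs => rw [h3]
      rw [← Finset.sum_add_distrib]
      exact Finset.sum_congr rfl fun i _ => by
        rw [h3.symm, ← smul_add]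
    have h6 : σ ((2 : L) * y) = (2 : L) * y := by
      rw [h2, map_sum]
      exact Finset.sum_congr rfl fun i _ => by rw [alg_smul, h i]
    rw [map_mul, map_ofNat] at h6
    exact mul_left_cancel₀ two_ne_zero h6
  rwa [IntermediateField.fixingSubgroup_fixedField] at h1

/-- **Separation of the complex conjugations.** -/
theorem separate (K L : Type) [Field K] [NumberField K] [Field L] [NumberField L] [Algebra K L]
    [IsGalois K L] :
    ∃ S : Finset L, ∀ (N : Type) [Field N] [NumberField N] [Algebra K N] [Algebra L N]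
      [IsScalarTower K L N], (∀ s ∈ S, ∃ y : N, y ^ 2 = algebraMap L N s) →
      ∀ (φ : N →+* ℂ) (g c : Gal(N/K)), ComplexEmbedding.IsConj φ c → c ∈ Subgroup.zpowers g →
        ∀ x : L, g (algebraMap L N x) = c (algebraMap L N x) := by
  classical
  let b := Module.finBasis K L
  choose s hs1 hs2 using fun p : Fin (Module.finrank K L) × Gal(L/K) × Gal(L/K) × (L →+* ℂ) =>
    exists_sep p.2.2.2 (b p.1 + p.2.1 (b p.1)) (p.2.2.1 (b p.1 + p.2.1 (b p.1)))
  refine ⟨Finset.univ.image s, fun N _ _ _ _ _ hN φ g c hc hcg x => ?_⟩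
  let σ : Gal(L/K) := AlgEquiv.restrictNormalHom L g
  let τ : Gal(L/K) := AlgEquiv.restrictNormalHom L c
  have hσ : ∀ x : L, algebraMap L N (σ x) = g (algebraMap L N x) :=
    fun x => AlgEquiv.restrictNormal_commutes g L x
  have hτ : ∀ x : L, algebraMap L N (τ x) = c (algebraMap L N x) :=
    fun x => AlgEquiv.restrictNormal_commutes c L x
  have hcomm : Commute c g := by
    obtain ⟨k, rfl⟩ := Subgroup.mem_zpowers_iff.1 hcg
    exact (Commute.refl g).zpow_left k
  have hτσ : τ ∈ Subgroup.zpowers σ := by
    obtain ⟨k, hk⟩ := Subgroup.mem_zpowers_iff.1 hcg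
    refine Subgroup.mem_zpowers_iff.2 ⟨k, ?_⟩
    rw [← map_zpow, hk]
  have hττ : ∀ x : L, τ (τ x) = x := fun x => by
    apply (algebraMap L N).injective
    rw [hτ, hτ, ComplexEmbedding.isConj_apply_apply hc]
  have hcommL : ∀ x : L, τ (σ x) = σ (τ x) := fun x => by
    apply (algebraMap L N).injective
    rw [hτ, hσ, hσ, hτ]
    exact congrArg (fun h : Gal(N/K) => h (algebraMap L N x)) hcomm.eq
  have hfix : ∀ i, σ (b i + τ (b i)) = b i + τ (b i) := by
    intro i
    by_contra hne
    set z : L := b i + τ (b i) with hz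
    have hτz : τ z = z := by rw [hz, map_add, hττ, add_comm]
    have hτσz : τ (σ z) = σ z := by rw [hcommL, hτz]
    have hreal : ∀ w : L, τ w = w → (φ (algebraMap L N w)).im = 0 := by
      intro w hw
      have h1 : star (φ (algebraMap L N w)) = φ (algebraMap L N w) := by
        rw [← hc.eq, ← hτ, hw]
      have := congrArg Complex.im h1
      simp only [Complex.star_def, Complex.conj_im] at this
      linarith
    have hre : (φ.comp (algebraMap L N) z).re ≠ (φ.comp (algebraMap L N) (σ z)).re := by
      intro h
      apply hne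
      apply (algebraMap L N).injective
      apply φ.injective
      refine (Complex.ext h ?_).symm
      change (φ (algebraMap L N z)).im = (φ (algebraMap L N (σ z))).im
      rw [hreal z hτz, hreal _ hτσz]
    let p : Fin (Module.finrank K L) × Gal(L/K) × Gal(L/K) × (L →+* ℂ) :=
      (i, τ, σ, φ.comp (algebraMap L N))
    obtain ⟨hp1, hp2⟩ := hs2 p (σ : L →+* L) rfl hre
    have hsτ : τ (s p) = s p := by
      obtain ⟨q, hq | hq⟩ := hs1 p
      · rw [hq]
        change τ (z - (q : L)) = z - (q : L)
        rw [map_sub, hτz, map_ratCast]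
      · rw [hq]
        change τ ((q : L) - z) = (q : L) - z
        rw [map_sub, hτz, map_ratCast]
    obtain ⟨y, hy⟩ := hN (s p) (Finset.mem_image_of_mem _ (Finset.mem_univ _))
    have hcs : c (algebraMap L N (s p)) = algebraMap L N (s p) := by rw [← hτ, hsτ]
    have hcy : c y = y := sqrt_fixed hc hcs hp1 hy
    have hcgy : c (g y) = g y := by
      have h1 : c (g y) = g (c y) := congrArg (fun h : Gal(N/K) => h y) hcomm.eq
      rw [h1, hcy]
    have h2 := sq_nonneg_of_fixed hc hcgy
    rw [← map_pow, hy, ← hσ] at h2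
    exact absurd h2 (not_le.2 hp2)
  have h1 : σ ∈ Subgroup.zpowers τ := mem_zpowers_of_fix b hfix
  have h2 : σ = τ := by
    obtain ⟨k, hk⟩ := Subgroup.mem_zpowers_iff.1 h1
    have hsq : τ * τ = 1 := AlgEquiv.ext fun x => hττ x
    rcases Int.even_or_odd' k with ⟨l, rfl | rfl⟩
    · rw [zpow_mul, zpow_two, hsq, one_zpow] at hk
      rw [← hk, Subgroup.zpowers_one_eq_bot, Subgroup.mem_bot] at hτσ
      rw [← hk, hτσ]
    · rw [zpow_add, zpow_mul, zpow_two, hsq, one_zpow, one_mul, zpow_one] at hk
      exact hk.symm
  rw [← hσ, ← hτ, h2]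

end Pool.Agent.Run7.h184.TC
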