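import Pool.Agent.Run7.h184.TC.Main

/-!
# Deligne's relation over all number fields and over the totally complex ones
-/

set_option autoImplicit false

namespace Pool.Agent.Run7.h184.TC

open NumberField IsDedekindDomain
open scoped Classical
open Pool.Agent.R433.MD Pool.Agent.R333.BR
open Pool.Agent.H921R2.TatePole (nm two_le_nm nm_summable)

section
variable {K : Type} [Field K] [NumberField K] {E : Type} [Field E] {d : ℕ}
  {bad : Set (HeightOneSpectrum (𝓞 K))} {A : HeightOneSpectrum (𝓞 K) → Matrix (Fin d) (Fin d) E}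
  {b : ℝ} (hA : Bd bad A b) {U : Set ℂ} {m : ℤ} (hm : (m : ℂ) ∈ U)

/-- the relation with the period `P` over totally complex fields -/
def Hyp (P : AA E) : Prop := ∀ Z : Ext K, CycType K Z.F →
  cl (M0 E b hm) (LF hA Z) = (Module.finrank K Z.F : ℤ) • cl (M0 E b hm) (cst E b P)

theorem formal_P (h0 : ∀ v ∉ bad, ∀ n ≠ 0,
      (1 - (((nm v ^ n : ℕ) : E) ^ (-m)) • (A v) ^ n).det ≠ 0) (P : AA E) :
    Formal (K := K) fun F => cl (M0 E b hm) (LF hA F) +
      (Module.finrank K F.F : ℤ) • (- cl (M0 E b hm) (cst E b P)) :=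
  (formal_L hA hm h0).add (formal_deg _)

/-- **Leading terms.** -/
theorem leading (hU : IsPreconnected U) (hH : ∀ s : ℂ, b < s.re → s ∈ U)
    (h0 : ∀ v ∉ bad, ∀ n ≠ 0, (1 - (((nm v ^ n : ℕ) : E) ^ (-m)) • (A v) ^ n).det ≠ 0)
    {P : AA E} (hyp : Hyp hA hm P) :
    ∃ (δ : (K →+* ℝ) → AA E) (ν : (K →+* ℝ) → (E →+* ℂ) → ℚ),
      ∀ (F : Ext K) (k : ℕ) (x : AA E) (n : (E →+* ℂ) → Multiplicative ℤ), k ≠ 0 →
        (LF hA F ^ k, x, n) ∈ Gr E b hm →
        (∀ τ, ((n τ).toAdd : ℚ) / k = ∑ v : K →+* ℝ, (rr F.F v : ℚ) * ν v τ) ∧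
        cl (em E).range x = cl (em E).range
          ((P ^ Module.finrank K F.F * ∏ v : K →+* ℝ, δ v ^ rr F.F v) ^ k) := by
  let V : Type := VQ (em E).range × ((E →+* ℂ) → ℚ)
  let Dom : Ext K → V → Prop := fun F z => ∃ (k : ℕ) (x : AA E) (n : (E →+* ℂ) → Multiplicative ℤ),
    k ≠ 0 ∧ (LF hA F ^ k, x, n) ∈ Gr E b hm ∧
      z = ((1 / (k : ℚ)) • cl (em E).range x - (Module.finrank K F.F : ℚ) • cl (em E).range P,
        fun τ => ((n τ).toAdd : ℚ) / k)
  obtain ⟨δ, hδ⟩ := defect_of_rel (V := V) (Dom := Dom) (by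
    intro t Z z a hz ha
    choose k x n hk hG hz' using hz
    have h1 := abs_rel (formal_P hA hm h0 P) (fun F hF => by
      rw [hyp F hF, smul_neg, add_neg_cancel]) Z a ha
    let D : ℤ := ∑ i, a i * (Module.finrank K (Z i).F : ℤ)
    let g : LS E b := (∏ i, LF hA (Z i) ^ a i) * (cst E b P) ^ (-D)
    have hg : cl (M0 E b hm) g = 0 := by
      rw [cl_mul, cl_prod, cl_zpow, ← h1]
      simp only [cl_zpow, smul_add, Finset.sum_add_distrib, smul_neg, Finset.sum_neg_distrib,
        smul_smul, neg_smul]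
      rw [← Finset.sum_smul]
    obtain ⟨q, hq, e, he⟩ := (cl_eq_zero _).1 hg
    let K0 : ℕ := ∏ i, k i
    let κ : Fin t → ℕ := fun i => ∏ j ∈ Finset.univ.erase i, k j
    have hκ : ∀ i, k i * κ i = K0 := fun i =>
      Finset.mul_prod_erase Finset.univ k (Finset.mem_univ i)
    have hK0 : K0 ≠ 0 := Finset.prod_ne_zero_iff.2 fun i _ => hk i
    -- two leading terms of the same function
    have h2 : (g ^ K0, (∏ i, x i ^ (a i * κ i)) * P ^ (-D * K0), ∏ i, n i ^ (a i * κ i)) ∈
        Gr E b hm := by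
      have h3 := (Gr E b hm).mul_mem (Subgroup.prod_mem (Gr E b hm) (t := Finset.univ)
        (f := fun i => ((LF hA (Z i) ^ k i, x i, n i) :
          LS E b × AA E × ((E →+* ℂ) → Multiplicative ℤ)) ^ (a i * κ i)) fun i _ =>
        Subgroup.zpow_mem _ (hG i) _)
        (Subgroup.zpow_mem _ (cst_mem E b hm P) (-D * K0))
      have h4 : (∏ i, ((LF hA (Z i) ^ k i, x i, n i) :
          LS E b × AA E × ((E →+* ℂ) → Multiplicative ℤ)) ^ (a i * κ i)) *
          ((cst E b P, P, 1) : LS E b × AA E × ((E →+* ℂ) → Multiplicative ℤ)) ^ (-D * K0) =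
          (g ^ K0, (∏ i, x i ^ (a i * κ i)) * P ^ (-D * K0), ∏ i, n i ^ (a i * κ i)) := by
        refine Prod.ext ?_ (Prod.ext ?_ ?_)
        · rw [Prod.fst_mul, Prod.fst_prod, Prod.pow_fst]
          change (∏ i, (LF hA (Z i) ^ k i) ^ (a i * κ i)) * cst E b P ^ (-D * K0) = g ^ K0
          rw [mul_pow, ← Finset.prod_pow, ← zpow_natCast (cst E b P ^ (-D)), ← zpow_mul]
          congr 1
          refine Finset.prod_congr rfl fun i _ => ?_
          rw [← zpow_natCast, ← zpow_mul, ← zpow_natCast, ← zpow_mul, ← hκ i]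
          congr 1
          push_cast
          ring
        · rw [Prod.snd_mul, Prod.fst_mul, Prod.snd_prod, Prod.fst_prod, Prod.pow_snd, Prod.pow_fst]
          rfl
        · rw [Prod.snd_mul, Prod.snd_mul, Prod.snd_prod, Prod.snd_prod, Prod.pow_snd,
            Prod.pow_snd, one_zpow, mul_one]
          rfl
      rw [h4] at h3
      exact h3
    have h5 := Subgroup.pow_mem _ h2 q
    have h6 := Subgroup.pow_mem _ he K0
    rw [Prod.pow_mk, Prod.pow_mk] at h5 h6
    rw [← pow_mul, mul_comm, pow_mul] at h5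
    obtain ⟨h7, h8⟩ := Gr_unique E b hU hH hm h5 h6
    have hq' : ((q : ℕ) : ℚ) ≠ 0 := Nat.cast_ne_zero.2 hq
    have hK0' : ((K0 : ℕ) : ℚ) ≠ 0 := Nat.cast_ne_zero.2 hK0
    have hk' : ∀ i, ((k i : ℕ) : ℚ) ≠ 0 := fun i => Nat.cast_ne_zero.2 (hk i)
    have hκ' : ∀ i, (κ i : ℚ) = (K0 : ℚ) / k i := fun i => by
      rw [← hκ i]
      push_cast
      field_simp [hk' i]
    -- the values
    have h9 : ∑ i, (a i : ℚ) • (((κ i : ℕ) : ℚ) • cl (em E).range (x i)) =
        ((D : ℚ) * K0) • cl (em E).range P := by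
      have h10 := congrArg (cl (em E).range) h7
      rw [cl_pow, cl_pow, cl_mem (em E).range ⟨e, rfl⟩, smul_zero, ← Nat.cast_smul_eq_nsmul ℚ] at h10
      have h11 := (smul_eq_zero.1 h10).resolve_left hq'
      rw [cl_mul, cl_prod, cl_zpow, ← eq_neg_iff_add_eq_zero] at h11
      simp only [cl_zpow] at h11
      have h12 : - ((-D * (K0 : ℤ)) • cl (em E).range P) = ((D : ℚ) * K0) • cl (em E).range P := by
        rw [← neg_smul, ← Int.cast_smul_eq_zsmul ℚ]
        congr 1
        push_cast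
        ring
      rw [h12] at h11
      rw [← h11]
      refine Finset.sum_congr rfl fun i _ => ?_
      rw [smul_smul, ← Int.cast_smul_eq_zsmul ℚ]
      congr 1
      push_cast
      ring
    have h13 : ∀ τ, ∑ i, (a i : ℚ) * κ i * ((n i τ).toAdd : ℚ) = 0 := by
      intro τ
      have h14 := congrArg Multiplicative.toAdd (congrFun h8 τ)
      rw [one_pow, Pi.pow_apply, toAdd_pow, Finset.prod_apply, toAdd_prod, Pi.one_apply,
        toAdd_one] at h14
      have h15 : (q : ℤ) * ∑ i, a i * κ i * (n i τ).toAdd = 0 := by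
        rw [← h14, nsmul_eq_mul]
        rfl
      have h16 := (mul_eq_zero.1 h15).resolve_left (by exact_mod_cast hq)
      exact_mod_cast h16
    refine Prod.ext ?_ (funext fun τ => ?_)
    · rw [Prod.fst_sum]
      change ∑ i, (a i • z i).1 = 0
      have h17 : ∀ i, (a i • z i).1 = (1 / (K0 : ℚ)) • ((a i : ℚ) • (((κ i : ℕ) : ℚ) •
          cl (em E).range (x i))) - ((a i : ℚ) * (Module.finrank K (Z i).F : ℚ)) •
          cl (em E).range P := fun i => by
        rw [Prod.smul_fst, hz' i]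
        change a i • ((1 / (k i : ℚ)) • cl (em E).range (x i) -
          (Module.finrank K (Z i).F : ℚ) • cl (em E).range P) = _
        rw [← Int.cast_smul_eq_zsmul ℚ, smul_sub, smul_smul, smul_smul, smul_smul, smul_smul,
          hκ' i]
        congr 2
        field_simp [hk' i, hK0']
      rw [Finset.sum_congr rfl fun i _ => h17 i, Finset.sum_sub_distrib, ← Finset.smul_sum, h9,
        ← Finset.sum_smul, smul_smul, ← sub_smul]
      have h18 : 1 / (K0 : ℚ) * ((D : ℚ) * K0) -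
          ∑ i, (a i : ℚ) * (Module.finrank K (Z i).F : ℚ) = 0 := by
        have h19 : (D : ℚ) = ∑ i, (a i : ℚ) * (Module.finrank K (Z i).F : ℚ) := by
          change ((∑ i, a i * (Module.finrank K (Z i).F : ℤ) : ℤ) : ℚ) = _
          push_cast
          rfl
        rw [← h19]
        field_simp
        ring
      rw [h18, zero_smul]
    · rw [Prod.snd_sum, Finset.sum_apply]
      change ∑ i, (a i • z i).2 τ = 0
      have h17 : ∀ i, (a i • z i).2 τ = (1 / (K0 : ℚ)) * ((a i : ℚ) * κ i * ((n i τ).toAdd : ℚ)) :=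
          fun i => by
        rw [Prod.smul_snd, hz' i]
        change a i • (((n i τ).toAdd : ℚ) / k i) = _
        rw [zsmul_eq_mul, hκ' i]
        field_simp [hk' i, hK0']
      rw [Finset.sum_congr rfl fun i _ => h17 i, ← Finset.mul_sum, h13, mul_zero])
  choose u hu using fun v => cl_surj (em E).range (AA_div E) (δ v).1
  refine ⟨u, fun v => (δ v).2, fun F k x n hk hG => ?_⟩
  have h1 := hδ F _ ⟨k, x, n, hk, hG, rfl⟩
  have hk' : ((k : ℕ) : ℚ) ≠ 0 := Nat.cast_ne_zero.2 hk
  constructor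
  · intro τ
    have h2 := congrFun (congrArg Prod.snd h1) τ
    rw [Prod.snd_sum, Finset.sum_apply] at h2
    exact h2
  · have h2 := congrArg Prod.fst h1
    rw [Prod.fst_sum] at h2
    have h3 : (1 / (k : ℚ)) • cl (em E).range x -
        (Module.finrank K F.F : ℚ) • cl (em E).range P =
        ∑ v : K →+* ℝ, (rr F.F v : ℚ) • (δ v).1 := h2
    rw [sub_eq_iff_eq_add] at h3
    have h4 : cl (em E).range x = (k : ℚ) • ((∑ v : K →+* ℝ, (rr F.F v : ℚ) • (δ v).1) +
        (Module.finrank K F.F : ℚ) • cl (em E).range P) := by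
      rw [← h3, smul_smul]
      rw [mul_one_div_cancel hk', one_smul]
    rw [h4, cl_pow, cl_mul, cl_pow, cl_prod, Nat.cast_smul_eq_nsmul, Nat.cast_smul_eq_nsmul,
      add_comm]
    congr 2
    refine Finset.sum_congr rfl fun v _ => ?_
    rw [cl_pow, hu v, Nat.cast_smul_eq_nsmul]

/-- **The relation at all fields.** -/
theorem all_fields (h0 : ∀ v ∉ bad, ∀ n ≠ 0, (1 - (((nm v ^ n : ℕ) : E) ^ (-m)) • (A v) ^ n).det ≠ 0)
    {P : AA E} (hyp : Hyp hA hm P) (δ : (K →+* ℝ) → AA E) {t : ℕ} (F : Fin t → Ext K)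
    (hspan : Submodule.span ℚ (Set.range fun (i : Fin t) (v : K →+* ℝ) =>
      (rr (F i).F v : ℚ)) = ⊤)
    (hF : ∀ i, cl (M0 E b hm) (LF hA (F i)) = cl (M0 E b hm) (cst E b
      (P ^ Module.finrank K (F i).F * ∏ v : K →+* ℝ, δ v ^ rr (F i).F v))) (G : Ext K) :
    cl (M0 E b hm) (LF hA G) = cl (M0 E b hm) (cst E b
      (P ^ Module.finrank K G.F * ∏ v : K →+* ℝ, δ v ^ rr G.F v)) := by
  obtain ⟨δ', hδ'⟩ := abs_defect (formal_P hA hm h0 P) (fun F hF => by
    rw [hyp F hF, smul_neg, add_neg_cancel])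
  have hcst : ∀ G : Ext K, cl (M0 E b hm) (cst E b
      (P ^ Module.finrank K G.F * ∏ v : K →+* ℝ, δ v ^ rr G.F v)) =
      (Module.finrank K G.F : ℤ) • cl (M0 E b hm) (cst E b P) +
        ∑ v : K →+* ℝ, (rr G.F v : ℚ) • cl (M0 E b hm) (cst E b (δ v)) := fun G => by
    rw [map_mul, map_pow, map_prod, cl_mul, cl_pow, cl_prod, natCast_zsmul]
    congr 1
    refine Finset.sum_congr rfl fun v _ => ?_
    rw [map_pow, cl_pow, Nat.cast_smul_eq_nsmul]
  have key : ∀ x : (K →+* ℝ) → ℚ,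
      ∑ v, x v • (δ' v - cl (M0 E b hm) (cst E b (δ v))) = 0 := by
    intro x
    have hx : x ∈ Submodule.span ℚ (Set.range fun (i : Fin t) (v : K →+* ℝ) =>
        (rr (F i).F v : ℚ)) := by rw [hspan]; trivial
    induction hx using Submodule.span_induction with
    | mem x hx =>
      obtain ⟨i, rfl⟩ := hx
      have h1 := hδ' (F i)
      rw [hF i, hcst (F i), smul_neg, add_right_comm, add_neg_cancel, zero_add] at h1
      simp only [smul_sub, Finset.sum_sub_distrib]
      rw [← h1, sub_self]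
    | zero => simp
    | add x y _ _ hx hy =>
      simp only [Pi.add_apply, add_smul, Finset.sum_add_distrib]
      rw [hx, hy, add_zero]
    | smul c x _ hx =>
      simp only [Pi.smul_apply, smul_eq_mul, mul_smul]
      rw [← Finset.smul_sum, hx, smul_zero]
  have h1 := hδ' G
  have h2 := key fun v => (rr G.F v : ℚ)
  simp only [smul_sub, Finset.sum_sub_distrib] at h2
  rw [sub_eq_zero] at h2
  rw [hcst G, ← h2, ← h1, smul_neg]
  abel

end

end Pool.Agent.Run7.h184.TC
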