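import Pool.Agent.R433.MD.Burnside

/-!
# Ideals of the ring of permutation characters

`𝓗` is a set of subgroups of the finite group `G`, closed under subgroups and conjugation.  A
combination `f` of permutation characters such that every `g` with `f g ≠ 0` is in a member of `𝓗` has
a nonzero multiple in the span of the permutation characters of the members of `𝓗`.
-/

set_option autoImplicit false

namespace Pool.Agent.Run7.h184.TC

open Pool.Agent.R433.MD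

/-- the span of the permutation characters -/
abbrev sp {G : Type} [Group G] (𝓗 : Set (Subgroup G)) : Submodule ℤ (G → ℤ) :=
  Submodule.span ℤ (Set.range fun H : 𝓗 => fx H.1)

section
variable {G : Type} [Group G] [Finite G]

/-- products -/
theorem fx_mul_mem' (𝓗 : Set (Subgroup G)) (hle : ∀ H ∈ 𝓗, ∀ H' ≤ H, H' ∈ 𝓗)
    (hconj : ∀ H ∈ 𝓗, ∀ x : G, H.map (MulAut.conj x).toMonoidHom ∈ 𝓗) {H : Subgroup G}
    (hH : H ∈ 𝓗) (H' : Subgroup G) : fx H * fx H' ∈ sp 𝓗 := by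
  have h1 := fixed_mem (G := G) ((G ⧸ H) × (G ⧸ H')) (sp 𝓗) (by
    rintro ⟨c, c'⟩
    obtain ⟨x, rfl⟩ := QuotientGroup.mk_surjective c
    have e : MulAction.stabilizer G ((x : G ⧸ H), c') ≤
        H.map (MulAut.conj x).toMonoidHom := by
      rw [← stab_coset]
      intro y hy
      rw [MulAction.mem_stabilizer_iff, Prod.smul_mk, Prod.mk.injEq] at hy
      exact hy.1
    exact Submodule.subset_span ⟨⟨_, hle _ (hconj _ hH x) _ e⟩, rfl⟩)
  have h2 : fx H * fx H' =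
      fun g : G => (Nat.card {y : (G ⧸ H) × (G ⧸ H') // g • y = y} : ℤ) := by
    funext g
    rw [Pi.mul_apply, fx, fx, ← Nat.cast_mul, ← Nat.card_prod]
    congr 1
    refine Nat.card_congr
      { toFun := fun p => ⟨(p.1.1, p.2.1), Prod.ext p.1.2 p.2.2⟩
        invFun := fun p => (⟨p.1.1, congrArg Prod.fst p.2⟩, ⟨p.1.2, congrArg Prod.snd p.2⟩)
        left_inv := fun _ => rfl
        right_inv := fun _ => rfl }
  rw [h2]
  exact h1

/-- the span is an ideal -/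
theorem mul_mem_sp (𝓗 : Set (Subgroup G)) (hle : ∀ H ∈ 𝓗, ∀ H' ≤ H, H' ∈ 𝓗)
    (hconj : ∀ H ∈ 𝓗, ∀ x : G, H.map (MulAut.conj x).toMonoidHom ∈ 𝓗) {a b : G → ℤ}
    (ha : a ∈ sp 𝓗) (hb : b ∈ sp (Set.univ : Set (Subgroup G))) : a * b ∈ sp 𝓗 := by
  induction ha using Submodule.span_induction with
  | mem x hx =>
    obtain ⟨H, rfl⟩ := hx
    induction hb using Submodule.span_induction with
    | mem y hy =>
      obtain ⟨H', rfl⟩ := hy
      exact fx_mul_mem' 𝓗 hle hconj H.2 H'.1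
    | zero => rw [mul_zero]; exact Submodule.zero_mem _
    | add y z _ _ hy hz => rw [mul_add]; exact Submodule.add_mem _ hy hz
    | smul c y _ hy => rw [mul_smul_comm]; exact Submodule.smul_mem _ _ hy
  | zero => rw [zero_mul]; exact Submodule.zero_mem _
  | add y z _ _ hy hz => rw [add_mul]; exact Submodule.add_mem _ hy hz
  | smul c y _ hy => rw [smul_mul_assoc]; exact Submodule.smul_mem _ _ hy

theorem sp_le_univ (𝓗 : Set (Subgroup G)) : sp 𝓗 ≤ sp (Set.univ : Set (Subgroup G)) := by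
  refine Submodule.span_mono ?_
  rintro _ ⟨H, rfl⟩
  exact ⟨⟨H.1, trivial⟩, rfl⟩

/-- **The support criterion.** -/
theorem support_mem (𝓗 : Set (Subgroup G)) (hle : ∀ H ∈ 𝓗, ∀ H' ≤ H, H' ∈ 𝓗)
    (hconj : ∀ H ∈ 𝓗, ∀ x : G, H.map (MulAut.conj x).toMonoidHom ∈ 𝓗) {f : G → ℤ}
    (hf : f ∈ sp (Set.univ : Set (Subgroup G)))
    (h0 : ∀ g, f g ≠ 0 → ∃ H ∈ 𝓗, g ∈ H) :
    ∃ m : ℕ, m ≠ 0 ∧ (m : ℤ) • f ∈ sp 𝓗 := by
  classical
  let X : Type := {g : G // f g ≠ 0}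
  let res : (G → ℤ) →ₗ[ℤ] (X → ℤ) := LinearMap.funLeft ℤ ℤ (Subtype.val : X → G)
  have hfx : ∀ (H : Subgroup G) (g : G), g ∈ H → fx H g ≠ 0 := by
    intro H g hg h
    rw [fx, Nat.cast_eq_zero, Nat.card_eq_zero] at h
    rcases h with h | h
    · refine h.false ⟨((1 : G) : G ⧸ H), ?_⟩
      change ((g * 1 : G) : G ⧸ H) = _
      rw [QuotientGroup.eq, mul_one, mul_one]
      exact H.inv_mem hg
    · exact h.not_finite inferInstance
  obtain ⟨m, hm0, -, hm⟩ := unit_mem (X := X) ((sp 𝓗).map res) (by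
    rintro _ ⟨a, ha, rfl⟩ _ ⟨b, hb, rfl⟩
    exact ⟨a * b, mul_mem_sp 𝓗 hle hconj ha (sp_le_univ 𝓗 hb), rfl⟩) ∅ (by
    rintro ⟨g, hg⟩
    obtain ⟨H, hH, hgH⟩ := h0 g hg
    exact ⟨res (fx H), ⟨fx H, Submodule.subset_span ⟨⟨H, hH⟩, rfl⟩, rfl⟩, hfx H g hgH⟩)
    (fun _ p hp => absurd hp (Set.notMem_empty p))
  obtain ⟨h, hh, hres⟩ := hm
  refine ⟨m, hm0, ?_⟩
  have e : (m : ℤ) • f = h * f := by
    funext g
    rw [Pi.smul_apply, smul_eq_mul, Pi.mul_apply]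
    by_cases hg : f g = 0
    · rw [hg, mul_zero, mul_zero]
    · have h1 := congrFun hres (⟨g, hg⟩ : X)
      have h2 : h g = (m : ℤ) := h1
      rw [h2]
  rw [e]
  exact mul_mem_sp 𝓗 hle hconj hh hf

/-- coefficients -/
theorem coeff_of_mem (𝓗 : Set (Subgroup G)) {f : G → ℤ} (hf : f ∈ sp 𝓗) :
    ∃ (r : ℕ) (H : Fin r → Subgroup G) (n : Fin r → ℤ), (∀ i, H i ∈ 𝓗) ∧
      ∀ g, f g = ∑ i, n i * fx (H i) g := by
  classical
  let _ : Fintype 𝓗 := Fintype.ofFinite _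
  rw [Submodule.mem_span_range_iff_exists_fun] at hf
  obtain ⟨c, hc⟩ := hf
  let e := Fintype.equivFin 𝓗
  refine ⟨Fintype.card 𝓗, fun i => (e.symm i).1, fun i => c (e.symm i), fun i => (e.symm i).2,
    fun g => ?_⟩
  rw [← hc, Finset.sum_apply, ← Equiv.sum_comp e.symm]
  rfl

end

end Pool.Agent.Run7.h184.TC
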