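import Pool.Agent.Run7.h184.TC.Desc

/-!
# Averages over the places
-/

set_option autoImplicit false

namespace Pool.Agent.Run7.h184.TC

open NumberField IsDedekindDomain Filter Topology
open scoped Classical
open Pool.Agent.R433.MD Pool.Agent.R333.BR
open Pool.Agent.H921R2.TatePole (nm two_le_nm nm_summable)

variable {K : Type} [Field K] [NumberField K]

/-- the functions with limit zero -/
def O1 : Submodule ℚ (ℝ → ℝ) where
  carrier := {g | Tendsto g atTop (𝓝 0)}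
  add_mem' {g h} hg hh := by
    have h1 := Tendsto.add hg hh
    rw [add_zero] at h1
    exact h1
  zero_mem' := tendsto_const_nhds
  smul_mem' c g hg := by
    have h1 := Tendsto.const_mul (c : ℝ) hg
    rw [mul_zero] at h1
    refine h1.congr fun T => ?_
    rw [Pi.smul_apply, Rat.smul_def]

/-- the local data up to `T` -/
noncomputable def cut (c : HeightOneSpectrum (𝓞 K) → ℕ → ℝ) (T : ℝ)
    (v : HeightOneSpectrum (𝓞 K)) (n : ℕ) : ℝ :=
  if ((nm v ^ n : ℕ) : ℝ) ≤ T then c v n else 0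

theorem finite_le {F : Type} [Field F] [NumberField F] (T : ℝ) :
    {w : HeightOneSpectrum (𝓞 F) | (nm w : ℝ) ≤ T}.Finite := by
  have h1 := (Ideal.finite_setOfPred_absNorm_le (S := 𝓞 F) ⌊T⌋₊).preimage
    (f := fun w : HeightOneSpectrum (𝓞 F) => w.asIdeal)
    (fun w _ w' _ h => HeightOneSpectrum.ext h)
  refine h1.subset fun w hw => ?_
  exact Nat.le_floor hw

/-- the sum over the places of norm at most `T` -/
noncomputable def sumTo (c : HeightOneSpectrum (𝓞 K) → ℕ → ℝ) (F : Ext K) (T : ℝ) : ℝ :=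
  ∑' w : HeightOneSpectrum (𝓞 F.F), loc (cut c T) w

theorem hasSum_cut (c : HeightOneSpectrum (𝓞 K) → ℕ → ℝ) (F : Ext K) (T : ℝ) :
    HasSum (fun w : HeightOneSpectrum (𝓞 F.F) => loc (cut c T) w) (sumTo c F T) := by
  refine Summable.hasSum (summable_of_hasFiniteSupport ?_)
  refine (finite_le (F := F.F) T).subset fun w hw => ?_
  by_contra h
  apply hw
  have h4 : nm w = nm (und (K := K) w) ^ fdeg (⟨w, rfl⟩ : Fib F.F (und (K := K) w)) :=
    nm_fib (K := K) ⟨w, rfl⟩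
  change cut c T (und (K := K) w) (fdeg (⟨w, rfl⟩ : Fib F.F (und (K := K) w))) = 0
  rw [cut, ← h4]
  exact if_neg h

/-- the average minus the dimension -/
noncomputable def err (c : HeightOneSpectrum (𝓞 K) → ℕ → ℝ) (D : GaloisModules K) (F : Ext K) :
    ℝ → ℝ := fun T => T⁻¹ * sumTo c F T - D.rank F

theorem formal_err (c : HeightOneSpectrum (𝓞 K) → ℕ → ℝ) (D : GaloisModules K) :
    Formal (K := K) fun F => (Submodule.Quotient.mk (err c D F) : (ℝ → ℝ) ⧸ O1) := by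
  intro N _ _ _ _ ι _ Z f e he
  obtain ⟨S, -, hS⟩ := add_rel Z f e he
  have hrank := D.formal_rank N ι Z f e he
  have h1 : ∑ i, e i • (Submodule.Quotient.mk (err c D (Z i)) : (ℝ → ℝ) ⧸ O1) =
      Submodule.Quotient.mk (∑ i, e i • err c D (Z i)) := by
    rw [← Submodule.mkQ_apply, map_sum]
    refine Finset.sum_congr rfl fun i _ => ?_
    rw [map_zsmul]
    rfl
  rw [h1, Submodule.Quotient.mk_eq_zero]
  change Tendsto (∑ i, e i • err c D (Z i)) atTop (𝓝 0)
  let C : ℝ := ∑ v ∈ S, ∑ i, |(e i : ℝ)| * ∑ w : Fib (Z i).F v, |c v (fdeg w)|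
  have h2 : ∀ T, (∑ i, e i • err c D (Z i)) T =
      T⁻¹ * ∑ v ∈ S, ∑ i, (e i : ℝ) * ∑ w : Fib (Z i).F v, cut c T v (fdeg w) := by
    intro T
    have h3 := hS ℝ (cut c T) (fun i => sumTo c (Z i) T) fun i => hasSum_cut c (Z i) T
    simp only [zsmul_eq_mul] at h3
    have h4 : ∑ i, (e i : ℝ) * (D.rank (Z i) : ℝ) = 0 := by
      have h5 := congrArg (Rat.cast : ℚ → ℝ) hrank
      simp only [zsmul_eq_mul] at h5
      push_cast at h5
      exact h5
    rw [← h3, Finset.sum_apply, Finset.mul_sum]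
    have h6 : ∀ i, (e i • err c D (Z i)) T = T⁻¹ * ((e i : ℝ) * sumTo c (Z i) T) -
        (e i : ℝ) * (D.rank (Z i) : ℝ) := by
      intro i
      rw [Pi.smul_apply, err, zsmul_eq_mul]
      ring
    rw [Finset.sum_congr rfl fun i _ => h6 i, Finset.sum_sub_distrib, h4, sub_zero]
  have h3 : Tendsto (fun T : ℝ => |T⁻¹| * C) atTop (𝓝 0) := by
    have h4 : Tendsto (fun T : ℝ => |T⁻¹|) atTop (𝓝 0) := by
      have := tendsto_inv_atTop_zero (𝕜 := ℝ)
      rw [← abs_zero]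
      exact this.abs
    have h5 := h4.mul_const C
    rw [zero_mul] at h5
    exact h5
  refine squeeze_zero_norm (fun T => ?_) h3
  rw [h2 T, norm_mul, Real.norm_eq_abs, Real.norm_eq_abs]
  refine mul_le_mul_of_nonneg_left ?_ (abs_nonneg _)
  refine (Finset.abs_sum_le_sum_abs _ _).trans (Finset.sum_le_sum fun v _ => ?_)
  refine (Finset.abs_sum_le_sum_abs _ _).trans (Finset.sum_le_sum fun i _ => ?_)
  rw [abs_mul]
  refine mul_le_mul_of_nonneg_left ?_ (abs_nonneg _)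
  refine (Finset.abs_sum_le_sum_abs _ _).trans (Finset.sum_le_sum fun w _ => ?_)
  unfold cut
  split_ifs
  · exact le_refl _
  · rw [abs_zero]
    exact abs_nonneg _

theorem err_zero (c : HeightOneSpectrum (𝓞 K) → ℕ → ℝ) (D : GaloisModules K) (F : Ext K) :
    (Submodule.Quotient.mk (err c D F) : (ℝ → ℝ) ⧸ O1) = 0 ↔
      Tendsto (fun T => T⁻¹ * sumTo c F T) atTop (𝓝 (D.rank F)) := by
  rw [Submodule.Quotient.mk_eq_zero]
  change Tendsto (err c D F) atTop (𝓝 0) ↔ _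
  exact tendsto_sub_nhds_zero_iff

/-- **The defects.** -/
theorem lim_defect (c : HeightOneSpectrum (𝓞 K) → ℕ → ℝ) (D : GaloisModules K)
    (h0 : ∀ Z : Ext K, CycType K Z.F →
      Tendsto (fun T => T⁻¹ * sumTo c Z T) atTop (𝓝 (D.rank Z))) :
    ∃ δ : (K →+* ℝ) → ℝ → ℝ, ∀ F : Ext K,
      Tendsto (fun T => T⁻¹ * sumTo c F T - D.rank F - ∑ v : K →+* ℝ, (rr F.F v : ℝ) * δ v T)
        atTop (𝓝 0) := by
  obtain ⟨δ, hδ⟩ := abs_defect (formal_err c D) fun Z hZ => (err_zero c D Z).2 (h0 Z hZ)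
  choose g hg using fun v => Submodule.Quotient.mk_surjective O1 (δ v)
  refine ⟨g, fun F => ?_⟩
  have h1 : (Submodule.Quotient.mk (err c D F - ∑ v : K →+* ℝ, (rr F.F v : ℚ) • g v) :
      (ℝ → ℝ) ⧸ O1) = 0 := by
    rw [← Submodule.mkQ_apply, map_sub, map_sum, Submodule.mkQ_apply, hδ F, sub_eq_zero]
    refine Finset.sum_congr rfl fun v _ => ?_
    rw [map_smul, Submodule.mkQ_apply, hg v]
  rw [Submodule.Quotient.mk_eq_zero] at h1
  have h2 : Tendsto (err c D F - ∑ v : K →+* ℝ, (rr F.F v : ℚ) • g v) atTop (𝓝 0) := h1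
  refine h2.congr fun T => ?_
  rw [Pi.sub_apply, Finset.sum_apply, err]
  congr 1

theorem lim_all (c : HeightOneSpectrum (𝓞 K) → ℕ → ℝ) (D : GaloisModules K)
    (h0 : ∀ Z : Ext K, CycType K Z.F →
      Tendsto (fun T => T⁻¹ * sumTo c Z T) atTop (𝓝 (D.rank Z)))
    {t : ℕ} (F : Fin t → Ext K)
    (hspan : Submodule.span ℚ (Set.range fun (i : Fin t) (v : K →+* ℝ) =>
      (rr (F i).F v : ℚ)) = ⊤)
    (hF : ∀ i, Tendsto (fun T => T⁻¹ * sumTo c (F i) T) atTop (𝓝 (D.rank (F i)))) (G : Ext K) :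
    Tendsto (fun T => T⁻¹ * sumTo c G T) atTop (𝓝 (D.rank G)) :=
  (err_zero c D G).1 (abs_all (formal_err c D) (fun Z hZ => (err_zero c D Z).2 (h0 Z hZ)) F hspan
    (fun i => (err_zero c D (F i)).2 (hF i)) G)

end Pool.Agent.Run7.h184.TC
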