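import Pool.Agent.Run7.h184.TC.Mer
import Pool.Agent.Run7.h184.TC.Conv

/-!
# The local factors as functions
-/

set_option autoImplicit false

namespace Pool.Agent.Run7.h184.TC

open NumberField IsDedekindDomain
open scoped Classical
open Pool.Agent.R433.MD Pool.Agent.R333.BR
open Pool.Agent.H921R2.TatePole (nm two_le_nm nm_summable)

section
variable {E : Type} [Field E] {b : ℝ} {U : Set ℂ} {m : ℂ}

theorem rel_iff (hm : m ∈ U) (g : LS E b) (y : AA E) :
    cl (M0 E b hm) g = cl (M0 E b hm) (cst E b y) ↔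
      ∃ (k : ℕ) (e : Eˣ), k ≠ 0 ∧ (g ^ k, em E e * y ^ k, 1) ∈ Gr E b hm := by
  rw [cl_eq]
  constructor
  · rintro ⟨k, hk, e, he⟩
    refine ⟨k, e, hk, ?_⟩
    have h := (Gr E b hm).mul_mem he (cst_mem E b hm (y ^ k))
    rw [Prod.mk_mul_mk, Prod.mk_mul_mk, mul_one, map_pow, inv_mul_cancel_right] at h
    exact h
  · rintro ⟨k, e, hk, he⟩
    refine ⟨k, hk, e, ?_⟩
    have h := (Gr E b hm).mul_mem he ((Gr E b hm).inv_mem (cst_mem E b hm (y ^ k)))
    rw [Prod.inv_mk, Prod.inv_mk, inv_one, Prod.mk_mul_mk, Prod.mk_mul_mk, mul_one, map_pow,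
      mul_inv_cancel_right] at h
    exact h

end

theorem differentiable_det {d : ℕ} {M : ℂ → Matrix (Fin d) (Fin d) ℂ}
    (h : ∀ i j, Differentiable ℂ fun s => M s i j) : Differentiable ℂ fun s => (M s).det := by
  simp only [Matrix.det_apply]
  refine Differentiable.fun_sum fun σ _ => ?_
  refine Differentiable.const_smul ?_ _
  exact Differentiable.fun_finsetProd fun i _ => h _ _

section
variable {K : Type} [Field K] [NumberField K] {E : Type} [Field E] {d : ℕ}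
  (bad : Set (HeightOneSpectrum (𝓞 K))) (A : HeightOneSpectrum (𝓞 K) → Matrix (Fin d) (Fin d) E)

/-- `det(1 - N^{-ns} τ(A)^n)` -/
noncomputable def pol (τ : E →+* ℂ) (v : HeightOneSpectrum (𝓞 K)) (n : ℕ) (s : ℂ) : ℂ :=
  if v ∈ bad then 1 else (1 - (((nm v ^ n : ℕ) : ℂ) ^ (-s)) • ((A v).map τ) ^ n).det

/-- the value in `E` -/
noncomputable def polE (m : ℤ) (v : HeightOneSpectrum (𝓞 K)) (n : ℕ) : E :=
  if v ∈ bad then 1 else (1 - (((nm v ^ n : ℕ) : E) ^ (-m)) • (A v) ^ n).det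

theorem pol_int (τ : E →+* ℂ) (v : HeightOneSpectrum (𝓞 K)) (n : ℕ) (m : ℤ) :
    pol bad A τ v n (m : ℂ) = τ (polE bad A m v n) := by
  unfold pol polE
  split_ifs with h
  · rw [map_one]
  · rw [RingHom.map_det]
    congr 1
    rw [← Int.cast_neg, Complex.cpow_intCast, map_sub, map_one]
    congr 1
    ext i j
    have h5 : ((A v).map τ ^ n) i j = τ ((A v ^ n) i j) := by
      rw [← Matrix.map_pow]
      rfl
    rw [Matrix.smul_apply, RingHom.mapMatrix_apply, Matrix.map_apply, Matrix.smul_apply,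
      smul_eq_mul, smul_eq_mul, map_mul, map_zpow₀, map_natCast, h5]

theorem differentiable_pol (τ : E →+* ℂ) (v : HeightOneSpectrum (𝓞 K)) (n : ℕ) :
    Differentiable ℂ (pol bad A τ v n) := by
  unfold pol
  split_ifs with h
  · exact differentiable_const _
  · refine differentiable_det fun i j => ?_
    have h0 : ((nm v ^ n : ℕ) : ℂ) ≠ 0 := by
      have := two_le_nm v
      exact_mod_cast (pow_pos (by omega : 0 < nm v) n).ne'
    simp only [Matrix.sub_apply, Matrix.smul_apply, smul_eq_mul]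
    refine (differentiable_const _).sub (Differentiable.mul_const ?_ _)
    exact differentiable_id.neg.const_cpow (Or.inl h0)

/-- the roots -/
noncomputable def rts (τ : E →+* ℂ) (v : HeightOneSpectrum (𝓞 K)) (n : ℕ) (s : ℂ) : Multiset ℂ :=
  if v ∈ bad then 0 else
    ((A v).map τ).charpoly.roots.map fun α => ((nm v ^ n : ℕ) : ℂ) ^ (-s) * α ^ n

theorem pol_eq (τ : E →+* ℂ) (v : HeightOneSpectrum (𝓞 K)) (n : ℕ) (s : ℂ) :
    pol bad A τ v n s = ((rts bad A τ v n s).map fun z => 1 - z).prod := by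
  unfold pol rts
  split_ifs with h
  · simp
  · rw [det_one_sub, Multiset.map_map]
    rfl

theorem rts_card (τ : E →+* ℂ) (v : HeightOneSpectrum (𝓞 K)) (n : ℕ) (s : ℂ) :
    (rts bad A τ v n s).card ≤ d := by
  unfold rts
  split_ifs with h
  · simp
  · rw [Multiset.card_map]
    refine (Polynomial.card_roots' _).trans ?_
    rw [Matrix.charpoly_natDegree_eq_dim, Fintype.card_fin]

variable {bad A} {b : ℝ}

theorem rts_norm (hA : ∀ v ∉ bad, ∀ (τ : E →+* ℂ), ∀ α ∈ ((A v).map τ).charpoly.roots,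
      ‖α‖ ≤ (nm v : ℝ) ^ (b - 1)) (τ : E →+* ℂ) (v : HeightOneSpectrum (𝓞 K)) (n : ℕ) (s : ℂ) :
    ∀ z ∈ rts bad A τ v n s, ‖z‖ ≤ ((nm v ^ n : ℕ) : ℝ) ^ (-(s.re - b + 1)) := by
  intro z hz
  unfold rts at hz
  split_ifs at hz with h
  · exact absurd hz (Multiset.notMem_zero _)
  · obtain ⟨α, hα, rfl⟩ := Multiset.mem_map.1 hz
    have hq : 0 < nm v := by
      have := two_le_nm v
      omega
    have hq' : (0 : ℝ) < nm v := Nat.cast_pos.2 hq
    have hqn : (0 : ℝ) < ((nm v ^ n : ℕ) : ℝ) := Nat.cast_pos.2 (pow_pos hq n)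
    rw [norm_mul, norm_pow, Complex.norm_natCast_cpow_of_pos (pow_pos hq n), Complex.neg_re]
    have h1 : ‖α‖ ^ n ≤ ((nm v : ℝ) ^ (b - 1)) ^ n := pow_le_pow_left₀ (norm_nonneg _) (hA v h τ α hα) n
    have h2 : ((nm v : ℝ) ^ (b - 1)) ^ n = ((nm v ^ n : ℕ) : ℝ) ^ (b - 1) := by
      rw [← Real.rpow_natCast, ← Real.rpow_mul hq'.le, mul_comm, Real.rpow_mul hq'.le,
        Real.rpow_natCast]
      push_cast
      rfl
    have h3 : -(s.re - b + 1) = -s.re + (b - 1) := by ring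
    rw [h3, Real.rpow_add hqn, ← h2]
    exact mul_le_mul_of_nonneg_left h1 (Real.rpow_nonneg hqn.le _)

theorem pol_ne_zero (hA : ∀ v ∉ bad, ∀ (τ : E →+* ℂ), ∀ α ∈ ((A v).map τ).charpoly.roots,
      ‖α‖ ≤ (nm v : ℝ) ^ (b - 1)) (τ : E →+* ℂ) (v : HeightOneSpectrum (𝓞 K)) {n : ℕ} (hn : n ≠ 0)
    {s : ℂ} (hs : b < s.re) : pol bad A τ v n s ≠ 0 := by
  rw [pol_eq]
  intro h
  rw [Multiset.prod_eq_zero_iff, Multiset.mem_map] at h
  obtain ⟨z, hz, h1⟩ := h
  have h2 : z = 1 := (sub_eq_zero.1 h1).symm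
  have h3 := rts_norm hA τ v n s z hz
  have h4 : ((nm v ^ n : ℕ) : ℝ) ^ (-(s.re - b + 1)) < 1 := by
    have := two_le_nm v
    refine Real.rpow_lt_one_of_one_lt_of_neg ?_ (by linarith)
    exact_mod_cast Nat.one_lt_pow hn (by omega : 1 < nm v)
  rw [h2, norm_one] at h3
  exact absurd (h3.trans_lt h4) (lt_irrefl _)

theorem hasProd_pol (hA : ∀ v ∉ bad, ∀ (τ : E →+* ℂ), ∀ α ∈ ((A v).map τ).charpoly.roots,
      ‖α‖ ≤ (nm v : ℝ) ^ (b - 1)) {F : Type} [Field F] [NumberField F] [Algebra K F] (τ : E →+* ℂ)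
    {s : ℂ} (hs : b < s.re) : ∃ L : ℂ, L ≠ 0 ∧ HasProd (fun w : HeightOneSpectrum (𝓞 F) =>
      loc (K := K) (fun v n => (pol bad A τ v n s)⁻¹) w) L := by
  have hσ : 1 < s.re - b + 1 := by linarith
  let y : HeightOneSpectrum (𝓞 F) → Multiset ℂ := fun w =>
    rts bad A τ (und (K := K) w) (fdeg (⟨w, rfl⟩ : Fib F (und (K := K) w))) s
  have hy1 : ∀ w, (y w).card ≤ d := fun w => rts_card bad A τ _ _ s
  have hy2 : ∀ w, ∀ z ∈ y w, ‖z‖ ≤ (nm w : ℝ) ^ (-(s.re - b + 1)) := by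
    intro w z hz
    have h4 : nm w = nm (und (K := K) w) ^ fdeg (⟨w, rfl⟩ : Fib F (und (K := K) w)) :=
      nm_fib (K := K) ⟨w, rfl⟩
    rw [h4]
    exact rts_norm hA τ _ _ s z hz
  obtain ⟨L, h1, h2⟩ := conv hσ y hy1 hy2
  refine ⟨L, h1, h2.congr_fun fun w => ?_⟩
  change ((pol bad A τ (und (K := K) w) (fdeg (⟨w, rfl⟩ : Fib F (und (K := K) w))) s)⁻¹) =
    ((y w).map fun z => 1 - z).prod⁻¹
  rw [pol_eq]

end

end Pool.Agent.Run7.h184.TC
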