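import Pool.Agent.Run7.h184.TC.Loc

/-!
# The classes of the L-functions
-/

set_option autoImplicit false

namespace Pool.Agent.Run7.h184.TC

open NumberField IsDedekindDomain
open scoped Classical
open Pool.Agent.R433.MD Pool.Agent.R333.BR
open Pool.Agent.H921R2.TatePole (nm two_le_nm nm_summable)

section
variable {K : Type} [Field K] [NumberField K] {E : Type} [Field E] {d : ℕ}
  (bad : Set (HeightOneSpectrum (𝓞 K))) (A : HeightOneSpectrum (𝓞 K) → Matrix (Fin d) (Fin d) E)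
  (b : ℝ)

/-- the bound for the roots -/
def Bd : Prop := ∀ v ∉ bad, ∀ (τ : E →+* ℂ), ∀ α ∈ ((A v).map τ).charpoly.roots,
  ‖α‖ ≤ (nm v : ℝ) ^ (b - 1)

variable {bad A b} (hA : Bd bad A b)

/-- the `L`-function -/
noncomputable def LF (F : Ext K) : LS E b := fun τ s =>
  Units.mk0 (hasProd_pol hA (F := F.F) τ s.2).choose
    (hasProd_pol hA (F := F.F) τ s.2).choose_spec.1

theorem LF_hasProd (F : Ext K) (τ : E →+* ℂ) (s : HP b) :
    HasProd (fun w : HeightOneSpectrum (𝓞 F.F) =>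
      loc (K := K) (fun v n => (pol bad A τ v n s)⁻¹) w) (LF hA F τ s) :=
  (hasProd_pol hA (F := F.F) τ s.2).choose_spec.2

/-- the local factors as units -/
noncomputable def gu (v : HeightOneSpectrum (𝓞 K)) (n : ℕ) : LS E b := fun τ s =>
  if hn : n ≠ 0 then (Units.mk0 (pol bad A τ v n s) (pol_ne_zero hA τ v hn s.2))⁻¹ else 1

theorem gu_val (v : HeightOneSpectrum (𝓞 K)) {n : ℕ} (hn : n ≠ 0) (τ : E →+* ℂ) (s : HP b) :
    ((gu hA v n τ s : ℂˣ) : ℂ) = (pol bad A τ v n s)⁻¹ := by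
  rw [gu, dif_pos hn, Units.val_inv_eq_inv_val, Units.val_mk0]

variable {U : Set ℂ} {m : ℤ} (hm : (m : ℂ) ∈ U)

theorem gu_mem (h0 : ∀ v ∉ bad, ∀ n ≠ 0, (1 - (((nm v ^ n : ℕ) : E) ^ (-m)) • (A v) ^ n).det ≠ 0)
    (v : HeightOneSpectrum (𝓞 K)) {n : ℕ} (hn : n ≠ 0) : gu hA v n ∈ M0 E b hm := by
  have h1 : polE bad A m v n ≠ 0 := by
    unfold polE
    split_ifs with h
    · exact one_ne_zero
    · exact h0 v h n hn
  have h2 : (gu hA v n)⁻¹ ∈ M0 E b hm := by
    refine ⟨Units.mk0 _ h1, fun τ => ?_⟩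
    refine Ld.entire (differentiable_pol bad A τ v n) _ _ (fun s => ?_) ?_
    · change pol bad A τ v n s = ((gu hA v n τ s)⁻¹ : ℂˣ)
      rw [Units.val_inv_eq_inv_val, gu_val hA v hn, inv_inv]
    · rw [pol_int]
      rfl
  exact inv_inv (gu hA v n) ▸ (M0 E b hm).inv_mem h2

/-- **Artin formalism.** -/
theorem formal_L (h0 : ∀ v ∉ bad, ∀ n ≠ 0,
      (1 - (((nm v ^ n : ℕ) : E) ^ (-m)) • (A v) ^ n).det ≠ 0) :
    Formal (K := K) fun F => cl (M0 E b hm) (LF hA F) := by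
  intro N _ _ _ _ ι _ Z f e he
  obtain ⟨S, hS⟩ := val_rel Z f e he
  have h1 : ∏ i, LF hA (Z i) ^ e i =
      ∏ v ∈ S, ∏ i, (∏ w : Fib (Z i).F v, gu hA v (fdeg w)) ^ e i := by
    funext τ s
    refine Units.ext ?_
    have h2 := hS (fun v n => (if n = 0 then 1 else pol bad A τ v n s)⁻¹) (fun v n hn => by
      rw [if_neg hn]
      exact inv_ne_zero (pol_ne_zero hA τ v hn s.2)) (fun i => (LF hA (Z i) τ s : ℂ))
      (fun i => Units.ne_zero _) (fun i => by
        refine (LF_hasProd hA (Z i) τ s).congr_fun fun w => ?_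
        rw [loc, loc, if_neg (fdeg_pos _).ne'])
    simp only [Finset.prod_apply, Pi.pow_apply, Units.coe_prod, Units.val_zpow_eq_zpow_val]
    rw [h2]
    refine Finset.prod_congr rfl fun v _ => Finset.prod_congr rfl fun i _ => ?_
    congr 1
    refine Finset.prod_congr rfl fun w _ => ?_
    rw [gu_val hA v (fdeg_pos w).ne', if_neg (fdeg_pos w).ne']
  have h3 : ∏ i, LF hA (Z i) ^ e i ∈ M0 E b hm := by
    rw [h1]
    refine Subgroup.prod_mem _ fun v _ => Subgroup.prod_mem _ fun i _ => ?_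
    exact Subgroup.zpow_mem _ (Subgroup.prod_mem _ fun w _ => gu_mem hA hm h0 v (fdeg_pos w).ne') _
  have h4 := cl_mem _ h3
  rw [cl_prod] at h4
  simp only [cl_zpow] at h4
  exact h4

/-- the degrees -/
theorem formal_deg {V : Type} [AddCommGroup V] [Module ℚ V] (x : V) :
    Formal (K := K) fun F => (Module.finrank K F.F : ℤ) • x := by
  intro N _ _ _ _ ι _ Z f e he
  have h1 := he 1
  simp only [fx_one] at h1
  simp only [smul_smul]
  rw [← Finset.sum_smul, h1, zero_smul]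

theorem Formal.add {V : Type} [AddCommGroup V] [Module ℚ V] {Ψ Φ : Ext K → V} (h : Formal Ψ)
    (h' : Formal Φ) : Formal fun F => Ψ F + Φ F := by
  intro N _ _ _ _ ι _ Z f e he
  have h1 := h N ι Z f e he
  have h2 := h' N ι Z f e he
  simp only [smul_add]
  rw [Finset.sum_add_distrib, h1, h2, add_zero]

end

end Pool.Agent.Run7.h184.TC
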