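import Pool.Agent.Run7.h184.TC.Cls

/-!
# Leading terms of meromorphic continuations
-/

set_option autoImplicit false

namespace Pool.Agent.Run7.h184.TC

open Filter Topology

/-- the half plane `b < Re s` -/
abbrev HP (b : ℝ) : Type := {s : ℂ // b < s.re}

section
variable {b : ℝ} (U : Set ℂ) (m : ℂ)

/-- `g` has a meromorphic continuation to `U` with leading term `x (s - m) ^ n` at `m` -/
def Ld (g : HP b → ℂˣ) (x : ℂˣ) (n : ℤ) : Prop :=
  ∃ Λ : ℂ → ℂ, MeromorphicOn Λ U ∧ (∀ s : HP b, Λ s = g s) ∧ meromorphicOrderAt Λ m = n ∧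
    meromorphicTrailingCoeffAt Λ m = x

variable {U m}

theorem eventually_eq (hU : IsPreconnected U) (hH : ∀ s : ℂ, b < s.re → s ∈ U) (hm : m ∈ U)
    {f g : ℂ → ℂ} (hf : MeromorphicOn f U) (hg : MeromorphicOn g U)
    (h : ∀ s : ℂ, b < s.re → f s = g s) : f =ᶠ[𝓝[≠] m] g := by
  have hh : MeromorphicOn (fun s => f s - g s) U := hf.fun_sub hg
  have hb : b < ((b + 1 : ℝ) : ℂ).re := by
    rw [Complex.ofReal_re]
    linarith
  have h3 : IsOpen {s : ℂ | b < s.re} := isOpen_lt continuous_const Complex.continuous_re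
  have h2 : meromorphicOrderAt (fun s => f s - g s) ((b + 1 : ℝ) : ℂ) = ⊤ := by
    rw [meromorphicOrderAt_eq_top_iff]
    apply eventually_nhdsWithin_of_eventually_nhds
    filter_upwards [h3.mem_nhds hb] with s hs
    rw [h s hs, sub_self]
  have h4 : meromorphicOrderAt (fun s => f s - g s) m = ⊤ := by
    by_contra h5
    exact hh.meromorphicOrderAt_ne_top_of_isPreconnected hU hm (hH _ hb) h5 h2
  rw [meromorphicOrderAt_eq_top_iff] at h4
  exact h4.mono fun s hs => sub_eq_zero.1 hs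

theorem Ld.unique (hU : IsPreconnected U) (hH : ∀ s : ℂ, b < s.re → s ∈ U) (hm : m ∈ U)
    {g : HP b → ℂˣ} {x x' : ℂˣ} {n n' : ℤ} (h : Ld U m g x n) (h' : Ld U m g x' n') :
    x = x' ∧ n = n' := by
  obtain ⟨Λ, h1, h2, h3, h4⟩ := h
  obtain ⟨Λ', h1', h2', h3', h4'⟩ := h'
  have h5 := eventually_eq hU hH hm h1 h1' fun s hs => by
    rw [h2 ⟨s, hs⟩, h2' ⟨s, hs⟩]
  refine ⟨Units.ext ?_, ?_⟩
  · rw [← h4, ← h4', meromorphicTrailingCoeffAt_congr_nhdsNE h5]
  · have h6 := meromorphicOrderAt_congr h5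
    rw [h3, h3'] at h6
    exact WithTop.coe_injective h6

theorem Ld.mul (hm : m ∈ U) {g g' : HP b → ℂˣ} {x x' : ℂˣ} {n n' : ℤ} (h : Ld U m g x n)
    (h' : Ld U m g' x' n') : Ld U m (g * g') (x * x') (n + n') := by
  obtain ⟨Λ, h1, h2, h3, h4⟩ := h
  obtain ⟨Λ', h1', h2', h3', h4'⟩ := h'
  refine ⟨Λ * Λ', h1.mul h1', fun s => ?_, ?_, ?_⟩
  · rw [Pi.mul_apply, h2, h2', Pi.mul_apply, Units.val_mul]
  · rw [meromorphicOrderAt_mul (h1 m hm) (h1' m hm), h3, h3']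
    rfl
  · rw [(h1 m hm).meromorphicTrailingCoeffAt_mul (h1' m hm), h4, h4', Units.val_mul]

theorem Ld.inv {g : HP b → ℂˣ} {x : ℂˣ} {n : ℤ} (h : Ld U m g x n) :
    Ld U m g⁻¹ x⁻¹ (-n) := by
  obtain ⟨Λ, h1, h2, h3, h4⟩ := h
  refine ⟨Λ⁻¹, h1.inv, fun s => ?_, ?_, ?_⟩
  · rw [Pi.inv_apply, h2, Pi.inv_apply, Units.val_inv_eq_inv_val]
  · rw [meromorphicOrderAt_inv, h3]
    rfl
  · rw [meromorphicTrailingCoeffAt_inv, h4, Units.val_inv_eq_inv_val]

/-- an entire function -/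
theorem Ld.entire {h : ℂ → ℂ} (hd : Differentiable ℂ h) (g : HP b → ℂˣ) (x : ℂˣ)
    (hg : ∀ s : HP b, h s = g s) (hx : h m = x) : Ld U m g x 0 := by
  refine ⟨h, fun s _ => (hd.analyticAt s).meromorphicAt, hg, ?_, ?_⟩
  · rw [(hd.analyticAt m).meromorphicOrderAt_eq, (hd.analyticAt m).analyticOrderAt_eq_zero.2
      (by rw [hx]; exact x.ne_zero)]
    rfl
  · rw [(hd.analyticAt m).meromorphicTrailingCoeffAt_of_ne_zero (by rw [hx]; exact x.ne_zero), hx]

end

section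
variable (E : Type) [Field E] (b : ℝ)

/-- families of functions on the half plane -/
abbrev LS : Type := (E →+* ℂ) → HP b → ℂˣ

variable {U : Set ℂ} {m : ℂ}

/-- the functions with a leading term -/
def Gr (hm : m ∈ U) : Subgroup (LS E b × AA E × ((E →+* ℂ) → Multiplicative ℤ)) where
  carrier := {p | ∀ τ, Ld U m (p.1 τ) (p.2.1 τ) (p.2.2 τ).toAdd}
  mul_mem' {p q} hp hq := fun τ => (hp τ).mul hm (hq τ)
  one_mem' := fun τ => Ld.entire (h := fun _ => 1) (differentiable_const _) _ _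
    (fun s => by simp) (by simp)
  inv_mem' {p} hp := fun τ => (hp τ).inv

theorem Gr_unique (hU : IsPreconnected U) (hH : ∀ s : ℂ, b < s.re → s ∈ U) (hm : m ∈ U)
    {g : LS E b} {x x' : AA E} {n n' : (E →+* ℂ) → Multiplicative ℤ}
    (h : (g, x, n) ∈ Gr E b hm) (h' : (g, x', n') ∈ Gr E b hm) : x = x' ∧ n = n' := by
  refine ⟨funext fun τ => ?_, funext fun τ => ?_⟩
  · exact ((h τ).unique hU hH hm (h' τ)).1
  · exact ((h τ).unique hU hH hm (h' τ)).2

/-- the functions with value in `E` at `m` -/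
def M0 (hm : m ∈ U) : Subgroup (LS E b) where
  carrier := {g | ∃ e : Eˣ, (g, em E e, 1) ∈ Gr E b hm}
  mul_mem' := by
    rintro g g' ⟨e, he⟩ ⟨e', he'⟩
    refine ⟨e * e', ?_⟩
    have h := (Gr E b hm).mul_mem he he'
    rw [Prod.mk_mul_mk, Prod.mk_mul_mk, mul_one] at h
    rw [map_mul]
    exact h
  one_mem' := ⟨1, by
    rw [map_one]
    exact (Gr E b hm).one_mem⟩
  inv_mem' := by
    rintro g ⟨e, he⟩
    refine ⟨e⁻¹, ?_⟩
    have h := (Gr E b hm).inv_mem he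
    rw [Prod.inv_mk, Prod.inv_mk, inv_one] at h
    rw [map_inv]
    exact h

/-- the constant functions -/
def cst : AA E →* LS E b where
  toFun x τ _ := x τ
  map_one' := rfl
  map_mul' _ _ := rfl

theorem cst_mem (hm : m ∈ U) (x : AA E) : (cst E b x, x, 1) ∈ Gr E b hm := fun τ =>
  Ld.entire (h := fun _ => (x τ : ℂ)) (differentiable_const _) _ _ (fun _ => rfl) rfl

end

end Pool.Agent.Run7.h184.TC
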