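import Pool.Agent.Run7.h184.TC.Field
import Pool.Agent.Run7.h184.TC.Grp
import Pool.Agent.R433.MD.GalRel

/-!
# Real embeddings and complex conjugations
-/

set_option autoImplicit false

namespace Pool.Agent.Run7.h184.TC

open NumberField
open Pool.Agent.R433.MD

/-- the number of embeddings of `F` in `ℝ` extending `v` -/
noncomputable def rr {K : Type} [Field K] (F : Type) [Field F] [Algebra K F] (v : K →+* ℝ) : ℕ :=
  Nat.card {ρ : F →+* ℝ // ρ.comp (algebraMap K F) = v}

/-- a common Galois extension -/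
theorem exists_gal {K : Type} [Field K] [NumberField K] {ι : Type} [Finite ι] (Z : ι → Ext K) :
    ∃ (L : Type) (_ : Field L) (_ : NumberField L) (_ : Algebra K L),
      IsGalois K L ∧ ∀ i, Nonempty ((Z i).F →ₐ[K] L) := by
  classical
  let Ω : Type := AlgebraicClosure K
  have hfin : ∀ i, FiniteDimensional K (Z i).F := fun i =>
    Module.Finite.of_restrictScalars_finite ℚ K (Z i).F
  have halg : ∀ i, Algebra.IsAlgebraic K (Z i).F := fun i => inferInstance
  let g : ∀ i, (Z i).F →ₐ[K] Ω := fun i => IsAlgClosed.lift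
  have hg : ∀ i, FiniteDimensional K (g i).fieldRange := fun i =>
    Module.Finite.equiv (AlgEquiv.ofInjectiveField (g i)).toLinearEquiv
  let M : IntermediateField K Ω := ⨆ i, (g i).fieldRange
  have hM : FiniteDimensional K M := IntermediateField.finiteDimensional_iSup_of_finite
  let N : IntermediateField K Ω := IntermediateField.normalClosure K M Ω
  have hN : FiniteDimensional K N := inferInstance
  have hN' : NumberField N := by
    have : FiniteDimensional ℚ N := Module.Finite.trans K N
    exact ⟨⟩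
  have hnorm : Normal K N := normalClosure.normal K M Ω
  refine ⟨N, inferInstance, hN', inferInstance, ⟨⟩, fun i => ?_⟩
  have h1 : (g i).fieldRange ≤ N :=
    (le_iSup (fun i => (g i).fieldRange) i).trans (IntermediateField.le_normalClosure M)
  exact ⟨(IntermediateField.inclusion h1).comp (g i).rangeRestrict⟩

section
variable {K N : Type} [Field K] [NumberField K] [Field N] [NumberField N] [Algebra K N]
  [IsGalois K N]

/-- the embeddings fixed by a complex conjugation are the real ones -/
theorem emb_conj {F : Type} [Field F] [NumberField F] [Algebra K F] (f : F →ₐ[K] N)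
    {φ : N →+* ℂ} {c : Gal(N/K)} (hc : ComplexEmbedding.IsConj φ c) (v : K →+* ℝ)
    (hv : ∀ x, φ (algebraMap K N x) = (v x : ℂ)) : emb f.fieldRange c = rr F v := by
  have h0 : emb f.fieldRange c = Nat.card {τ : F →ₐ[K] N // ∀ x, c (τ x) = τ x} := by
    rw [emb]
    let e : F ≃ₐ[K] f.fieldRange := AlgEquiv.ofInjectiveField f
    refine Nat.card_congr
      { toFun := fun τ => ⟨τ.1.comp (e : F →ₐ[K] f.fieldRange), fun x => τ.2 (e x)⟩
        invFun := fun τ => ⟨τ.1.comp (e.symm : f.fieldRange →ₐ[K] F), fun x => τ.2 (e.symm x)⟩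
        left_inv := fun τ => Subtype.ext (AlgHom.ext fun x =>
          congrArg τ.1 (e.apply_symm_apply x))
        right_inv := fun τ => Subtype.ext (AlgHom.ext fun x =>
          congrArg τ.1 (e.symm_apply_apply x)) }
  rw [h0, rr]
  have hreal : ∀ τ : {τ : F →ₐ[K] N // ∀ x, c (τ x) = τ x},
      ComplexEmbedding.IsReal (φ.comp (τ.1 : F →+* N)) := by
    intro τ
    rw [ComplexEmbedding.isReal_iff]
    refine RingHom.ext fun x => ?_
    rw [ComplexEmbedding.conjugate_coe_eq]
    change star (φ (τ.1 x)) = φ (τ.1 x)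
    rw [← hc.eq, τ.2 x]
  refine Nat.card_eq_of_bijective (fun τ => ⟨(hreal τ).embedding, RingHom.ext fun x => ?_⟩)
    ⟨fun τ τ' h => ?_, fun ρ => ?_⟩
  · have h1 := ComplexEmbedding.IsReal.coe_embedding_apply (hreal τ) (algebraMap K F x)
    have h2 : φ (τ.1 (algebraMap K F x)) = (v x : ℂ) := by rw [AlgHom.commutes, hv]
    have h3 : (((hreal τ).embedding (algebraMap K F x) : ℝ) : ℂ) = (v x : ℂ) := by
      rw [h1]
      exact h2
    exact Complex.ofReal_injective h3
  · refine Subtype.ext (AlgHom.ext fun x => φ.injective ?_)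
    have h1 := ComplexEmbedding.IsReal.coe_embedding_apply (hreal τ) x
    have h2 := ComplexEmbedding.IsReal.coe_embedding_apply (hreal τ') x
    have h3 : (hreal τ).embedding = (hreal τ').embedding := congrArg Subtype.val h
    rw [h3, h2] at h1
    exact h1.symm
  · let _ : Algebra F N := (f : F →+* N).toAlgebra
    have htow : IsScalarTower K F N := IsScalarTower.of_algebraMap_eq fun x =>
      (f.commutes x).symm
    have : Algebra.IsAlgebraic F N := Algebra.IsAlgebraic.tower_top (K := K) F
    let ρ' : N →+* ℂ := ComplexEmbedding.lift N ((Complex.ofRealHom).comp ρ.1)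
    have hρ' : ∀ x, ρ' (f x) = (ρ.1 x : ℂ) := fun x =>
      ComplexEmbedding.lift_algebraMap_apply N ((Complex.ofRealHom).comp ρ.1) x
    obtain ⟨σ, hσ⟩ := ComplexEmbedding.exists_comp_symm_eq_of_comp_eq (k := K) φ ρ' (by
      refine RingHom.ext fun x => ?_
      change φ (algebraMap K N x) = ρ' (algebraMap K N x)
      rw [hv, ← f.commutes, hρ']
      exact congrArg Complex.ofReal (RingHom.congr_fun ρ.2 x).symm)
    have hσ' : ∀ x, φ (σ.symm (f x)) = (ρ.1 x : ℂ) := fun x => by
      rw [← hρ' x, ← hσ]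
      rfl
    refine ⟨⟨(σ.symm : N →ₐ[K] N).comp f, fun x => φ.injective ?_⟩, ?_⟩
    · rw [hc.eq]
      change star (φ (σ.symm (f x))) = φ (σ.symm (f x))
      rw [hσ', Complex.star_def, Complex.conj_ofReal]
    · refine Subtype.ext (RingHom.ext fun x => Complex.ofReal_injective ?_)
      rw [ComplexEmbedding.IsReal.coe_embedding_apply]
      exact hσ' x

/-- the cyclic subgroups without complex conjugations -/
def cyc (K N : Type) [Field K] [Field N] [Algebra K N] : Set (Subgroup Gal(N/K)) :=
  {H | IsCyclic H ∧ ∀ c ∈ H, ∀ φ : N →+* ℂ, ¬ ComplexEmbedding.IsConj φ c}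

theorem cyc_le {H : Subgroup Gal(N/K)} (hH : H ∈ cyc K N) (H' : Subgroup Gal(N/K)) (h : H' ≤ H) :
    H' ∈ cyc K N := by
  have := hH.1
  exact ⟨Subgroup.isCyclic_of_le h, fun c hc => hH.2 c (h hc)⟩

theorem cyc_conj {H : Subgroup Gal(N/K)} (hH : H ∈ cyc K N) (x : Gal(N/K)) :
    H.map (MulAut.conj x).toMonoidHom ∈ cyc K N := by
  have := hH.1
  refine ⟨isCyclic_of_surjective ((MulAut.conj x).toMonoidHom.subgroupMap H)
    ((MulAut.conj x).toMonoidHom.subgroupMap_surjective H), ?_⟩
  rintro _ ⟨c, hc, rfl⟩ φ hφ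
  refine hH.2 c hc (φ.comp (x : N →+* N)) ?_
  have h1 := hφ.comp x
  have h2 : x⁻¹ * ((MulAut.conj x).toMonoidHom c) * x = c := by
    change x⁻¹ * (x * c * x⁻¹) * x = c
    group
  rw [h2] at h1
  exact h1

/-- the fixed fields are totally complex -/
theorem cyc_complex {H : Subgroup Gal(N/K)} (hH : H ∈ cyc K N) :
    IsEmpty (IntermediateField.fixedField H →+* ℝ) := by
  refine ⟨fun ρ => ?_⟩
  set F := IntermediateField.fixedField H with hF
  let ρ' : N →+* ℂ := ComplexEmbedding.lift N ((Complex.ofRealHom).comp ρ)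
  have hρ' : ∀ x : F, ρ' (x : N) = (ρ x : ℂ) := fun x =>
    ComplexEmbedding.lift_algebraMap_apply N ((Complex.ofRealHom).comp ρ) x
  obtain ⟨σ, hσ⟩ := ComplexEmbedding.exists_comp_symm_eq_of_comp_eq (k := F) ρ'
    (ComplexEmbedding.conjugate ρ') (by
      refine RingHom.ext fun x => ?_
      change ρ' (x : N) = star (ρ' (x : N))
      rw [hρ', Complex.star_def, Complex.conj_ofReal])
  let c : Gal(N/K) := σ.symm.restrictScalars K
  have hc : c ∈ H := by
    have h1 : c ∈ F.fixingSubgroup := by
      rw [IntermediateField.mem_fixingSubgroup_iff]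
      intro x hx
      exact σ.symm.commutes (⟨x, hx⟩ : F)
    rwa [hF, IntermediateField.fixingSubgroup_fixedField] at h1
  exact hH.2 c hc ρ' hσ.symm

end

end Pool.Agent.Run7.h184.TC
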