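import Pool.Agent.N181.Mod.LinA
import Pool.Agent.Run7.h184.TC.Grp

/-!
# Determinants of endomorphisms with related traces
-/

set_option autoImplicit false

namespace Pool.Agent.Run7.h184.TC

open scoped Classical TensorProduct

theorem pow_independent (S : Finset ℂ) (c : ℂ → ℂ) (h : ∀ k : ℕ, ∑ x ∈ S, c x * x ^ k = 0) :
    ∀ x ∈ S, c x = 0 := by
  have h1 : LinearIndependent ℂ (fun (x : ℂ) => ((powersHom ℂ x : Multiplicative ℕ →* ℂ) :
      Multiplicative ℕ → ℂ)) :=
    (linearIndependent_monoidHom (Multiplicative ℕ) ℂ).comp _ (powersHom ℂ).injective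
  refine linearIndependent_iff'.1 h1 S c ?_
  funext k
  rw [Finset.sum_apply]
  exact h k.toAdd

/-- **Determinants of endomorphisms with related traces.** -/
theorem det_rel {ι : Type} [Fintype ι] (V : ι → Type) [∀ i, AddCommGroup (V i)]
    [∀ i, Module ℝ (V i)] [∀ i, FiniteDimensional ℝ (V i)] (A : ∀ i, Module.End ℝ (V i))
    (e : ι → ℤ) (h : ∀ k : ℕ, ∑ i, (e i : ℝ) * LinearMap.trace ℝ (V i) (A i ^ k) = 0)
    (hA : ∀ i, LinearMap.det (A i) ≠ 0) : ∏ i, (LinearMap.det (A i)) ^ e i = 1 := by
  let B : ∀ i, Module.End ℂ (ℂ ⊗[ℝ] V i) := fun i => (A i).baseChange ℂ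
  let R : ι → Multiset ℂ := fun i => (B i).charpoly.roots
  have h1 : ∀ i (k : ℕ), ((LinearMap.trace ℝ (V i) (A i ^ k) : ℝ) : ℂ) =
      ((R i).map fun x => x ^ k).sum := by
    intro i k
    rw [← Pool.Agent.N181.Mod.trace_pow_eq]
    change _ = LinearMap.trace ℂ _ (((A i).baseChange ℂ) ^ k)
    rw [← LinearMap.baseChange_pow, LinearMap.trace_baseChange]
    rfl
  have h2 : ∀ i, ((LinearMap.det (A i) : ℝ) : ℂ) = (R i).prod := by
    intro i
    rw [← Module.End.det_eq_prod_roots_charpoly_of_splits (IsAlgClosed.splits _)]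
    change _ = LinearMap.det ((A i).baseChange ℂ)
    rw [LinearMap.det_baseChange]
    rfl
  let S : Finset ℂ := Finset.univ.biUnion fun i => (R i).toFinset
  have hS : ∀ i, (R i).toFinset ⊆ S := fun i =>
    Finset.subset_biUnion_of_mem (fun i => (R i).toFinset) (Finset.mem_univ i)
  have h3 : ∀ i (k : ℕ), ((R i).map fun x => x ^ k).sum =
      ∑ x ∈ S, ((R i).count x : ℂ) * x ^ k := by
    intro i k
    rw [Finset.sum_multiset_map_count]
    simp only [nsmul_eq_mul]
    refine Finset.sum_subset (hS i) fun x _ hx => ?_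
    rw [Multiset.mem_toFinset] at hx
    rw [Multiset.count_eq_zero_of_notMem hx, Nat.cast_zero, zero_mul]
  have h4 : ∀ i, (R i).prod = ∏ x ∈ S, x ^ (R i).count x := by
    intro i
    rw [Finset.prod_multiset_count]
    refine Finset.prod_subset (hS i) fun x _ hx => ?_
    rw [Multiset.mem_toFinset] at hx
    rw [Multiset.count_eq_zero_of_notMem hx, pow_zero]
  have h5 : ∀ x ∈ S, (((∑ i, e i * (R i).count x : ℤ)) : ℂ) = 0 := by
    refine pow_independent S (fun x => (((∑ i, e i * (R i).count x : ℤ)) : ℂ)) fun k => ?_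
    have h6 := congrArg (fun x : ℝ => (x : ℂ)) (h k)
    simp only [Complex.ofReal_sum, Complex.ofReal_mul, Complex.ofReal_intCast, h1, h3,
      Complex.ofReal_zero, Finset.mul_sum] at h6
    rw [Finset.sum_comm] at h6
    rw [← h6]
    refine Finset.sum_congr rfl fun x _ => ?_
    push_cast
    rw [Finset.sum_mul]
    exact Finset.sum_congr rfl fun i _ => by ring
  have h7 : ∀ x ∈ S, x ≠ 0 := by
    rintro x hx rfl
    obtain ⟨i, -, hi⟩ := Finset.mem_biUnion.1 hx
    rw [Multiset.mem_toFinset] at hi
    have h8 := h2 i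
    rw [Multiset.prod_eq_zero hi] at h8
    exact hA i (by exact_mod_cast h8)
  have h9 : ((∏ i, (LinearMap.det (A i)) ^ e i : ℝ) : ℂ) = 1 := by
    push_cast
    simp only [h2, h4]
    calc ∏ i, (∏ x ∈ S, x ^ (R i).count x) ^ e i
        = ∏ i, ∏ x ∈ S, x ^ (e i * (R i).count x) := by
          refine Finset.prod_congr rfl fun i _ => ?_
          rw [← Finset.prod_zpow]
          refine Finset.prod_congr rfl fun x _ => ?_
          rw [← zpow_natCast, ← zpow_mul, mul_comm]
      _ = ∏ x ∈ S, ∏ i, x ^ (e i * (R i).count x) := Finset.prod_comm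
      _ = 1 := by
          refine Finset.prod_eq_one fun x hx => ?_
          have h10 : ∏ i, x ^ (e i * (R i).count x) = x ^ (∑ i, e i * (R i).count x) := by
            have h12 : ∀ T : Finset ι, ∏ i ∈ T, x ^ (e i * (R i).count x) =
                x ^ (∑ i ∈ T, e i * ((R i).count x : ℤ)) := by
              intro T
              induction T using Finset.induction_on with
              | empty => simp
              | insert a s ha ih =>
                rw [Finset.prod_insert ha, Finset.sum_insert ha, ih, zpow_add₀ (h7 x hx)]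
            exact h12 Finset.univ
          rw [h10]
          have h11 : ∑ i, e i * ((R i).count x : ℤ) = 0 := by exact_mod_cast h5 x hx
          rw [h11, zpow_zero]
  exact_mod_cast h9

end Pool.Agent.Run7.h184.TC
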