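import Mathlib

/-!
# Rational invariant pairings close to a real one
-/

set_option autoImplicit false

namespace Pool.Agent.Run7.h184.TC

open Module Topology
open scoped Classical

section
variable {G : Type} [Group G] [Fintype G] {D C : Type} [AddCommGroup D] [Module ℚ D]
  [AddCommGroup C] [Module ℚ C] (ρ : Representation ℚ G D) (σ : Representation ℚ G C) {n : ℕ}
  (b : Basis (Fin n) ℚ D) (c : Basis (Fin n) ℚ C)

/-- the matrix of a pairing -/
noncomputable def mat {R : Type} [AddCommGroup R] [Module ℚ R] (P : D →ₗ[ℚ] C →ₗ[ℚ] R) :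
    Matrix (Fin n) (Fin n) R := fun p q => P (b p) (c q)

/-- the value of the pairing with a given matrix -/
noncomputable def pv (M : Fin n → Fin n → ℝ) (x : D) (y : C) : ℝ :=
  ∑ r, ∑ s, (b.repr x r : ℝ) * ((c.repr y s : ℝ) * M r s)

/-- the average -/
noncomputable def avg (M : Fin n → Fin n → ℝ) : Matrix (Fin n) (Fin n) ℝ := fun p q =>
  (Fintype.card G : ℝ)⁻¹ * ∑ g : G, pv b c M (ρ g (b p)) (σ g (c q))

theorem continuous_avg : Continuous (avg ρ σ b c) := by
  refine continuous_pi fun p => continuous_pi fun q => ?_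
  unfold avg pv
  fun_prop

theorem pv_mat (P : D →ₗ[ℚ] C →ₗ[ℚ] ℝ) (x : D) (y : C) : pv b c (mat b c P) x y = P x y := by
  conv_rhs => rw [← b.sum_repr x, ← c.sum_repr y]
  simp only [map_sum, LinearMap.sum_apply, map_smul, LinearMap.smul_apply, Rat.smul_def,
    Finset.mul_sum]
  unfold pv
  refine Finset.sum_comm.trans (Finset.sum_congr rfl fun r _ => Finset.sum_congr rfl fun s _ => ?_)
  change _ * (_ * P (b _) (c _)) = _
  ring

theorem avg_mat (P : D →ₗ[ℚ] C →ₗ[ℚ] ℝ) (hP : ∀ g x y, P (ρ g x) (σ g y) = P x y) :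
    avg ρ σ b c (mat b c P) = mat b c P := by
  funext p q
  unfold avg
  simp only [pv_mat, hP]
  rw [Finset.sum_const, Finset.card_univ, nsmul_eq_mul, ← mul_assoc, inv_mul_cancel₀ (by
    exact_mod_cast Fintype.card_ne_zero), one_mul]
  rfl

/-- **A rational invariant pairing.** -/
theorem exists_rational (P : D →ₗ[ℚ] C →ₗ[ℚ] ℝ) (hP : ∀ g x y, P (ρ g x) (σ g y) = P x y)
    (h0 : (mat b c P).det ≠ 0) : ∃ Q : D →ₗ[ℚ] C →ₗ[ℚ] ℚ, (∀ g x y, Q (ρ g x) (σ g y) = Q x y) ∧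
      (mat b c Q).det ≠ 0 := by
  have h1 : DenseRange (fun M : Fin n → Fin n → ℚ => (fun p q => (M p q : ℝ) :
      Fin n → Fin n → ℝ)) :=
    DenseRange.piMap (fun _ => DenseRange.piMap fun _ => Rat.denseRange_cast)
  have h2 : IsOpen {M : Fin n → Fin n → ℝ | (avg ρ σ b c M).det ≠ 0} := by
    refine isOpen_ne_fun ?_ continuous_const
    exact (continuous_avg ρ σ b c).matrix_det
  obtain ⟨M, hM⟩ := h1.exists_mem_open h2 ⟨mat b c P, by
    change (avg ρ σ b c (mat b c P)).det ≠ 0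
    rw [avg_mat ρ σ b c P hP]
    exact h0⟩
  have hM : (avg ρ σ b c fun p q => (M p q : ℝ)).det ≠ 0 := hM
  let Q0 : D →ₗ[ℚ] C →ₗ[ℚ] ℚ := Matrix.toLinearMap₂ b c M
  let Q : D →ₗ[ℚ] C →ₗ[ℚ] ℚ := (Fintype.card G : ℚ)⁻¹ • ∑ g : G, Q0.compl₁₂ (ρ g) (σ g)
  have hQ : ∀ x y, Q x y = (Fintype.card G : ℚ)⁻¹ * ∑ g : G, Q0 (ρ g x) (σ g y) := by
    intro x y
    change ((Fintype.card G : ℚ)⁻¹ • ∑ g : G, Q0.compl₁₂ (ρ g) (σ g)) x y = _
    simp only [LinearMap.smul_apply, LinearMap.sum_apply, LinearMap.compl₁₂_apply, smul_eq_mul]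
  refine ⟨Q, fun g x y => ?_, fun h => hM ?_⟩
  · rw [hQ, hQ]
    congr 1
    refine Fintype.sum_equiv (Equiv.mulRight g) _ _ fun g' => ?_
    change Q0 (ρ g' (ρ g x)) (σ g' (σ g y)) = Q0 (ρ (g' * g) x) (σ (g' * g) y)
    rw [map_mul, map_mul]
    rfl
  · have h3 : (avg ρ σ b c fun p q => (M p q : ℝ)) = (mat b c Q).map (Rat.castHom ℝ) := by
      ext p q
      rw [Matrix.map_apply]
      change _ = ((Q (b p) (c q) : ℚ) : ℝ)
      rw [hQ]
      unfold avg pv
      push_cast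
      congr 1
      refine Finset.sum_congr rfl fun g _ => ?_
      change _ = ((Matrix.toLinearMap₂ b c M (ρ g (b p)) (σ g (c q)) : ℚ) : ℝ)
      rw [Matrix.toLinearMap₂_apply]
      push_cast
      refine Finset.sum_congr rfl fun r _ => Finset.sum_congr rfl fun s _ => ?_
      simp only [smul_eq_mul]
      push_cast
      ring
    rw [h3, ← RingHom.mapMatrix_apply, ← RingHom.map_det, h, map_zero]

end

end Pool.Agent.Run7.h184.TC
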