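import Pool.Agent.Run7.h184.TC.RegA
import Pool.Agent.Run7.h184.TC.RegB

/-!
# The operator comparing a real pairing with a rational one
-/

set_option autoImplicit false

namespace Pool.Agent.Run7.h184.TC

open Module
open scoped Classical

section
variable {D C D' C' : Type} [AddCommGroup D] [Module ℚ D] [AddCommGroup C] [Module ℚ C]
  [AddCommGroup D'] [Module ℚ D'] [AddCommGroup C'] [Module ℚ C']

/-- pull back -/
noncomputable def pull (h : C →ₗ[ℚ] C') : (C' →ₗ[ℚ] ℝ) →ₗ[ℝ] (C →ₗ[ℚ] ℝ) where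
  toFun φ := φ.comp h
  map_add' _ _ := LinearMap.add_comp _ _ _
  map_smul' _ _ := rfl

/-- the real form of a rational pairing -/
noncomputable def qr (Q : D →ₗ[ℚ] C →ₗ[ℚ] ℚ) (x : D) : C →ₗ[ℚ] ℝ :=
  (Algebra.linearMap ℚ ℝ).comp (Q x)

theorem qr_apply (Q : D →ₗ[ℚ] C →ₗ[ℚ] ℚ) (x : D) (y : C) : qr Q x y = (Q x y : ℝ) := rfl

variable {n : ℕ} (b : Basis (Fin n) ℚ D) (c : Basis (Fin n) ℚ C) (Q : D →ₗ[ℚ] C →ₗ[ℚ] ℚ)
  (P : D →ₗ[ℚ] C →ₗ[ℚ] ℝ)

/-- the real matrix of a rational pairing -/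
noncomputable def matR : Matrix (Fin n) (Fin n) ℝ := (mat b c Q).map (Rat.castHom ℝ)

theorem det_matR : (matR b c Q).det = ((mat b c Q).det : ℝ) := by
  rw [matR, ← RingHom.mapMatrix_apply, ← RingHom.map_det]
  rfl

theorem constr_symm (φ : C →ₗ[ℚ] ℝ) : (c.constr ℝ).symm φ = fun q => φ (c q) := by
  rw [LinearEquiv.symm_apply_eq]
  refine c.ext fun q => ?_
  rw [Basis.constr_basis]

/-- the operator -/
noncomputable def opr : Module.End ℝ (C →ₗ[ℚ] ℝ) :=
  ((c.constr ℝ : (Fin n → ℝ) ≃ₗ[ℝ] (C →ₗ[ℚ] ℝ)) : (Fin n → ℝ) →ₗ[ℝ] (C →ₗ[ℚ] ℝ)) ∘ₗ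
    Matrix.toLin' ((matR b c Q)⁻¹ * mat b c P).transpose ∘ₗ
    ((c.constr ℝ : (Fin n → ℝ) ≃ₗ[ℝ] (C →ₗ[ℚ] ℝ)).symm : (C →ₗ[ℚ] ℝ) →ₗ[ℝ] (Fin n → ℝ))

theorem opr_det (h : (mat b c Q).det ≠ 0) :
    (mat b c P).det = LinearMap.det (opr b c Q P) * ((mat b c Q).det : ℝ) := by
  have h1 : (matR b c Q).det ≠ 0 := by
    rw [det_matR]
    exact_mod_cast h
  rw [opr, LinearMap.det_conj, LinearMap.det_toLin', Matrix.det_transpose, Matrix.det_mul,
    Matrix.det_nonsing_inv, Ring.inverse_eq_inv', ← det_matR]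
  field_simp

theorem vec_eq (x : D) (y : C) : Q x y = ∑ p, b.repr x p * Q (b p) y := by
  conv_lhs => rw [← b.sum_repr x]
  simp only [map_sum, LinearMap.sum_apply, map_smul, LinearMap.smul_apply, smul_eq_mul]

theorem vecR_eq (x : D) (y : C) : P x y = ∑ p, (b.repr x p : ℝ) * P (b p) y := by
  conv_lhs => rw [← b.sum_repr x]
  simp only [map_sum, LinearMap.sum_apply, map_smul, LinearMap.smul_apply, Rat.smul_def]

theorem opr_spec (h : (mat b c Q).det ≠ 0) (x : D) : opr b c Q P (qr Q x) = P x := by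
  have h1 : (matR b c Q).det ≠ 0 := by
    rw [det_matR]
    exact_mod_cast h
  let v : Fin n → ℝ := fun p => (b.repr x p : ℝ)
  have h2 : (c.constr ℝ).symm (qr Q x) = Matrix.vecMul v (matR b c Q) := by
    rw [constr_symm]
    funext q
    rw [qr_apply, vec_eq b Q x (c q)]
    push_cast
    rfl
  have h3 : (c.constr ℝ).symm (P x) = Matrix.vecMul v (mat b c P) := by
    rw [constr_symm]
    funext q
    rw [vecR_eq b P x (c q)]
    rfl
  have h4 : (c.constr ℝ).symm (opr b c Q P (qr Q x)) =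
      Matrix.toLin' ((matR b c Q)⁻¹ * mat b c P).transpose ((c.constr ℝ).symm (qr Q x)) := by
    unfold opr
    simp only [LinearMap.comp_apply, LinearEquiv.coe_coe, LinearEquiv.symm_apply_apply]
  refine (c.constr ℝ).symm.injective ?_
  rw [h4, h2, h3, Matrix.toLin'_apply, Matrix.mulVec_transpose, Matrix.vecMul_vecMul,
    ← Matrix.mul_assoc, Matrix.mul_nonsing_inv _ (isUnit_iff_ne_zero.2 h1), Matrix.one_mul]

theorem ext_qr (h : (mat b c Q).det ≠ 0) {W : Type} [AddCommGroup W] [Module ℝ W]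
    (f g : (C →ₗ[ℚ] ℝ) →ₗ[ℝ] W) (hfg : ∀ x, f (qr Q x) = g (qr Q x)) : f = g := by
  have h1 : (matR b c Q).det ≠ 0 := by
    rw [det_matR]
    exact_mod_cast h
  refine LinearMap.ext fun φ => ?_
  let w : Fin n → ℝ := fun q => φ (c q)
  let r : Fin n → ℝ := Matrix.vecMul w (matR b c Q)⁻¹
  have h2 : φ = ∑ p, r p • qr Q (b p) := by
    refine c.ext fun q => ?_
    rw [LinearMap.sum_apply]
    have h3 : Matrix.vecMul r (matR b c Q) = w := by
      change Matrix.vecMul (Matrix.vecMul w (matR b c Q)⁻¹) (matR b c Q) = w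
      rw [Matrix.vecMul_vecMul, Matrix.nonsing_inv_mul _ (isUnit_iff_ne_zero.2 h1),
        Matrix.vecMul_one]
    exact (congrFun h3 q).symm
  rw [h2, map_sum, map_sum]
  refine Finset.sum_congr rfl fun p _ => ?_
  rw [map_smul, map_smul, hfg]

/-- a pairing without kernel has a nonzero determinant -/
theorem det_ne_zero_of (h : ∀ x, (∀ y, Q x y = 0) → x = 0) : (mat b c Q).det ≠ 0 := by
  intro h0
  obtain ⟨v, hv0, hv⟩ := Matrix.exists_vecMul_eq_zero_iff.2 h0
  apply hv0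
  have h1 : ∑ p, v p • b p = 0 := by
    refine h _ fun y => ?_
    have h2 : ∀ q, Q (∑ p, v p • b p) (c q) = 0 := by
      intro q
      rw [map_sum, LinearMap.sum_apply]
      refine (Finset.sum_congr rfl fun p _ => ?_).trans (congrFun hv q)
      rw [map_smul, LinearMap.smul_apply]
      rfl
    have h3 : Q (∑ p, v p • b p) = 0 := c.ext fun q => h2 q
    rw [h3, LinearMap.zero_apply]
  funext p
  exact Fintype.linearIndependent_iff.1 b.linearIndependent v h1 p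

end

section finrank
variable {D C : Type} [AddCommGroup D] [Module ℚ D] [AddCommGroup C] [Module ℚ C]
  [FiniteDimensional ℚ D] [FiniteDimensional ℚ C] (Q : D →ₗ[ℚ] C →ₗ[ℚ] ℚ)

theorem finrank_le_of (h : ∀ x, (∀ y, Q x y = 0) → x = 0) : finrank ℚ D ≤ finrank ℚ C := by
  have h1 : Function.Injective Q := by
    rw [← LinearMap.ker_eq_bot, LinearMap.ker_eq_bot']
    intro x hx
    exact h x fun y => by rw [hx, LinearMap.zero_apply]
  have h2 := LinearMap.finrank_le_finrank_of_injective h1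
  have h3 : finrank ℚ (C →ₗ[ℚ] ℚ) = finrank ℚ C := Subspace.dual_finrank_eq
  omega

theorem finrank_eq_of (h : ∀ x, (∀ y, Q x y = 0) → x = 0) (h' : ∀ y, (∀ x, Q x y = 0) → y = 0) :
    finrank ℚ D = finrank ℚ C :=
  le_antisymm (finrank_le_of Q h) (finrank_le_of Q.flip fun y hy => h' y fun x => hy x)

end finrank

end Pool.Agent.Run7.h184.TC
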