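import Pool.Agent.Run7.h184.TC.RegC

/-!
# Determinants of pairings on spaces of invariants
-/

set_option autoImplicit false

namespace Pool.Agent.Run7.h184.TC

open Module
open scoped Classical
open Pool.Agent.R433.MD (fx)

/-- class functions -/
theorem sum_fxR {G : Type} [Group G] [Fintype G] (H : Subgroup G) (T : G → ℝ)
    (hT : ∀ x g, T (x * g * x⁻¹) = T g) :
    ∑ g : G, (fx H g : ℝ) * T g = (Fintype.card G : ℝ) * ((Fintype.card H : ℝ)⁻¹ * ∑ h : H, T h) := by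
  let _ : Fintype (G ⧸ H) := Fintype.ofFinite _
  have h1 : ∀ g, (fx H g : ℝ) = ∑ c : G ⧸ H, if g • c = c then (1 : ℝ) else 0 := by
    intro g
    rw [Finset.sum_boole, fx, Nat.card_eq_fintype_card, Fintype.card_subtype]
    simp
  have h2 : ∀ c : G ⧸ H, ∑ g : G, (if g • c = c then (1 : ℝ) else 0) * T g = ∑ h : H, T h := by
    intro c
    obtain ⟨x, rfl⟩ := QuotientGroup.mk_surjective c
    rw [← Equiv.sum_comp (MulAut.conj x).toEquiv]
    have h3 : ∀ g : G, (if (MulAut.conj x).toEquiv g • (x : G ⧸ H) = x then (1 : ℝ) else 0) *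
        T ((MulAut.conj x).toEquiv g) = if g ∈ H then T g else 0 := by
      intro g
      have e : (MulAut.conj x).toEquiv g = x * g * x⁻¹ := rfl
      rw [e, hT]
      have h4 : (x * g * x⁻¹) • (x : G ⧸ H) = x ↔ g ∈ H := by
        change ((x * g * x⁻¹ * x : G) : G ⧸ H) = x ↔ g ∈ H
        rw [QuotientGroup.eq]
        have e2 : (x * g * x⁻¹ * x)⁻¹ * x = g⁻¹ := by group
        rw [e2, H.inv_mem_iff]
      rw [if_congr h4 rfl rfl]
      split_ifs <;> simp
    rw [Finset.sum_congr rfl fun g _ => h3 g, ← Finset.sum_filter]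
    exact Finset.sum_subtype _ (fun g => by simp) _
  have h3 : (Fintype.card G : ℝ) = Fintype.card (G ⧸ H) * Fintype.card H := by
    rw [← Nat.card_eq_fintype_card, ← Nat.card_eq_fintype_card, ← Nat.card_eq_fintype_card]
    exact_mod_cast (H.card_eq_card_quotient_mul_card_subgroup)
  have h4 : (Fintype.card H : ℝ) ≠ 0 := by exact_mod_cast Fintype.card_ne_zero
  calc ∑ g : G, (fx H g : ℝ) * T g
      = ∑ g : G, ∑ c : G ⧸ H, (if g • c = c then (1 : ℝ) else 0) * T g := by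
        refine Finset.sum_congr rfl fun g _ => ?_
        rw [h1, Finset.sum_mul]
    _ = ∑ c : G ⧸ H, ∑ h : H, T h := by
        rw [Finset.sum_comm]
        exact Finset.sum_congr rfl fun c _ => h2 c
    _ = _ := by
        rw [Finset.sum_const, Finset.card_univ, nsmul_eq_mul, h3]
        field_simp

section
variable {G : Type} [Group G] [Fintype G] {D C : Type} [AddCommGroup D] [Module ℚ D]
  [AddCommGroup C] [Module ℚ C] {ρ : Representation ℚ G D} {σ : Representation ℚ G C}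

/-- the spaces of invariants -/
structure Sub (ρ : Representation ℚ G D) (σ : Representation ℚ G C) (H : Subgroup G)
    (D' C' : Type) [AddCommGroup D'] [Module ℚ D'] [AddCommGroup C'] [Module ℚ C'] where
  i : D' →ₗ[ℚ] D
  j : C' →ₗ[ℚ] C
  s : D →ₗ[ℚ] D'
  t : C →ₗ[ℚ] C'
  si : ∀ x, s (i x) = x
  tj : ∀ y, t (j y) = y
  is : ∀ x, i (s x) = (Fintype.card H : ℚ)⁻¹ • ∑ h : H, ρ h x
  jt : ∀ y, j (t y) = (Fintype.card H : ℚ)⁻¹ • ∑ h : H, σ h y
  hi : ∀ (h : H) (x : D'), ρ h (i x) = i x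
  hj : ∀ (h : H) (y : C'), σ h (j y) = j y

variable {n : ℕ} (b : Basis (Fin n) ℚ D) (c : Basis (Fin n) ℚ C) {Q : D →ₗ[ℚ] C →ₗ[ℚ] ℚ}
  {P : D →ₗ[ℚ] C →ₗ[ℚ] ℝ}

theorem eq_zero_of_det (h : (mat b c Q).det ≠ 0) (x : D) (hx : ∀ y, Q x y = 0) : x = 0 := by
  have h1 : Matrix.vecMul (fun p => b.repr x p) (mat b c Q) = 0 := by
    funext q
    exact (vec_eq b Q x (c q)).symm.trans (hx (c q))
  have h2 : (fun p => b.repr x p) = 0 := by
    by_contra hne
    exact h (Matrix.exists_vecMul_eq_zero_iff.1 ⟨_, hne, h1⟩)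
  have h3 : b.repr x = 0 := Finsupp.ext fun p => congrFun h2 p
  exact b.repr.map_eq_zero_iff.1 h3

theorem eq_zero_of_det' (h : (mat b c Q).det ≠ 0) (y : C) (hy : ∀ x, Q x y = 0) : y = 0 := by
  refine eq_zero_of_det (Q := Q.flip) c b ?_ y hy
  have h1 : mat c b Q.flip = (mat b c Q).transpose := rfl
  rw [h1, Matrix.det_transpose]
  exact h

theorem inv_swap {R : Type} [AddCommGroup R] [Module ℚ R] {S : D →ₗ[ℚ] C →ₗ[ℚ] R}
    (hS : ∀ g x y, S (ρ g x) (σ g y) = S x y) (g : G) (x : D) (y : C) :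
    S x (σ g y) = S (ρ g⁻¹ x) y := by
  have h1 := hS g (ρ g⁻¹ x) y
  rw [← Module.End.mul_apply, ← map_mul, mul_inv_cancel, map_one] at h1
  exact h1

theorem avg_left {R : Type} [AddCommGroup R] [Module ℚ R] {S : D →ₗ[ℚ] C →ₗ[ℚ] R}
    (hS : ∀ g x y, S (ρ g x) (σ g y) = S x y) {H : Subgroup G} {D' C' : Type} [AddCommGroup D']
    [Module ℚ D'] [AddCommGroup C'] [Module ℚ C'] (X : Sub ρ σ H D' C') (x : D) (y' : C') :
    S (X.i (X.s x)) (X.j y') = S x (X.j y') := by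
  have h0 : (Fintype.card H : ℚ) ≠ 0 := by exact_mod_cast Fintype.card_ne_zero
  rw [X.is, map_smul, LinearMap.smul_apply, map_sum, LinearMap.sum_apply]
  have h1 : ∀ h : H, S (ρ h x) (X.j y') = S x (X.j y') := by
    intro h
    have h2 := hS h x (X.j y')
    rwa [X.hj] at h2
  rw [Finset.sum_congr rfl fun h _ => h1 h, Finset.sum_const, Finset.card_univ,
    ← Nat.cast_smul_eq_nsmul ℚ, smul_smul, inv_mul_cancel₀ h0, one_smul]

theorem avg_right {R : Type} [AddCommGroup R] [Module ℚ R] {S : D →ₗ[ℚ] C →ₗ[ℚ] R}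
    (hS : ∀ g x y, S (ρ g x) (σ g y) = S x y) {H : Subgroup G} {D' C' : Type} [AddCommGroup D']
    [Module ℚ D'] [AddCommGroup C'] [Module ℚ C'] (X : Sub ρ σ H D' C') (x' : D') (y : C) :
    S (X.i x') (X.j (X.t y)) = S (X.i x') y := by
  have h0 : (Fintype.card H : ℚ) ≠ 0 := by exact_mod_cast Fintype.card_ne_zero
  rw [X.jt, map_smul, map_sum]
  have h1 : ∀ h : H, S (X.i x') (σ h y) = S (X.i x') y := by
    intro h
    have h2 := hS h (X.i x') y
    rwa [X.hi] at h2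
  rw [Finset.sum_congr rfl fun h _ => h1 h, Finset.sum_const, Finset.card_univ,
    ← Nat.cast_smul_eq_nsmul ℚ, smul_smul, inv_mul_cancel₀ h0, one_smul]

theorem sub_left {H : Subgroup G} {D' C' : Type} [AddCommGroup D'] [Module ℚ D']
    [AddCommGroup C'] [Module ℚ C'] (X : Sub ρ σ H D' C')
    (hQ : ∀ g x y, Q (ρ g x) (σ g y) = Q x y) (h : (mat b c Q).det ≠ 0) (x' : D')
    (hx : ∀ y', Q.compl₁₂ X.i X.j x' y' = 0) : x' = 0 := by
  have h1 : X.i x' = 0 := eq_zero_of_det b c h _ fun y => by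
    rw [← avg_right hQ X]
    exact hx _
  rw [← X.si x', h1, map_zero]

theorem sub_right {H : Subgroup G} {D' C' : Type} [AddCommGroup D'] [Module ℚ D']
    [AddCommGroup C'] [Module ℚ C'] (X : Sub ρ σ H D' C')
    (hQ : ∀ g x y, Q (ρ g x) (σ g y) = Q x y) (h : (mat b c Q).det ≠ 0) (y' : C')
    (hy : ∀ x', Q.compl₁₂ X.i X.j x' y' = 0) : y' = 0 := by
  have h1 : X.j y' = 0 := eq_zero_of_det' b c h _ fun x => by
    rw [← avg_left hQ X]
    exact hy _
  rw [← X.tj y', h1, map_zero]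

end

section
variable {C C' C'' : Type} [AddCommGroup C] [Module ℚ C] [AddCommGroup C'] [Module ℚ C']
  [AddCommGroup C''] [Module ℚ C'']

theorem pull_id : pull (LinearMap.id : C →ₗ[ℚ] C) = LinearMap.id := rfl

theorem pull_comp (h : C →ₗ[ℚ] C') (h' : C' →ₗ[ℚ] C'') : pull (h'.comp h) =
    (pull h).comp (pull h') := rfl

theorem pull_smul (q : ℚ) (h : C →ₗ[ℚ] C') : pull (q • h) = (q : ℝ) • pull h := by
  refine LinearMap.ext fun φ => LinearMap.ext fun y => ?_
  change φ (q • h y) = (q : ℝ) * φ (h y)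
  rw [map_smul, Rat.smul_def]

theorem pull_sum {ι : Type} (s : Finset ι) (h : ι → C →ₗ[ℚ] C') :
    pull (∑ i ∈ s, h i) = ∑ i ∈ s, pull (h i) := by
  refine LinearMap.ext fun φ => LinearMap.ext fun y => ?_
  rw [LinearMap.sum_apply, LinearMap.sum_apply]
  change φ ((∑ i ∈ s, h i) y) = ∑ i ∈ s, φ (h i y)
  rw [LinearMap.sum_apply, map_sum]

end

end Pool.Agent.Run7.h184.TC
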