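import Pool.Agent.Run7.h184.TC.RegD

/-!
# The product formula for determinants of pairings
-/

set_option autoImplicit false

namespace Pool.Agent.Run7.h184.TC

open Module
open scoped Classical
open Pool.Agent.R433.MD (fx)

section
variable {G : Type} [Group G] [Fintype G] {D C : Type} [AddCommGroup D] [Module ℚ D]
  [AddCommGroup C] [Module ℚ C] {ρ : Representation ℚ G D} {σ : Representation ℚ G C}
  {n : ℕ} (b : Basis (Fin n) ℚ D) (c : Basis (Fin n) ℚ C) {Q : D →ₗ[ℚ] C →ₗ[ℚ] ℚ}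
  {P : D →ₗ[ℚ] C →ₗ[ℚ] ℝ}

include c in
omit [Group G] [Fintype G] in
theorem finite_V : FiniteDimensional ℝ (C →ₗ[ℚ] ℝ) :=
  Module.Finite.equiv (c.constr ℝ)

/-- the operator commutes with the group -/
theorem opr_comm (hQ : ∀ g x y, Q (ρ g x) (σ g y) = Q x y)
    (hP : ∀ g x y, P (ρ g x) (σ g y) = P x y) (h : (mat b c Q).det ≠ 0) (g : G) :
    (opr b c Q P) ∘ₗ pull (σ g) = pull (σ g) ∘ₗ (opr b c Q P) := by
  refine ext_qr b c Q h _ _ fun x => ?_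
  have h1 : pull (σ g) (qr Q x) = qr Q (ρ g⁻¹ x) := by
    refine LinearMap.ext fun y => ?_
    change ((Q x (σ g y) : ℚ) : ℝ) = (Q (ρ g⁻¹ x) y : ℚ)
    rw [inv_swap hQ]
  rw [LinearMap.comp_apply, LinearMap.comp_apply, h1, opr_spec b c Q P h, opr_spec b c Q P h]
  refine LinearMap.ext fun y => ?_
  change P (ρ g⁻¹ x) y = P x (σ g y)
  rw [inv_swap hP]

theorem pow_comm {V W : Type} [AddCommGroup V] [Module ℝ V] [AddCommGroup W] [Module ℝ W]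
    (A : Module.End ℝ V) (B : Module.End ℝ W) (f : V →ₗ[ℝ] W) (h : B ∘ₗ f = f ∘ₗ A) (k : ℕ) :
    (B ^ k) ∘ₗ f = f ∘ₗ (A ^ k) := by
  induction k with
  | zero => rfl
  | succ k ih =>
    rw [pow_succ, pow_succ']
    calc (B ^ k * B) ∘ₗ f = (B ^ k) ∘ₗ (B ∘ₗ f) := rfl
      _ = ((B ^ k) ∘ₗ f) ∘ₗ A := by rw [h]; rfl
      _ = f ∘ₗ (A ^ k * A) := by rw [ih]; rfl
      _ = f ∘ₗ (A * A ^ k) := by rw [← pow_succ, pow_succ']

/-- the trace function -/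
noncomputable def TT (b : Basis (Fin n) ℚ D) (c : Basis (Fin n) ℚ C) (Q : D →ₗ[ℚ] C →ₗ[ℚ] ℚ)
    (P : D →ₗ[ℚ] C →ₗ[ℚ] ℝ) (σ : Representation ℚ G C) (k : ℕ) (g : G) : ℝ :=
  LinearMap.trace ℝ (C →ₗ[ℚ] ℝ) (opr b c Q P ^ k * pull (σ g))

theorem pull_mul (g h : G) : pull (σ (g * h)) = pull (σ h) * pull (σ g) := by
  rw [map_mul]
  rfl

theorem TT_conj (hQ : ∀ g x y, Q (ρ g x) (σ g y) = Q x y)
    (hP : ∀ g x y, P (ρ g x) (σ g y) = P x y) (h : (mat b c Q).det ≠ 0) (k : ℕ) (x g : G) :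
    TT b c Q P σ k (x * g * x⁻¹) = TT b c Q P σ k g := by
  have h1 : opr b c Q P ^ k * pull (σ x⁻¹) = pull (σ x⁻¹) * opr b c Q P ^ k :=
    pow_comm _ _ _ (opr_comm b c hQ hP h x⁻¹) k
  have h2 : pull (σ x) * pull (σ x⁻¹) = (1 : Module.End ℝ (C →ₗ[ℚ] ℝ)) := by
    rw [← pull_mul, inv_mul_cancel, map_one]
    rfl
  unfold TT
  rw [pull_mul, pull_mul, ← mul_assoc, h1, mul_assoc, LinearMap.trace_mul_comm]
  rw [mul_assoc, mul_assoc, h2, mul_one]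

/-- **The trace formula.** -/
theorem trace_sub {H : Subgroup G} {D' C' : Type} [AddCommGroup D'] [Module ℚ D']
    [AddCommGroup C'] [Module ℚ C'] (X : Sub ρ σ H D' C') {n' : ℕ} (b' : Basis (Fin n') ℚ D')
    (c' : Basis (Fin n') ℚ C') (hQ : ∀ g x y, Q (ρ g x) (σ g y) = Q x y)
    (hP : ∀ g x y, P (ρ g x) (σ g y) = P x y) (h : (mat b c Q).det ≠ 0)
    (h' : (mat b' c' (Q.compl₁₂ X.i X.j)).det ≠ 0) :
    (opr b' c' (Q.compl₁₂ X.i X.j) (P.compl₁₂ X.i X.j)) ∘ₗ pull X.j =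
      pull X.j ∘ₗ (opr b c Q P) := by
  refine ext_qr b c Q h _ _ fun x => ?_
  have h1 : pull X.j (qr Q x) = qr (Q.compl₁₂ X.i X.j) (X.s x) := by
    refine LinearMap.ext fun y => ?_
    change ((Q x (X.j y) : ℚ) : ℝ) = ((Q (X.i (X.s x)) (X.j y) : ℚ) : ℝ)
    rw [avg_left hQ X]
  rw [LinearMap.comp_apply, LinearMap.comp_apply, h1, opr_spec b' c' _ _ h',
    opr_spec b c Q P h]
  refine LinearMap.ext fun y => ?_
  change P (X.i (X.s x)) (X.j y) = P x (X.j y)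
  rw [avg_left hP X]

theorem pull_j_t {H : Subgroup G} {D' C' : Type} [AddCommGroup D'] [Module ℚ D']
    [AddCommGroup C'] [Module ℚ C'] (X : Sub ρ σ H D' C') :
    pull X.j ∘ₗ pull X.t = LinearMap.id := by
  rw [← pull_comp]
  have h1 : X.t.comp X.j = LinearMap.id := LinearMap.ext X.tj
  rw [h1, pull_id]

theorem pull_t_j {H : Subgroup G} {D' C' : Type} [AddCommGroup D'] [Module ℚ D']
    [AddCommGroup C'] [Module ℚ C'] (X : Sub ρ σ H D' C') :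
    pull X.t ∘ₗ pull X.j = (Fintype.card H : ℝ)⁻¹ • ∑ h : H, pull (σ h) := by
  rw [← pull_comp]
  have h1 : X.j.comp X.t = (Fintype.card H : ℚ)⁻¹ • ∑ h : H, σ h := by
    refine LinearMap.ext fun y => ?_
    rw [LinearMap.comp_apply, X.jt, LinearMap.smul_apply, LinearMap.sum_apply]
  rw [h1, pull_smul, pull_sum]
  push_cast
  rfl

theorem trace_pow_sub {H : Subgroup G} {D' C' : Type} [AddCommGroup D'] [Module ℚ D']
    [AddCommGroup C'] [Module ℚ C'] (X : Sub ρ σ H D' C') {n' : ℕ} (b' : Basis (Fin n') ℚ D')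
    (c' : Basis (Fin n') ℚ C') (hQ : ∀ g x y, Q (ρ g x) (σ g y) = Q x y)
    (hP : ∀ g x y, P (ρ g x) (σ g y) = P x y) (h : (mat b c Q).det ≠ 0)
    (h' : (mat b' c' (Q.compl₁₂ X.i X.j)).det ≠ 0) (k : ℕ) :
    LinearMap.trace ℝ (C' →ₗ[ℚ] ℝ)
      (opr b' c' (Q.compl₁₂ X.i X.j) (P.compl₁₂ X.i X.j) ^ k) =
      (Fintype.card H : ℝ)⁻¹ * ∑ g : H, TT b c Q P σ k g := by
  have hk := pow_comm _ _ _ (trace_sub b c X b' c' hQ hP h h') k
  have h1 : opr b' c' (Q.compl₁₂ X.i X.j) (P.compl₁₂ X.i X.j) ^ k =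
      pull X.j ∘ₗ ((opr b c Q P ^ k) ∘ₗ pull X.t) := by
    rw [← LinearMap.comp_assoc, ← hk, LinearMap.comp_assoc, pull_j_t, LinearMap.comp_id]
  have : FiniteDimensional ℝ (C →ₗ[ℚ] ℝ) := finite_V c
  have : FiniteDimensional ℝ (C' →ₗ[ℚ] ℝ) := finite_V c'
  rw [h1, LinearMap.trace_comp_comm', LinearMap.comp_assoc, pull_t_j]
  change LinearMap.trace ℝ (C →ₗ[ℚ] ℝ) ((opr b c Q P ^ k) *
    ((Fintype.card H : ℝ)⁻¹ • ∑ h : H, pull (σ h))) = _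
  rw [mul_smul_comm, map_smul, Finset.mul_sum, map_sum, smul_eq_mul]
  rfl

end

end Pool.Agent.Run7.h184.TC
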