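import Pool.Agent.Run7.h184.TC.RegE
import Pool.Agent.Run7.h184.TC.Desc

/-!
# Regulators of pairings between systems with Galois descent
-/

set_option autoImplicit false

namespace Pool.Agent.Run7.h184.TC

open Module NumberField
open scoped Classical
open Pool.Agent.R433.MD (fx Ext)

section
variable {G : Type} [Group G] [Fintype G] {D C : Type} [AddCommGroup D] [Module ℚ D]
  [AddCommGroup C] [Module ℚ C] {ρ : Representation ℚ G D} {σ : Representation ℚ G C}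
  {n : ℕ} (b : Basis (Fin n) ℚ D) (c : Basis (Fin n) ℚ C) {Q : D →ₗ[ℚ] C →ₗ[ℚ] ℚ}
  {P : D →ₗ[ℚ] C →ₗ[ℚ] ℝ}

theorem det_sub_ne_zero {H : Subgroup G} {D' C' : Type} [AddCommGroup D'] [Module ℚ D']
    [AddCommGroup C'] [Module ℚ C'] (X : Sub ρ σ H D' C') {n' : ℕ} (b' : Basis (Fin n') ℚ D')
    (c' : Basis (Fin n') ℚ C') (hQ : ∀ g x y, Q (ρ g x) (σ g y) = Q x y)
    (hP : ∀ g x y, P (ρ g x) (σ g y) = P x y) (h : (mat b c Q).det ≠ 0)
    (h' : (mat b' c' (Q.compl₁₂ X.i X.j)).det ≠ 0) (hP0 : (mat b c P).det ≠ 0) :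
    LinearMap.det (opr b' c' (Q.compl₁₂ X.i X.j) (P.compl₁₂ X.i X.j)) ≠ 0 := by
  have : FiniteDimensional ℝ (C →ₗ[ℚ] ℝ) := finite_V c
  have : FiniteDimensional ℝ (C' →ₗ[ℚ] ℝ) := finite_V c'
  have h1 := trace_sub b c X b' c' hQ hP h h'
  have h2 : LinearMap.det (opr b c Q P) ≠ 0 := by
    intro h0
    rw [opr_det b c Q P h, h0, zero_mul] at hP0
    exact hP0 rfl
  have h3 : Function.Surjective (opr b c Q P) := by
    rw [← LinearMap.range_eq_top]
    exact (LinearMap.isUnit_iff_range_eq_top _).1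
      ((LinearMap.isUnit_iff_isUnit_det _).2 (isUnit_iff_ne_zero.2 h2))
  have h4 : Function.Surjective (pull X.j) := fun ψ =>
    ⟨pull X.t ψ, LinearMap.congr_fun (pull_j_t X) ψ⟩
  have h5 : Function.Surjective (opr b' c' (Q.compl₁₂ X.i X.j) (P.compl₁₂ X.i X.j)) := by
    intro ψ
    obtain ⟨φ, rfl⟩ := h4 ψ
    obtain ⟨χ, rfl⟩ := h3 φ
    exact ⟨pull X.j χ, LinearMap.congr_fun h1 χ⟩
  exact ((LinearMap.isUnit_iff_isUnit_det _).1 ((LinearMap.isUnit_iff_range_eq_top _).2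
    (LinearMap.range_eq_top.2 h5))).ne_zero

/-- **The product formula.** -/
theorem pairing_rel {ι : Type} [Fintype ι] (H : ι → Subgroup G) (D' C' : ι → Type)
    [∀ i, AddCommGroup (D' i)] [∀ i, Module ℚ (D' i)] [∀ i, AddCommGroup (C' i)]
    [∀ i, Module ℚ (C' i)] (X : ∀ i, Sub ρ σ (H i) (D' i) (C' i)) {n' : ι → ℕ}
    (b' : ∀ i, Basis (Fin (n' i)) ℚ (D' i)) (c' : ∀ i, Basis (Fin (n' i)) ℚ (C' i)) (e : ι → ℤ)
    (he : ∀ g : G, ∑ i, e i * fx (H i) g = 0)
    (hP : ∀ g x y, P (ρ g x) (σ g y) = P x y) (hP0 : (mat b c P).det ≠ 0) :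
    (∀ i, (mat (b' i) (c' i) (P.compl₁₂ (X i).i (X i).j)).det ≠ 0) ∧
      ∃ q : ℚ, q ≠ 0 ∧ ∏ i, (mat (b' i) (c' i) (P.compl₁₂ (X i).i (X i).j)).det ^ e i = q := by
  obtain ⟨Q, hQ, h⟩ := exists_rational ρ σ b c P hP hP0
  have h' : ∀ i, (mat (b' i) (c' i) (Q.compl₁₂ (X i).i (X i).j)).det ≠ 0 := fun i =>
    det_ne_zero_of _ _ _ fun x hx => sub_left b c (X i) hQ h x hx
  let A : ∀ i, Module.End ℝ (C' i →ₗ[ℚ] ℝ) := fun i =>
    opr (b' i) (c' i) (Q.compl₁₂ (X i).i (X i).j) (P.compl₁₂ (X i).i (X i).j)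
  have hA : ∀ i, LinearMap.det (A i) ≠ 0 := fun i =>
    det_sub_ne_zero b c (X i) (b' i) (c' i) hQ hP h (h' i) hP0
  have hdet : ∀ i, (mat (b' i) (c' i) (P.compl₁₂ (X i).i (X i).j)).det = LinearMap.det (A i) *
      ((mat (b' i) (c' i) (Q.compl₁₂ (X i).i (X i).j)).det : ℝ) := fun i =>
    opr_det _ _ _ _ (h' i)
  have : ∀ i, FiniteDimensional ℝ (C' i →ₗ[ℚ] ℝ) := fun i => finite_V (c' i)
  have hG : (Fintype.card G : ℝ) ≠ 0 := by exact_mod_cast Fintype.card_ne_zero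
  have h1 : ∏ i, LinearMap.det (A i) ^ e i = 1 := by
    refine det_rel _ A e (fun k => ?_) hA
    have h2 : ∀ i, (Fintype.card G : ℝ) * LinearMap.trace ℝ (C' i →ₗ[ℚ] ℝ) (A i ^ k) =
        ∑ g : G, (fx (H i) g : ℝ) * TT b c Q P σ k g := by
      intro i
      rw [sum_fxR (H i) (TT b c Q P σ k) (TT_conj b c hQ hP h k),
        ← trace_pow_sub b c (X i) (b' i) (c' i) hQ hP h (h' i) k]
    have h3 : (Fintype.card G : ℝ) *
        ∑ i, (e i : ℝ) * LinearMap.trace ℝ (C' i →ₗ[ℚ] ℝ) (A i ^ k) = 0 := by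
      rw [Finset.mul_sum]
      calc ∑ i, (Fintype.card G : ℝ) * ((e i : ℝ) * LinearMap.trace ℝ (C' i →ₗ[ℚ] ℝ) (A i ^ k))
          = ∑ i, ∑ g : G, (e i : ℝ) * ((fx (H i) g : ℝ) * TT b c Q P σ k g) := by
            refine Finset.sum_congr rfl fun i _ => ?_
            rw [← Finset.mul_sum, ← h2 i]
            ring
        _ = ∑ g : G, ((∑ i, e i * fx (H i) g : ℤ) : ℝ) * TT b c Q P σ k g := by
            rw [Finset.sum_comm]
            refine Finset.sum_congr rfl fun g _ => ?_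
            push_cast
            rw [Finset.sum_mul]
            exact Finset.sum_congr rfl fun i _ => by ring
        _ = 0 := Finset.sum_eq_zero fun g _ => by rw [he g, Int.cast_zero, zero_mul]
    exact (mul_eq_zero.1 h3).resolve_left hG
  refine ⟨fun i => ?_, ∏ i, (mat (b' i) (c' i) (Q.compl₁₂ (X i).i (X i).j)).det ^ e i,
    Finset.prod_ne_zero_iff.2 fun i _ => zpow_ne_zero _ (h' i), ?_⟩
  · rw [hdet i]
    exact mul_ne_zero (hA i) (by exact_mod_cast h' i)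
  · rw [Rat.cast_prod]
    simp only [hdet, mul_zpow, Finset.prod_mul_distrib, h1, one_mul, Rat.cast_zpow]

theorem finrank_sub {H : Subgroup G} {D' C' : Type} [AddCommGroup D'] [Module ℚ D']
    [AddCommGroup C'] [Module ℚ C'] [FiniteDimensional ℚ D'] [FiniteDimensional ℚ C']
    (X : Sub ρ σ H D' C')
    (hP : ∀ g x y, P (ρ g x) (σ g y) = P x y) (hP0 : (mat b c P).det ≠ 0) :
    finrank ℚ D' = finrank ℚ C' := by
  obtain ⟨Q, hQ, h⟩ := exists_rational ρ σ b c P hP hP0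
  exact finrank_eq_of (Q.compl₁₂ X.i X.j) (fun x hx => sub_left b c X hQ h x hx)
    fun y hy => sub_right b c X hQ h y hy

end

section
variable {K : Type} [Field K] [NumberField K] (D : GaloisModules K)

/-- the projection to the invariants -/
theorem exists_proj {N : Ext K} (hN : IsGalois K N.F) {Z : Ext K} (f : Z.F →ₐ[K] N.F) :
    ∃ s : D.obj N →ₗ[ℚ] D.obj Z, (∀ x, s (D.map f x) = x) ∧
      (∀ x, D.map f (s x) = (Fintype.card f.fieldRange.fixingSubgroup : ℚ)⁻¹ •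
        ∑ h : f.fieldRange.fixingSubgroup, D.rep N h x) ∧
      ∀ (h : f.fieldRange.fixingSubgroup) (x : D.obj Z), D.rep N h (D.map f x) = D.map f x := by
  let H := f.fieldRange.fixingSubgroup
  have h0 : (Fintype.card H : ℚ) ≠ 0 := by exact_mod_cast Fintype.card_ne_zero
  have hinv : ∀ (h : H) (x : D.obj Z), D.rep N h (D.map f x) = D.map f x := by
    intro h x
    have h1 : D.map f x ∈ LinearMap.range (D.map f) := ⟨x, rfl⟩
    rw [D.range_map f hN, Representation.mem_invariants] at h1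
    exact h1 h
  let a : D.obj N →ₗ[ℚ] D.obj N := (Fintype.card H : ℚ)⁻¹ • ∑ h : H, D.rep N h
  have ha : ∀ x, a x = (Fintype.card H : ℚ)⁻¹ • ∑ h : H, D.rep N h x := fun x => by
    change ((Fintype.card H : ℚ)⁻¹ • ∑ h : H, D.rep N h) x = _
    rw [LinearMap.smul_apply, LinearMap.sum_apply]
  have hmem : ∀ x, a x ∈ LinearMap.range (D.map f) := by
    intro x
    rw [D.range_map f hN, Representation.mem_invariants]
    intro g
    change D.rep N g (a x) = a x
    rw [ha, map_smul, map_sum]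
    congr 1
    refine Fintype.sum_equiv (Equiv.mulLeft g) _ _ fun h => ?_
    change D.rep N g (D.rep N h x) = D.rep N (g * h : H) x
    rw [Subgroup.coe_mul, map_mul]
    rfl
  let e : D.obj Z ≃ₗ[ℚ] LinearMap.range (D.map f) := LinearEquiv.ofInjective _ (D.injective f)
  have he : ∀ z, D.map f (e.symm z) = z := fun z => by
    have h1 := e.apply_symm_apply z
    exact congrArg Subtype.val h1
  let s : D.obj N →ₗ[ℚ] D.obj Z :=
    (e.symm : LinearMap.range (D.map f) →ₗ[ℚ] D.obj Z).comp (a.codRestrict _ hmem)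
  have hs : ∀ x, D.map f (s x) = a x := fun x => he _
  refine ⟨s, fun x => D.injective f ?_, fun x => by rw [hs, ha], hinv⟩
  rw [hs, ha, Finset.sum_congr rfl fun h _ => hinv h x, Finset.sum_const, Finset.card_univ,
    ← Nat.cast_smul_eq_nsmul ℚ, smul_smul, inv_mul_cancel₀ h0, one_smul]

/-- A system of pairings: `val F` is a pairing of `D(F)` and `C(F)` with real values, and for
`f : F → F'` the pairing of the images is the pairing times the degree `[F' : F]`. -/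
structure Pairing (D C : GaloisModules K) where
  val : ∀ F : Ext K, D.obj F →ₗ[ℚ] C.obj F →ₗ[ℚ] ℝ
  compat : ∀ {F F' : Ext K} (f : F.F →ₐ[K] F'.F) (x : D.obj F) (y : C.obj F),
    (Module.finrank K F.F : ℝ) * val F' (D.map f x) (C.map f y) =
      (Module.finrank K F'.F : ℝ) * val F x y

variable {D} {C : GaloisModules K} (P : Pairing D C)

/-- `R` is a regulator over `F`: the determinant of the pairing with respect to rational bases. -/
def Pairing.IsReg (F : Ext K) (R : ℝ) : Prop :=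
  ∃ (n : ℕ) (b : Basis (Fin n) ℚ (D.obj F)) (c : Basis (Fin n) ℚ (C.obj F)),
    R = (Matrix.of fun p q => P.val F (b p) (c q)).det

theorem Pairing.inv {N : Ext K} (g : Gal(N.F/K)) (x : D.obj N) (y : C.obj N) :
    P.val N (D.rep N g x) (C.rep N g y) = P.val N x y := by
  have h1 := P.compat (F := N) (F' := N) (g : N.F →ₐ[K] N.F) x y
  have h2 : (Module.finrank K N.F : ℝ) ≠ 0 := by
    exact_mod_cast (Module.finrank_pos (R := K) (M := N.F)).ne'
  exact mul_left_cancel₀ h2 h1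

theorem exists_sub' {N : Ext K} (hN : IsGalois K N.F) {Z : Ext K} (f : Z.F →ₐ[K] N.F)
    (D C : GaloisModules K) :
    ∃ X : Sub (D.rep N) (C.rep N) f.fieldRange.fixingSubgroup (D.obj Z) (C.obj Z),
      X.i = D.map f ∧ X.j = C.map f := by
  obtain ⟨s, h1, h2, h3⟩ := exists_proj D hN f
  obtain ⟨t, h1', h2', h3'⟩ := exists_proj C hN f
  exact ⟨⟨D.map f, C.map f, s, t, h1, h1', h2, h2', h3, h3'⟩, rfl, rfl⟩

/-- **The regulators.** -/
theorem Pairing.rel {N : Ext K} (hN : IsGalois K N.F) {R : ℝ} (hR : P.IsReg N R) (hR0 : R ≠ 0)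
    {ι : Type} [Fintype ι] (Z : ι → Ext K) (f : ∀ i, (Z i).F →ₐ[K] N.F) (e : ι → ℤ)
    (he : ∀ g : Gal(N.F/K), ∑ i, e i * fx (f i).fieldRange.fixingSubgroup g = 0)
    (r : ι → ℝ) (hr : ∀ i, P.IsReg (Z i) (r i)) :
    (∀ i, r i ≠ 0) ∧ ∃ q : ℚ, q ≠ 0 ∧ ∏ i, r i ^ e i = q := by
  obtain ⟨n, b, c, rfl⟩ := hR
  choose X hXi hXj using fun i => exists_sub' hN (f i) D C
  choose n' b' c' hr' using hr
  obtain ⟨h1, q, hq, h2⟩ := pairing_rel b c (fun i => (f i).fieldRange.fixingSubgroup)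
    (fun i => D.obj (Z i)) (fun i => C.obj (Z i)) X b' c' e he (fun g x y => P.inv g x y) hR0
  -- the two determinants
  let κ : ι → ℚ := fun i => (Module.finrank K N.F : ℚ) / (Module.finrank K (Z i).F : ℚ)
  have hpos : ∀ F : Ext K, (Module.finrank K F.F : ℚ) ≠ 0 := fun F => by
    exact_mod_cast (Module.finrank_pos (R := K) (M := F.F)).ne'
  have hκ : ∀ i, κ i ≠ 0 := fun i => div_ne_zero (hpos N) (hpos _)
  have h3 : ∀ i, (mat (b' i) (c' i) ((P.val N).compl₁₂ (X i).i (X i).j)).det =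
      ((κ i ^ n' i : ℚ) : ℝ) * r i := by
    intro i
    rw [hr' i]
    have h4 : mat (b' i) (c' i) ((P.val N).compl₁₂ (X i).i (X i).j) =
        (κ i : ℝ) • Matrix.of fun p q => P.val (Z i) (b' i p) (c' i q) := by
      ext p q
      change P.val N ((X i).i (b' i p)) ((X i).j (c' i q)) =
        (κ i : ℝ) * P.val (Z i) (b' i p) (c' i q)
      rw [hXi, hXj]
      have h5 := P.compat (f i) (b' i p) (c' i q)
      have h6 : ((Module.finrank K (Z i).F : ℕ) : ℝ) ≠ 0 := by exact_mod_cast hpos (Z i)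
      change _ = (((Module.finrank K N.F : ℚ) / (Module.finrank K (Z i).F : ℚ) : ℚ) : ℝ) * _
      push_cast
      rw [div_mul_eq_mul_div, eq_div_iff h6, mul_comm _ (Module.finrank K (Z i).F : ℝ)]
      exact h5
    rw [h4, Matrix.det_smul, Fintype.card_fin]
    push_cast
    rfl
  have h7 : ∀ i, r i ≠ 0 := fun i h0 => h1 i (by rw [h3 i, h0, mul_zero])
  refine ⟨h7, q * (∏ i, (κ i ^ n' i) ^ e i)⁻¹, mul_ne_zero hq (inv_ne_zero
    (Finset.prod_ne_zero_iff.2 fun i _ => zpow_ne_zero _ (pow_ne_zero _ (hκ i)))), ?_⟩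
  rw [Rat.cast_mul, ← h2, Rat.cast_inv, Rat.cast_prod]
  simp only [h3, mul_zpow, Finset.prod_mul_distrib, Rat.cast_zpow]
  rw [mul_comm (∏ i, (((κ i ^ n' i : ℚ)) : ℝ) ^ e i), mul_assoc, mul_inv_cancel₀, mul_one]
  exact Finset.prod_ne_zero_iff.2 fun i _ => zpow_ne_zero _ (by
    exact_mod_cast pow_ne_zero _ (hκ i))

/-- regulators exist -/
theorem Pairing.exists_reg {N : Ext K} (hN : IsGalois K N.F) {R : ℝ} (hR : P.IsReg N R)
    (hR0 : R ≠ 0) {Z : Ext K} (f : Z.F →ₐ[K] N.F) : ∃ r : ℝ, P.IsReg Z r := by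
  obtain ⟨n, b, c, rfl⟩ := hR
  obtain ⟨X, hXi, hXj⟩ := exists_sub' hN f D C
  have h1 := finrank_sub b c X (fun g x y => P.inv g x y) hR0
  let b' := Module.finBasis ℚ (D.obj Z)
  let c' := (Module.finBasis ℚ (C.obj Z)).reindex (finCongr h1.symm)
  exact ⟨_, _, b', c', rfl⟩

end

end Pool.Agent.Run7.h184.TC
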