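import Pool.Agent.Run7.h184.TC.Real

/-!
# Relations between number fields modulo totally complex fields
-/

set_option autoImplicit false

namespace Pool.Agent.Run7.h184.TC

open NumberField
open Pool.Agent.R433.MD

/-- `F` has no embedding in `ℝ` and `Gal(N/F)` is cyclic for a finite Galois extension `N` of `K`
containing `F` -/
structure CycType (K F : Type) [Field K] [Field F] [Algebra K F] : Prop where
  complex : IsEmpty (F →+* ℝ)
  cyclic : ∃ (N : Type) (_ : Field N) (_ : NumberField N) (_ : Algebra K N) (_ : Algebra F N)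
    (_ : IsScalarTower K F N), IsGalois K N ∧ IsCyclic Gal(N/F)

/-- two automorphisms agreeing on `L` have the same character values on the subfields of `L` -/
theorem fx_congr {K L N F : Type} [Field K] [Field L] [Field N] [NumberField K] [NumberField L]
    [NumberField N] [Algebra K L] [Algebra K N] [Algebra L N] [IsScalarTower K L N] [IsGalois K L]
    [IsGalois K N] [Field F] [Algebra K F] (f0 : F →ₐ[K] L) {g c : Gal(N/K)}
    (h : ∀ x : L, g (algebraMap L N x) = c (algebraMap L N x)) :
    emb ((IsScalarTower.toAlgHom K L N).comp f0).fieldRange g =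
      emb ((IsScalarTower.toAlgHom K L N).comp f0).fieldRange c := by
  have key : ∀ (τ : ((IsScalarTower.toAlgHom K L N).comp f0).fieldRange →ₐ[K] N)
      (x : ((IsScalarTower.toAlgHom K L N).comp f0).fieldRange), g (τ x) = c (τ x) := by
    rintro τ ⟨_, y, rfl⟩
    let σ0 : N →ₐ[K] N := τ.liftNormal N
    let σ : Gal(N/K) := AlgEquiv.ofBijective σ0 (Algebra.IsAlgebraic.algHom_bijective σ0)
    have h1 := τ.liftNormal_commutes N ⟨_, y, rfl⟩
    have h2 : σ (algebraMap L N (f0 y)) = algebraMap L N (AlgEquiv.restrictNormalHom L σ (f0 y)) :=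
      (AlgEquiv.restrictNormal_commutes σ L (f0 y)).symm
    have h3 : τ ⟨_, y, rfl⟩ = algebraMap L N (AlgEquiv.restrictNormalHom L σ (f0 y)) := by
      rw [← h2]
      exact h1.symm
    rw [h3, h]
  rw [emb, emb]
  refine Nat.card_congr (Equiv.subtypeEquivRight fun τ => forall_congr' fun x => ?_)
  rw [key τ x]

variable {K : Type} [Field K] [NumberField K]

/-- **Relations modulo totally complex fields.** -/
theorem relation {ι : Type} [Fintype ι] (Z : ι → Ext K) (a : ι → ℤ)
    (h : ∀ v : K →+* ℝ, ∑ i, a i * (rr (Z i).F v : ℤ) = 0) :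
    ∃ (N : Type) (_ : Field N) (_ : NumberField N) (_ : Algebra K N) (_ : IsGalois K N)
      (f : ∀ i, (Z i).F →ₐ[K] N) (m : ℕ) (r : ℕ) (Y : Fin r → Ext K)
      (g : ∀ j, (Y j).F →ₐ[K] N) (n : Fin r → ℤ), m ≠ 0 ∧
      (∀ j, CycType K (Y j).F) ∧
      ∀ σ : Gal(N/K), (m : ℤ) * ∑ i, a i * fx (f i).fieldRange.fixingSubgroup σ =
        ∑ j, n j * fx (g j).fieldRange.fixingSubgroup σ := by
  classical
  obtain ⟨L, _, _, _, _, hf0⟩ := exists_gal Z
  let f0 : ∀ i, (Z i).F →ₐ[K] L := fun i => (hf0 i).some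
  obtain ⟨S, hS⟩ := separate K L
  obtain ⟨N, _, _, _, _, _, _, hN⟩ := exists_sqrt K L S
  let f : ∀ i, (Z i).F →ₐ[K] N := fun i => (IsScalarTower.toAlgHom K L N).comp (f0 i)
  let F : Gal(N/K) → ℤ := fun σ => ∑ i, a i * fx (f i).fieldRange.fixingSubgroup σ
  have hF : F ∈ sp (Set.univ : Set (Subgroup Gal(N/K))) := by
    have e : F = ∑ i, a i • fx (f i).fieldRange.fixingSubgroup := by
      funext σ
      rw [Finset.sum_apply]
      rfl
    rw [e]
    exact Submodule.sum_mem _ fun i _ => Submodule.smul_mem _ _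
      (Submodule.subset_span ⟨⟨_, trivial⟩, rfl⟩)
  have h0 : ∀ σ, F σ ≠ 0 → ∃ H ∈ cyc K N, σ ∈ H := by
    intro σ hσ
    by_contra hne
    have h1 : Subgroup.zpowers σ ∉ cyc K N := fun h =>
      hne ⟨_, h, Subgroup.mem_zpowers σ⟩
    have h2 : ∃ c ∈ Subgroup.zpowers σ, ∃ φ : N →+* ℂ, ComplexEmbedding.IsConj φ c := by
      by_contra h3
      refine h1 ⟨inferInstance, fun c hc φ hφ => h3 ⟨c, hc, φ, hφ⟩⟩
    obtain ⟨c, hc, φ, hφ⟩ := h2
    have h3 := hS N hN φ σ c hφ hc
    have hreal := hφ.isReal_comp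
    have h4 : F σ = ∑ i, a i * (rr (Z i).F hreal.embedding : ℤ) := by
      refine Finset.sum_congr rfl fun i _ => ?_
      rw [fx_eq_emb, fx_congr (f0 i) h3, emb_conj (f i) hφ hreal.embedding fun x =>
        (ComplexEmbedding.IsReal.coe_embedding_apply hreal x).symm]
    exact hσ (h4.trans (h _))
  obtain ⟨m, hm0, hm⟩ := support_mem (cyc K N) (fun H hH H' h => cyc_le hH H' h)
    (fun H hH x => cyc_conj hH x) hF h0
  obtain ⟨r, H, n, hH, hHn⟩ := coeff_of_mem _ hm
  let Y : Fin r → Ext K := fun j => ⟨IntermediateField.fixedField (H j)⟩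
  let g : ∀ j, (Y j).F →ₐ[K] N := fun j => (IntermediateField.fixedField (H j)).val
  have hg : ∀ j, (g j).fieldRange.fixingSubgroup = H j := fun j => by
    change ((IntermediateField.fixedField (H j)).val).fieldRange.fixingSubgroup = H j
    rw [IntermediateField.fieldRange_val, IntermediateField.fixingSubgroup_fixedField]
  refine ⟨N, inferInstance, inferInstance, inferInstance, inferInstance, f, m, r, Y, g, n, hm0,
    fun j => ⟨cyc_complex (hH j), ?_⟩, fun σ => ?_⟩
  · refine ⟨N, inferInstance, inferInstance, inferInstance,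
      inferInstanceAs (Algebra (IntermediateField.fixedField (H j)) N),
      inferInstanceAs (IsScalarTower K (IntermediateField.fixedField (H j)) N),
      inferInstance, ?_⟩
    have h1 : IsCyclic (H j) := (hH j).1
    exact isCyclic_of_surjective (IntermediateField.subgroupEquivAlgEquiv (H j))
      (MulEquiv.surjective _)
  · have h1 := hHn σ
    rw [Pi.smul_apply, smul_eq_mul] at h1
    rw [h1]
    exact Finset.sum_congr rfl fun j _ => by rw [hg j]

end Pool.Agent.Run7.h184.TC
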