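import Pool.Agent.Run7.h184.TC.Desc
import Pool.Agent.Run7.h184.TC.Mer

/-!
# Dirichlet series over the places and their residues
-/

set_option autoImplicit false

namespace Pool.Agent.Run7.h184.TC

open NumberField IsDedekindDomain Filter Topology
open scoped Classical
open Pool.Agent.R433.MD Pool.Agent.R333.BR
open Pool.Agent.H921R2.TatePole (nm two_le_nm nm_summable)

variable {K : Type} [Field K] [NumberField K]

/-- the functions which extend analytically at `c` -/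
def An (b : ℝ) (c : ℂ) : Submodule ℚ (HP b → ℂ) where
  carrier := {g | ∃ h : ℂ → ℂ, AnalyticAt ℂ h c ∧ ∀ᶠ s in 𝓝 c, ∀ hs : b < s.re, g ⟨s, hs⟩ = h s}
  add_mem' {g g'} h h' := by
    obtain ⟨h1, h2, h3⟩ := h
    obtain ⟨h1', h2', h3'⟩ := h'
    refine ⟨h1 + h1', h2.add h2', ?_⟩
    filter_upwards [h3, h3'] with s hs hs' hb
    rw [Pi.add_apply, Pi.add_apply, hs hb, hs' hb]
  zero_mem' := ⟨0, analyticAt_const, Eventually.of_forall fun s hs => rfl⟩
  smul_mem' r g h := by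
    obtain ⟨h1, h2, h3⟩ := h
    refine ⟨fun s => (r : ℂ) * h1 s, analyticAt_const.mul h2, ?_⟩
    filter_upwards [h3] with s hs hb
    rw [Pi.smul_apply, hs hb, Rat.smul_def]

/-- the functions which extend to entire functions -/
def Ent (b : ℝ) : Submodule ℚ (HP b → ℂ) where
  carrier := {g | ∃ h : ℂ → ℂ, Differentiable ℂ h ∧ ∀ s : HP b, g s = h s}
  add_mem' {g g'} h h' := by
    obtain ⟨h1, h2, h3⟩ := h
    obtain ⟨h1', h2', h3'⟩ := h'
    exact ⟨h1 + h1', h2.add h2', fun s => by rw [Pi.add_apply, Pi.add_apply, h3, h3']⟩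
  zero_mem' := ⟨0, differentiable_const _, fun s => rfl⟩
  smul_mem' r g h := by
    obtain ⟨h1, h2, h3⟩ := h
    exact ⟨fun s => (r : ℂ) * h1 s, h2.const_mul _, fun s => by
      rw [Pi.smul_apply, h3, Rat.smul_def]⟩

theorem An_of {b : ℝ} {c : ℂ} {g : HP b → ℂ} (h : ℂ → ℂ) (h1 : AnalyticAt ℂ h c)
    (h2 : ∀ s : HP b, g s = h s) : g ∈ An b c :=
  ⟨h, h1, Eventually.of_forall fun s hs => h2 ⟨s, hs⟩⟩

/-- the local data -/
noncomputable def term (B : HeightOneSpectrum (𝓞 K) → ℕ → ℂ) (s : ℂ)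
    (v : HeightOneSpectrum (𝓞 K)) (n : ℕ) : ℂ :=
  B v n * (Real.log ((nm v ^ n : ℕ) : ℝ) : ℂ) * ((nm v ^ n : ℕ) : ℂ) ^ (-s)

theorem differentiable_term (B : HeightOneSpectrum (𝓞 K) → ℕ → ℂ)
    (v : HeightOneSpectrum (𝓞 K)) (n : ℕ) : Differentiable ℂ fun s => term B s v n := by
  have h0 : ((nm v ^ n : ℕ) : ℂ) ≠ 0 := by
    have := two_le_nm v
    exact Nat.cast_ne_zero.2 (pow_ne_zero _ (by omega))
  unfold term
  intro s
  refine DifferentiableAt.const_mul ?_ _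
  exact (differentiableAt_id.neg).const_cpow (Or.inl h0)

theorem loc_term (B : HeightOneSpectrum (𝓞 K) → ℕ → ℂ) (s : ℂ) (F : Ext K)
    (w : HeightOneSpectrum (𝓞 F.F)) : loc (term B s) w = loc B w *
      (Real.log (nm w : ℝ) : ℂ) * ((nm w : ℕ) : ℂ) ^ (-s) := by
  have h1 : nm w = nm (und (K := K) w) ^ fdeg (⟨w, rfl⟩ : Fib F.F (und (K := K) w)) :=
    nm_fib (K := K) ⟨w, rfl⟩
  rw [loc, term, ← h1]
  rfl

/-- the terms grow at most like a power -/
def Grow (κ C : ℝ) (B : HeightOneSpectrum (𝓞 K) → ℕ → ℂ) : Prop :=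
  ∀ v n, n ≠ 0 → ‖B v n‖ ≤ C * ((nm v ^ n : ℕ) : ℝ) ^ κ

theorem summable_term {κ C : ℝ} {B : HeightOneSpectrum (𝓞 K) → ℕ → ℂ} (hB : Grow κ C B)
    (F : Ext K) {s : ℂ} (hs : κ + 1 < s.re) :
    Summable fun w : HeightOneSpectrum (𝓞 F.F) => ‖loc (term B s) w‖ := by
  let ε : ℝ := (s.re - (κ + 1)) / 2
  have hε : 0 < ε := by
    change 0 < (s.re - (κ + 1)) / 2
    linarith
  have h1 : Summable fun w : HeightOneSpectrum (𝓞 F.F) => (C / ε) * (nm w : ℝ) ^ (-(1 + ε)) :=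
    (nm_summable (by linarith)).mul_left _
  refine Summable.of_nonneg_of_le (fun w => norm_nonneg _) (fun w => ?_) h1
  have h2 : nm w = nm (und (K := K) w) ^ fdeg (⟨w, rfl⟩ : Fib F.F (und (K := K) w)) :=
    nm_fib (K := K) ⟨w, rfl⟩
  have h3 : (2 : ℝ) ≤ nm w := by exact_mod_cast two_le_nm w
  have h4 : ‖loc B w‖ ≤ C * (nm w : ℝ) ^ κ := by
    have h5 := hB (und (K := K) w) (fdeg (⟨w, rfl⟩ : Fib F.F (und (K := K) w))) (by
      intro h6
      rw [h6, pow_zero] at h2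
      have h7 := two_le_nm w
      omega)
    rw [← h2] at h5
    exact h5
  have hw : (0 : ℝ) < nm w := by linarith
  have h5 : ‖((nm w : ℕ) : ℂ) ^ (-s)‖ = (nm w : ℝ) ^ (-s.re) := by
    have h6 := Complex.norm_cpow_eq_rpow_re_of_pos hw (-s)
    rw [Complex.neg_re] at h6
    rw [← h6]
    norm_cast
  have h6 : Real.log (nm w : ℝ) ≤ (nm w : ℝ) ^ ε / ε := Real.log_le_rpow_div hw.le hε
  have h7 : 0 ≤ Real.log (nm w : ℝ) := Real.log_nonneg (by linarith)
  have h8 : 0 ≤ C * (nm w : ℝ) ^ κ := (norm_nonneg _).trans h4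
  rw [loc_term, norm_mul, norm_mul, h5, Complex.norm_real, Real.norm_eq_abs, abs_of_nonneg h7]
  calc ‖loc B w‖ * Real.log (nm w) * (nm w : ℝ) ^ (-s.re)
      ≤ (C * (nm w : ℝ) ^ κ) * ((nm w : ℝ) ^ ε / ε) * (nm w : ℝ) ^ (-s.re) := by
        refine mul_le_mul_of_nonneg_right ?_ (Real.rpow_nonneg hw.le _)
        exact mul_le_mul h4 h6 h7 h8
    _ = (C / ε) * ((nm w : ℝ) ^ κ * (nm w : ℝ) ^ ε * (nm w : ℝ) ^ (-s.re)) := by ring
    _ = (C / ε) * (nm w : ℝ) ^ (-(1 + ε)) := by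
        rw [← Real.rpow_add hw, ← Real.rpow_add hw]
        congr 2
        change κ + (s.re - (κ + 1)) / 2 + -s.re = -(1 + (s.re - (κ + 1)) / 2)
        ring

/-- the series -/
noncomputable def ser (B : HeightOneSpectrum (𝓞 K) → ℕ → ℂ) (F : Ext K) (s : ℂ) : ℂ :=
  ∑' w : HeightOneSpectrum (𝓞 F.F), loc (term B s) w

/-- the series minus its expected principal part -/
noncomputable def dif (κ : ℝ) (B : HeightOneSpectrum (𝓞 K) → ℕ → ℂ) (D : GaloisModules K)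
    (F : Ext K) : HP (κ + 1) → ℂ := fun s => ser B F s - (D.rank F : ℂ) / (s - ((κ + 1 : ℝ) : ℂ))

theorem formal_dif {κ C : ℝ} {B : HeightOneSpectrum (𝓞 K) → ℕ → ℂ} (hB : Grow κ C B)
    (D : GaloisModules K) (M : Submodule ℚ (HP (κ + 1) → ℂ))
    (hM : ∀ h : ℂ → ℂ, Differentiable ℂ h → (fun s : HP (κ + 1) => h s) ∈ M) :
    Formal (K := K) fun F => (Submodule.Quotient.mk (dif κ B D F) : (HP (κ + 1) → ℂ) ⧸ M) := by
  intro N _ _ _ _ ι _ Z f e he
  obtain ⟨S, -, hS⟩ := add_rel Z f e he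
  have hrank := D.formal_rank N ι Z f e he
  have h1 : ∑ i, e i • (Submodule.Quotient.mk (dif κ B D (Z i)) :
      (HP (κ + 1) → ℂ) ⧸ M) = Submodule.Quotient.mk (∑ i, e i • dif κ B D (Z i)) := by
    rw [← Submodule.mkQ_apply, map_sum]
    refine Finset.sum_congr rfl fun i _ => ?_
    rw [map_zsmul]
    rfl
  rw [h1, Submodule.Quotient.mk_eq_zero]
  let h : ℂ → ℂ := fun s => ∑ v ∈ S, ∑ i, e i • ∑ w : Fib (Z i).F v, term B s v (fdeg w)
  have hd : Differentiable ℂ h := by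
    refine Differentiable.fun_sum fun v _ => Differentiable.fun_sum fun i _ => ?_
    have h3 : (fun s => e i • ∑ w : Fib (Z i).F v, term B s v (fdeg w)) =
        fun s => (e i : ℂ) * ∑ w : Fib (Z i).F v, term B s v (fdeg w) := by
      funext s
      rw [zsmul_eq_mul]
    rw [h3]
    exact (Differentiable.fun_sum fun w _ => differentiable_term B v _).const_mul _
  have hh : (∑ i, e i • dif κ B D (Z i)) = fun s : HP (κ + 1) => h s := funext fun s => ?_
  · rw [hh]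
    exact hM h hd
  have h3 := hS ℂ (term B s) (fun i => ser B (Z i) s) fun i =>
    (summable_term hB (Z i) s.2).of_norm.hasSum
  have h4 : ∑ i, (e i : ℂ) * (D.rank (Z i) : ℂ) = 0 := by
    have h5 := congrArg (Rat.cast : ℚ → ℂ) hrank
    simp only [zsmul_eq_mul] at h5
    push_cast at h5
    exact h5
  change (∑ i, e i • dif κ B D (Z i)) s = ∑ v ∈ S, ∑ i, e i • ∑ w : Fib (Z i).F v,
    term B s v (fdeg w)
  rw [← h3, Finset.sum_apply]
  have h6 : ∀ i, (e i • dif κ B D (Z i)) s = e i • ser B (Z i) s -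
      ((e i : ℂ) * (D.rank (Z i) : ℂ)) * (s - ((κ + 1 : ℝ) : ℂ) : ℂ)⁻¹ := by
    intro i
    rw [Pi.smul_apply, dif, zsmul_eq_mul, zsmul_eq_mul]
    ring
  rw [Finset.sum_congr rfl fun i _ => h6 i, Finset.sum_sub_distrib, ← Finset.sum_mul, h4,
    zero_mul, sub_zero]

end Pool.Agent.Run7.h184.TC
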