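import Pool.Agent.Run7.h184.TC.Abs
import Pool.Agent.R333.BR.LRel

/-!
# Relations between Euler products whose local factors depend on the residue degree
-/

set_option autoImplicit false

namespace Pool.Agent.Run7.h184.TC

open NumberField IsDedekindDomain
open Pool.Agent.R433.MD Pool.Agent.R333.BR Pool.Agent.H341R2.EC

section
variable {K : Type} [Field K] [NumberField K]

/-- the factor at `w` of a family of factors which depend on the residue degree -/
noncomputable def loc {R : Type} {F : Type} [Field F] [NumberField F] [Algebra K F]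
    (G : HeightOneSpectrum (𝓞 K) → ℕ → R) (w : HeightOneSpectrum (𝓞 F)) : R :=
  G (und (K := K) w) (fdeg (⟨w, rfl⟩ : Fib F (und (K := K) w)))

/-- **Relations between Euler products.** -/
theorem val_rel {N : Type} [Field N] [NumberField N] [Algebra K N]
    [IsGalois K N] {ι : Type} [Fintype ι] (Z : ι → Ext K) (f : ∀ i, (Z i).F →ₐ[K] N) (e : ι → ℤ)
    (h : ∀ g : Gal(N/K), ∑ i, e i * fx (f i).fieldRange.fixingSubgroup g = 0) :
    ∃ S : Finset (HeightOneSpectrum (𝓞 K)), ∀ (G : HeightOneSpectrum (𝓞 K) → ℕ → ℂ),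
      (∀ v n, n ≠ 0 → G v n ≠ 0) → ∀ L : ι → ℂ, (∀ i, L i ≠ 0) →
      (∀ i, HasProd (fun w : HeightOneSpectrum (𝓞 (Z i).F) => loc G w) (L i)) →
      ∏ i, L i ^ e i = ∏ v ∈ S, ∏ i, (∏ w : Fib (Z i).F v, G v (fdeg w)) ^ e i := by
  classical
  obtain ⟨D, hD0, hD⟩ := frob_count K N
  have hbad : {v : HeightOneSpectrum (𝓞 K) | D ∈ v.asIdeal}.Finite := finite_mem hD0
  set S := hbad.toFinset with hS
  let a : ι → ℕ := fun i => (e i).toNat
  let b : ι → ℕ := fun i => (- e i).toNat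
  have hcount : ∀ (k : Type) [Field k] [Finite k] (φ : 𝓞 K →+* k), φ D ≠ 0 →
      ∑ i, a i * nh (Z i).F φ = ∑ i, b i * nh (Z i).F φ := by
    intro k _ _ φ hφ
    obtain ⟨g, hg⟩ := hD k φ hφ
    have h4 : ∀ i : ι, nh (Z i).F φ =
        Nat.card {c : Gal(N/K) ⧸ (f i).fieldRange.fixingSubgroup // g • c = c} := fun i => by
      rw [← hg (f i).fieldRange]
      exact nh_congr (AlgEquiv.ofInjectiveField (f i)) φ
    simp only [h4]
    have h5 := h g
    have h6 : ((∑ i, (e i).toNat * Nat.card {c : Gal(N/K) ⧸ (f i).fieldRange.fixingSubgroup //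
        g • c = c} : ℕ) : ℤ) = ((∑ i, (-e i).toNat *
        Nat.card {c : Gal(N/K) ⧸ (f i).fieldRange.fixingSubgroup // g • c = c} : ℕ) : ℤ) := by
      push_cast
      rw [← sub_eq_zero, ← h5, ← Finset.sum_sub_distrib]
      refine Finset.sum_congr rfl fun i _ => ?_
      have h7 := Int.toNat_sub_toNat_neg (e i)
      rw [fx]
      linear_combination (Nat.card {c : Gal(N/K) ⧸ (f i).fieldRange.fixingSubgroup //
        g • c = c} : ℤ) * h7
    exact_mod_cast h6
  refine ⟨S, fun G hG L hL0 hL => ?_⟩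
  let B : (ι → ℕ) → HeightOneSpectrum (𝓞 K) → ℂ := fun c v =>
    ∏ i, (∏ w : Fib (Z i).F v, G v (fdeg w)) ^ c i
  have hG0 : ∀ i v, ∏ w : Fib (Z i).F v, G v (fdeg w) ≠ 0 := fun i v =>
    Finset.prod_ne_zero_iff.2 fun w _ => hG _ _ (fdeg_pos w).ne'
  have hB0 : ∀ c v, B c v ≠ 0 := fun c v => Finset.prod_ne_zero_iff.2 fun i _ =>
    pow_ne_zero _ (hG0 i v)
  have hprod : ∀ c : ι → ℕ, HasProd (B c) (∏ i, L i ^ c i) := by
    intro c
    refine hasProd_prod fun i _ => hasProd_pow ?_ (c i)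
    have h1 := hasProd_fib (K := K) (hL i)
    refine h1.congr_fun fun v => ?_
    refine Finset.prod_congr rfl fun w _ => ?_
    obtain ⟨w, rfl⟩ := w
    rfl
  have hgood : ∀ v, v ∉ S → B a v = B b v := by
    intro v hv
    have hvD : D ∉ v.asIdeal := fun h => hv (hbad.mem_toFinset.2 h)
    refine comb (fun i => Fib (Z i).F v) (fun i w => fdeg w) (fun i w => fdeg_pos w) a b ?_
      (fun n => G v n)
    intro m hm
    obtain ⟨k, iF, iFin, iA, hk⟩ := exists_ext (𝓞 K ⧸ v.asIdeal) hm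
    have h1 := hcount k (base v k) (by
      rw [base, RingHom.comp_apply]
      intro h
      rw [map_eq_zero_iff _ (algebraMap (𝓞 K ⧸ v.asIdeal) k).injective,
        Ideal.Quotient.eq_zero_iff_mem] at h
      exact hvD h)
    simp only [nh_eq, hk] at h1
    exact h1
  have h1 := compare (hprod a) (hprod b) S hgood
  have h2 : ∏ v ∈ S, B b v ≠ 0 := Finset.prod_ne_zero_iff.2 fun v _ => hB0 _ _
  have h3 : ∏ i, L i ^ b i ≠ 0 := Finset.prod_ne_zero_iff.2 fun i _ => pow_ne_zero _ (hL0 i)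
  have hz : ∀ x : ι → ℂ, (∀ i, x i ≠ 0) → ∏ i, x i ^ e i = (∏ i, x i ^ a i) / ∏ i, x i ^ b i := by
    intro x hx
    rw [← Finset.prod_div_distrib]
    refine Finset.prod_congr rfl fun i _ => ?_
    conv_lhs => rw [← Int.toNat_sub_toNat_neg (e i)]
    rw [zpow_sub₀ (hx i), zpow_natCast, zpow_natCast]
  have h5 : ∀ v, ∏ i, (∏ w : Fib (Z i).F v, G v (fdeg w)) ^ e i = B a v / B b v := fun v =>
    hz _ fun i => hG0 i v
  rw [hz L hL0, Finset.prod_congr rfl fun v _ => h5 v, Finset.prod_div_distrib,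
    div_eq_div_iff h3 h2, h1]
  ring

end

end Pool.Agent.Run7.h184.TC
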